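import Pool.Agent.Lib.MP_9f8414_nt.Defs

section

/-!
# Series representations of `a` and `b`
-/

namespace Pool.Agent.Lib.MP_9f8414_nt

open ArithmeticFunction Finset

/-- number of ordered factorizations of `n` into `j` positive factors -/
def Dn (j : ℕ) (n : ℕ) : ℕ := ((zeta ^ j : ArithmeticFunction ℕ) : ArithmeticFunction ℕ) n

def Sn (j : ℕ) (n : ℕ) : ℕ := ((zeta ^ j * ArithmeticFunction.id : ArithmeticFunction ℕ)) n

theorem Dn_succ (j n : ℕ) : Dn (j + 1) n = ∑ m ∈ n.divisors, Dn j m := by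
  unfold Dn
  rw [pow_succ', zeta_mul_apply]

theorem Sn_succ (j n : ℕ) : Sn (j + 1) n = ∑ m ∈ n.divisors, Sn j m := by
  unfold Sn
  rw [pow_succ', mul_assoc, zeta_mul_apply]

theorem Dn_zero {n : ℕ} (hn : n ≠ 1) : Dn 0 n = 0 := by
  unfold Dn
  rw [pow_zero, one_apply_ne hn]

theorem Dn_one (j : ℕ) : Dn j 1 = 1 := by
  unfold Dn
  exact (isMultiplicative_zeta.pow (k := j)).1

theorem Sn_zero (n : ℕ) : Sn 0 n = n := by
  unfold Sn
  rw [pow_zero, one_mul, id_apply]

theorem Dn_prime_pow (j p k : ℕ) (hp : p.Prime) : Dn j (p ^ k) = Nat.multichoose j k := by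
  induction j generalizing k with
  | zero =>
    rcases k with _ | k
    · simp [Dn_one]
    · rw [Dn_zero, Nat.multichoose_zero_succ]
      intro h
      have := Nat.pow_eq_one.1 h
      rcases this with h | h
      · exact hp.one_lt.ne' h
      · omega
  | succ j ih =>
    rw [Dn_succ, Nat.sum_divisors_prime_pow hp]
    simp only [ih]
    induction k with
    | zero => simp
    | succ k ihk =>
      rw [Finset.sum_range_succ, ihk, Nat.multichoose_succ_succ, add_comm]

theorem Dn_mult (j : ℕ) : IsMultiplicative (zeta ^ j : ArithmeticFunction ℕ) :=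
  isMultiplicative_zeta.pow

theorem Sn_mult (j : ℕ) : IsMultiplicative (zeta ^ j * ArithmeticFunction.id : ArithmeticFunction ℕ) :=
  (Dn_mult j).mul isMultiplicative_id

theorem Dn_eq_prod (j : ℕ) {n : ℕ} (hn : n ≠ 0) :
    Dn j n = n.factorization.prod fun _ k => Nat.multichoose j k := by
  have h := (Dn_mult j).multiplicative_factorization _ hn
  unfold Dn
  rw [h]
  refine Finsupp.prod_congr fun p hp => ?_
  have hp' : p.Prime := Nat.prime_of_mem_primeFactors (by simpa using hp)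
  exact Dn_prime_pow j p _ hp'

theorem Dn_eq_prod' (j : ℕ) {n : ℕ} (hn : n ≠ 0) {P : Finset ℕ} (hP : n.primeFactors ⊆ P) :
    Dn j n = ∏ p ∈ P, Nat.multichoose j (n.factorization p) := by
  rw [Dn_eq_prod j hn]
  exact Finsupp.prod_of_support_subset _ (by simpa using hP) _ (by simp)

/-- `A t j k = ∑_{i ≤ k} C(j+i-1, i) t^i` -/
noncomputable def A (t : ℝ) (j k : ℕ) : ℝ :=
  ∑ i ∈ Finset.range (k + 1), (Nat.multichoose j i : ℝ) * t ^ i

@[simp] theorem A_zero_right (t : ℝ) (j : ℕ) : A t j 0 = 1 := by simp [A]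

theorem Sn_prime_pow (j p k : ℕ) (hp : p.Prime) :
    (Sn j (p ^ k) : ℝ) = (p : ℝ) ^ k * A (1 / p) j k := by
  have hp0 : (p : ℝ) ≠ 0 := by exact_mod_cast hp.ne_zero
  have h1 : Sn j (p ^ k) = ∑ i ∈ Finset.range (k + 1), Nat.multichoose j i * p ^ (k - i) := by
    unfold Sn
    rw [mul_apply, Nat.sum_divisorsAntidiagonal
      (f := fun x y => (zeta ^ j : ArithmeticFunction ℕ) x * ArithmeticFunction.id y),
      Nat.sum_divisors_prime_pow hp]
    refine Finset.sum_congr rfl fun i hi => ?_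
    have hi' : i ≤ k := by simpa [Nat.lt_succ_iff] using hi
    rw [id_apply, Nat.pow_div hi' hp.pos]
    congr 1
    exact Dn_prime_pow j p i hp
  rw [h1, A, Finset.mul_sum]
  push_cast
  refine Finset.sum_congr rfl fun i hi => ?_
  have hi' : i ≤ k := by simpa [Nat.lt_succ_iff] using hi
  rw [pow_sub₀ _ hp0 hi', one_div, inv_pow]
  ring

theorem Sn_eq_prod' (j : ℕ) {n : ℕ} (hn : n ≠ 0) {P : Finset ℕ} (hP : n.primeFactors ⊆ P) :
    (Sn j n : ℝ) = n * ∏ p ∈ P, A (1 / p) j (n.factorization p) := by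
  have h := (Sn_mult j).multiplicative_factorization _ hn
  have h2 : (Sn j n : ℝ) = ∏ p ∈ n.primeFactors, (Sn j (p ^ n.factorization p) : ℝ) := by
    have : Sn j n = n.factorization.prod fun p k => Sn j (p ^ k) := h
    rw [this, Finsupp.prod]
    push_cast
    rfl
  have h3 : (n : ℝ) = ∏ p ∈ n.primeFactors, (p : ℝ) ^ n.factorization p := by
    conv_lhs => rw [← Nat.prod_factorization_pow_eq_self hn]
    rw [Finsupp.prod]
    push_cast
    rfl
  have h4 : ∏ p ∈ P, A (1 / (p : ℝ)) j (n.factorization p)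
      = ∏ p ∈ n.primeFactors, A (1 / (p : ℝ)) j (n.factorization p) := by
    symm
    refine Finset.prod_subset hP fun p _ hp => ?_
    have : n.factorization p = 0 := by
      rw [← Finsupp.notMem_support_iff]
      simpa using hp
    rw [this, A_zero_right]
  rw [h4, h2]
  conv_rhs => rw [h3]
  rw [← Finset.prod_mul_distrib]
  refine Finset.prod_congr rfl fun p hp => ?_
  exact Sn_prime_pow j p _ (Nat.prime_of_mem_primeFactors hp)

theorem multichoose_le_pow (j k : ℕ) : Nat.multichoose j k ≤ j ^ k := by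
  induction j generalizing k with
  | zero =>
    rcases k with _ | k
    · simp
    · simp
  | succ j ihj =>
    induction k with
    | zero => simp
    | succ k ihk =>
      rw [Nat.multichoose_succ_succ]
      calc Nat.multichoose j (k + 1) + Nat.multichoose (j + 1) k
          ≤ j ^ (k + 1) + (j + 1) ^ k := Nat.add_le_add (ihj _) ihk
        _ ≤ j * (j + 1) ^ k + (j + 1) ^ k := by
          refine Nat.add_le_add ?_ le_rfl
          rw [pow_succ']
          exact Nat.mul_le_mul_left _ (Nat.pow_le_pow_left (Nat.le_succ j) k)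
        _ = (j + 1) ^ (k + 1) := by ring

theorem Dn_le_pow (j : ℕ) {n : ℕ} (hn : n ≠ 0) : Dn j n ≤ j ^ (cardFactors n) := by
  rw [Dn_eq_prod' j hn (le_refl n.primeFactors), cardFactors_eq_sum_factorization, Finsupp.sum]
  rw [← Finset.prod_pow_eq_pow_sum]
  have : n.factorization.support = n.primeFactors := Nat.support_factorization n
  rw [this]
  exact Finset.prod_le_prod' fun p _ => multichoose_le_pow _ _

theorem Sn_le (j : ℕ) (n : ℕ) : Sn j n ≤ n * Dn (j + 1) n := by
  rw [Dn_succ, Finset.mul_sum]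
  unfold Sn
  rw [mul_apply, Nat.sum_divisorsAntidiagonal
      (f := fun x y => (zeta ^ j : ArithmeticFunction ℕ) x * ArithmeticFunction.id y)]
  refine Finset.sum_le_sum fun m _ => ?_
  rw [id_apply, mul_comm]
  exact Nat.mul_le_mul (Nat.div_le_self _ _) le_rfl

noncomputable def w (j n : ℕ) : ℝ := (Dn j n : ℝ) / 2 ^ j

noncomputable def v (j n : ℕ) : ℝ := (Sn j n : ℝ) / n / 2 ^ j

theorem w_nonneg (j n : ℕ) : 0 ≤ w j n := by unfold w; positivity

theorem v_nonneg (j n : ℕ) : 0 ≤ v j n := by unfold v; positivity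

theorem summable_pow_div (k : ℕ) : Summable fun j : ℕ => (((j : ℝ) + 1) ^ k) / 2 ^ j := by
  have h := summable_pow_mul_geometric_of_norm_lt_one k (r := (1 / 2 : ℝ)) (by norm_num)
  have h2 := (summable_nat_add_iff 1).2 h
  have h3 := h2.mul_left 2
  refine h3.congr fun j => ?_
  push_cast
  rw [pow_succ, one_div, inv_pow]
  field_simp

theorem summable_w {n : ℕ} (hn : n ≠ 0) : Summable fun j => w j n := by
  refine Summable.of_nonneg_of_le (fun j => w_nonneg j n) (fun j => ?_)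
    (summable_pow_div (cardFactors n))
  unfold w
  gcongr
  calc (Dn j n : ℝ) ≤ ((j ^ cardFactors n : ℕ) : ℝ) := by exact_mod_cast Dn_le_pow j hn
    _ = (j : ℝ) ^ cardFactors n := by push_cast; rfl
    _ ≤ _ := by gcongr; linarith

theorem summable_Sn {n : ℕ} (hn : n ≠ 0) : Summable fun j => (Sn j n : ℝ) / 2 ^ j := by
  have h := (summable_w hn)
  have h2 := ((summable_nat_add_iff 1).2 h).mul_left (2 * n : ℝ)
  refine Summable.of_nonneg_of_le (fun j => by positivity) (fun j => ?_) h2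
  have h3 : (Sn j n : ℝ) ≤ n * Dn (j + 1) n := by exact_mod_cast Sn_le j n
  unfold w
  rw [pow_succ]
  calc (Sn j n : ℝ) / 2 ^ j ≤ (n * Dn (j + 1) n) / 2 ^ j := by gcongr
    _ = _ := by field_simp

theorem summable_v {n : ℕ} (hn : n ≠ 0) : Summable fun j => v j n := by
  have h := (summable_Sn hn).mul_left (1 / n : ℝ)
  refine h.congr fun j => ?_
  unfold v
  ring

noncomputable def H (n : ℕ) : ℝ := ∑' j, w j n

noncomputable def BB (n : ℕ) : ℝ := ∑' j, v j n

theorem H_one : H 1 = 2 := by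
  unfold H
  have : (fun j => w j 1) = fun j => (1 / 2 : ℝ) ^ j := by
    funext j
    unfold w
    rw [Dn_one]
    simp
  rw [this, tsum_geometric_two]

theorem H_rec {n : ℕ} (hn : 2 ≤ n) : H n = ∑ m ∈ n.properDivisors, H m := by
  have hn0 : n ≠ 0 := by omega
  have h0 : w 0 n = 0 := by
    unfold w; rw [Dn_zero (by omega)]; simp
  have h1 : H n = ∑' j, w (j + 1) n := by
    unfold H
    rw [(summable_w hn0).tsum_eq_zero_add, h0, zero_add]
  have h2 : ∀ j, w (j + 1) n = (1 / 2) * ∑ m ∈ n.divisors, w j m := by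
    intro j
    unfold w
    rw [Dn_succ, Finset.mul_sum]
    push_cast
    rw [Finset.sum_div]
    refine Finset.sum_congr rfl fun m _ => ?_
    rw [pow_succ]; ring
  have h3 : H n = (1 / 2) * ∑ m ∈ n.divisors, H m := by
    rw [h1]
    simp_rw [h2]
    rw [tsum_mul_left]
    congr 1
    unfold H
    rw [Summable.tsum_finsetSum]
    intro m hm
    exact summable_w (Nat.pos_of_mem_divisors hm).ne'
  rw [← Nat.cons_self_properDivisors hn0, Finset.sum_cons] at h3
  linarith

theorem a_eq_H {n : ℕ} (hn : 2 ≤ n) : (a n : ℝ) = H n := by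
  induction n using Nat.strong_induction_on with
  | _ n ih =>
    rw [H_rec hn, a_eq]
    have h1 : (1 : ℕ) ∈ n.properDivisors := by
      rw [Nat.mem_properDivisors]
      exact ⟨one_dvd _, by omega⟩
    rw [← Finset.add_sum_erase _ _ h1, ← Finset.add_sum_erase _ _ h1, H_one, a_one]
    push_cast
    have : ∑ x ∈ n.properDivisors.erase 1, (a x : ℝ) = ∑ x ∈ n.properDivisors.erase 1, H x := by
      refine Finset.sum_congr rfl fun m hm => ?_
      rw [Finset.mem_erase, Nat.mem_properDivisors] at hm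
      have hm0 : 0 < m := Nat.pos_of_dvd_of_pos hm.2.1 (by omega)
      exact ih m hm.2.2 (by omega)
    rw [this]
    ring

theorem BB_mul {n : ℕ} (hn : n ≠ 0) : n * BB n = ∑' j, (Sn j n : ℝ) / 2 ^ j := by
  unfold BB
  rw [← tsum_mul_left]
  congr 1
  funext j
  unfold v
  have : (n : ℝ) ≠ 0 := by exact_mod_cast hn
  field_simp

theorem BB_rec {n : ℕ} (hn : n ≠ 0) :
    n * BB n = 2 * n + ∑ m ∈ n.properDivisors, m * BB m := by
  have h1 : n * BB n = n + ∑' j, (Sn (j + 1) n : ℝ) / 2 ^ (j + 1) := by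
    rw [BB_mul hn, (summable_Sn hn).tsum_eq_zero_add, Sn_zero]
    simp
  have h2 : ∀ j, (Sn (j + 1) n : ℝ) / 2 ^ (j + 1)
      = (1 / 2) * ∑ m ∈ n.divisors, (Sn j m : ℝ) / 2 ^ j := by
    intro j
    rw [Sn_succ, Finset.mul_sum]
    push_cast
    rw [Finset.sum_div]
    refine Finset.sum_congr rfl fun m _ => ?_
    rw [pow_succ]; ring
  have h3 : n * BB n = n + (1 / 2) * ∑ m ∈ n.divisors, m * BB m := by
    rw [h1]
    simp_rw [h2]
    rw [tsum_mul_left]
    congr 2
    rw [Summable.tsum_finsetSum]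
    · refine Finset.sum_congr rfl fun m hm => ?_
      rw [BB_mul (Nat.pos_of_mem_divisors hm).ne']
    · intro m hm
      exact summable_Sn (Nat.pos_of_mem_divisors hm).ne'
  rw [← Nat.cons_self_properDivisors hn, Finset.sum_cons] at h3
  linarith

theorem b_eq_BB {n : ℕ} (hn : n ≠ 0) : 2 * (b n : ℝ) = n * BB n := by
  induction n using Nat.strong_induction_on with
  | _ n ih =>
    rw [BB_rec hn, b_eq]
    push_cast
    rw [mul_add, Finset.mul_sum]
    congr 1
    refine Finset.sum_congr rfl fun m hm => ?_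
    rw [Nat.mem_properDivisors] at hm
    have hm0 : 0 < m := Nat.pos_of_dvd_of_pos hm.1 (by omega)
    exact ih m hm.2 hm0.ne'

/-- champion property for `H` -/
theorem RHC_H {n : ℕ} (h3 : 3 ≤ n) (hn : RecursivelyHighlyComposite n) {m : ℕ} (hm : 0 < m)
    (hmn : m < n) : H m < H n := by
  have h2 : (a 2 : ℝ) = 2 := by
    have : a 2 = 2 := by
      rw [a_eq]
      have : Nat.properDivisors 2 = {1} := by decide
      rw [this]; simp [a_one]
    rw [this]; norm_num
  rw [← a_eq_H (by omega : 2 ≤ n)]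
  rcases Nat.lt_or_ge m 2 with h | h
  · have : m = 1 := by omega
    subst this
    rw [H_one, ← h2]
    exact_mod_cast hn.2 2 (by norm_num) (by omega)
  · rw [← a_eq_H h]
    exact_mod_cast hn.2 m hm hmn

theorem RSA_BB {n : ℕ} (hn : RecursivelySuperAbundant n) {m : ℕ} (hm : 0 < m)
    (hmn : m < n) : BB m < BB n := by
  have h := hn.2 m hm hmn
  have hn0 : n ≠ 0 := hn.1.ne'
  have e1 : BB m = 2 * ((b m : ℝ) / m) := by
    have := b_eq_BB hm.ne'
    have h0 : (m : ℝ) ≠ 0 := by exact_mod_cast hm.ne'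
    field_simp
    linarith
  have e2 : BB n = 2 * ((b n : ℝ) / n) := by
    have := b_eq_BB hn0
    have h0 : (n : ℝ) ≠ 0 := by exact_mod_cast hn0
    field_simp
    linarith
  rw [e1, e2]
  have h' : (((b m : ℚ) / m : ℚ) : ℝ) < (((b n : ℚ) / n : ℚ) : ℝ) := Rat.cast_lt.2 h
  push_cast at h'
  linarith

end Pool.Agent.Lib.MP_9f8414_nt
end

section

/-!
# The mode of `j ↦ 2^{-j} d_j(n)`
-/

namespace Pool.Agent.Lib.MP_9f8414_nt

open ArithmeticFunction Finset

theorem mc_succ_left (j k : ℕ) :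
    (j : ℝ) * Nat.multichoose (j + 1) k = (j + k) * Nat.multichoose j k := by
  rcases j with _ | i
  · rcases k with _ | k
    · simp
    · simp
  · rw [Nat.multichoose_eq, Nat.multichoose_eq]
    have e1 : i + 1 + 1 + k - 1 = (i + k) + 1 := by omega
    have e2 : i + 1 + k - 1 = i + k := by omega
    rw [e1, e2]
    have h := Nat.choose_mul_succ_eq (i + k) k
    have e3 : i + k + 1 - k = i + 1 := by omega
    rw [e3] at h
    have h' : ((i + k).choose k : ℝ) * (i + k + 1) = ((i + k + 1).choose k : ℝ) * (i + 1) := by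
      exact_mod_cast h
    push_cast
    linarith

theorem mc_succ_right (j k : ℕ) :
    ((k : ℝ) + 1) * Nat.multichoose j (k + 1) = (k + j) * Nat.multichoose j k := by
  rcases j with _ | i
  · rcases k with _ | k
    · simp
    · simp
  · rw [Nat.multichoose_eq, Nat.multichoose_eq]
    have e1 : i + 1 + (k + 1) - 1 = (i + k) + 1 := by omega
    have e2 : i + 1 + k - 1 = i + k := by omega
    rw [e1, e2]
    have h := Nat.add_one_mul_choose_eq (i + k) k
    have h' : ((i + k : ℝ) + 1) * ((i + k).choose k : ℝ)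
        = ((i + k + 1).choose (k + 1) : ℝ) * (k + 1) := by
      exact_mod_cast h
    push_cast
    linarith

theorem mc_pos {j : ℕ} (hj : 1 ≤ j) (k : ℕ) : 0 < Nat.multichoose j k := by
  rw [Nat.multichoose_eq]
  exact Nat.choose_pos (by omega)

theorem Dn_pos {j : ℕ} (hj : 1 ≤ j) {n : ℕ} (hn : n ≠ 0) : 0 < Dn j n := by
  rw [Dn_eq_prod' j hn (le_refl _)]
  exact Finset.prod_pos fun p _ => mc_pos hj _

/-- `F_n(x) = ∏_{p ∣ n} (1 + α_p / x)` -/
noncomputable def Fn (n : ℕ) (x : ℝ) : ℝ := ∏ p ∈ n.primeFactors, (1 + (n.factorization p : ℝ) / x)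

theorem Dn_succ_eq {j : ℕ} (hj : 1 ≤ j) {n : ℕ} (hn : n ≠ 0) :
    (Dn (j + 1) n : ℝ) = Fn n j * Dn j n := by
  rw [Dn_eq_prod' (j + 1) hn (le_refl _), Dn_eq_prod' j hn (le_refl _), Fn]
  push_cast
  rw [← Finset.prod_mul_distrib]
  refine Finset.prod_congr rfl fun p _ => ?_
  have hj0 : (j : ℝ) ≠ 0 := by positivity
  have := mc_succ_left j (n.factorization p)
  field_simp
  linarith

theorem w_succ {j : ℕ} (hj : 1 ≤ j) {n : ℕ} (hn : n ≠ 0) :
    w (j + 1) n = Fn n j / 2 * w j n := by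
  unfold w
  rw [Dn_succ_eq hj hn, pow_succ]
  ring

theorem w_pos {j : ℕ} (hj : 1 ≤ j) {n : ℕ} (hn : n ≠ 0) : 0 < w j n := by
  unfold w
  have := Dn_pos hj hn
  positivity

/-! ### Product inequalities -/

theorem prod_scale_le {ι : Type*} (s : Finset ι) (y : ι → ℝ) (hy : ∀ i ∈ s, 0 ≤ y i) {l : ℝ}
    (h0 : 0 ≤ l) (h1 : l ≤ 1) :
    ∏ i ∈ s, (1 + l * y i) ≤ 1 + l * (∏ i ∈ s, (1 + y i) - 1) := by
  classical
  induction s using Finset.induction_on with
  | empty => simp
  | insert i s his ih =>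
    rw [Finset.prod_insert his, Finset.prod_insert his]
    have hyi : 0 ≤ y i := hy i (Finset.mem_insert_self _ _)
    have hys : ∀ i ∈ s, 0 ≤ y i := fun k hk => hy k (Finset.mem_insert_of_mem hk)
    have ih' := ih hys
    have hX : 1 ≤ ∏ i ∈ s, (1 + y i) := by
      calc (1 : ℝ) = ∏ i ∈ s, (1 : ℝ) := by simp
        _ ≤ _ := Finset.prod_le_prod (fun _ _ => by norm_num) (fun k hk => by linarith [hys k hk])
    have hly : 0 ≤ l * y i := mul_nonneg h0 hyi
    calc (1 + l * y i) * ∏ i ∈ s, (1 + l * y i)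
        ≤ (1 + l * y i) * (1 + l * (∏ i ∈ s, (1 + y i) - 1)) :=
          mul_le_mul_of_nonneg_left ih' (by linarith)
      _ ≤ _ := by
        have h3 : 0 ≤ l * y i * (1 - l) * (∏ i ∈ s, (1 + y i) - 1) :=
          mul_nonneg (mul_nonneg hly (by linarith)) (by linarith)
        nlinarith [h3]

theorem prod_scale_ge {ι : Type*} (s : Finset ι) (y : ι → ℝ) (hy : ∀ i ∈ s, 0 ≤ y i) {l : ℝ}
    (h1 : 1 ≤ l) :
    1 + l * (∏ i ∈ s, (1 + y i) - 1) ≤ ∏ i ∈ s, (1 + l * y i) := by
  classical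
  induction s using Finset.induction_on with
  | empty => simp
  | insert i s his ih =>
    rw [Finset.prod_insert his, Finset.prod_insert his]
    have hyi : 0 ≤ y i := hy i (Finset.mem_insert_self _ _)
    have hys : ∀ i ∈ s, 0 ≤ y i := fun k hk => hy k (Finset.mem_insert_of_mem hk)
    have ih' := ih hys
    have hX : 1 ≤ ∏ i ∈ s, (1 + y i) := by
      calc (1 : ℝ) = ∏ i ∈ s, (1 : ℝ) := by simp
        _ ≤ _ := Finset.prod_le_prod (fun _ _ => by norm_num) (fun k hk => by linarith [hys k hk])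
    have hly : 0 ≤ l * y i := mul_nonneg (by linarith) hyi
    calc _ ≤ (1 + l * y i) * (1 + l * (∏ i ∈ s, (1 + y i) - 1)) := by
          have h3 : 0 ≤ l * y i * (l - 1) * (∏ i ∈ s, (1 + y i) - 1) :=
            mul_nonneg (mul_nonneg hly (by linarith)) (by linarith)
          nlinarith [h3]
      _ ≤ (1 + l * y i) * ∏ i ∈ s, (1 + l * y i) :=
          mul_le_mul_of_nonneg_left ih' (by linarith)

theorem prod_rpow_le {ι : Type*} (s : Finset ι) (y : ι → ℝ) (hy : ∀ i ∈ s, 0 ≤ y i) {l : ℝ}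
    (h1 : 1 ≤ l) :
    ∏ i ∈ s, (1 + l * y i) ≤ (∏ i ∈ s, (1 + y i)) ^ l := by
  rw [← Real.finsetProd_rpow s _ (fun i hi => by linarith [hy i hi])]
  refine Finset.prod_le_prod (fun i hi => ?_) (fun i hi => ?_)
  · have := hy i hi
    positivity
  · exact one_add_mul_self_le_rpow_one_add (by linarith [hy i hi]) h1

theorem prod_rpow_ge {ι : Type*} (s : Finset ι) (y : ι → ℝ) (hy : ∀ i ∈ s, 0 ≤ y i) {l : ℝ}
    (h0 : 0 ≤ l) (h1 : l ≤ 1) :
    (∏ i ∈ s, (1 + y i)) ^ l ≤ ∏ i ∈ s, (1 + l * y i) := by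
  rw [← Real.finsetProd_rpow s _ (fun i hi => by linarith [hy i hi])]
  refine Finset.prod_le_prod (fun i hi => ?_) (fun i hi => ?_)
  · have := hy i hi
    positivity
  · exact rpow_one_add_le_one_add_mul_self (by linarith [hy i hi]) h0 h1

/-- `J` is the mode: the largest `j` with `F_n(j) ≥ 2`. -/
def IsMode (n J : ℕ) : Prop := n ≠ 0 ∧ 1 ≤ J ∧ 2 ≤ Fn n J ∧ Fn n ((J : ℝ) + 1) < 2

theorem Fn_scale (n : ℕ) {x y : ℝ} (hx : 0 < x) (hy : 0 < y) :
    Fn n y = ∏ p ∈ n.primeFactors, (1 + (x / y) * ((n.factorization p : ℝ) / x)) := by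
  unfold Fn
  refine Finset.prod_congr rfl fun p _ => ?_
  field_simp

theorem Fn_antitone (n : ℕ) {x y : ℝ} (hx : 0 < x) (hxy : x ≤ y) : Fn n y ≤ Fn n x := by
  unfold Fn
  have hy : 0 < y := lt_of_lt_of_le hx hxy
  refine Finset.prod_le_prod (fun p _ => by positivity) (fun p _ => ?_)
  gcongr

theorem Fn_le_upper {n J : ℕ} (h : IsMode n J) {x : ℝ} (hx : (J : ℝ) + 1 ≤ x) :
    Fn n x ≤ 1 + (J + 1) / x := by
  have hJ : (0 : ℝ) < (J : ℝ) + 1 := by positivity
  have hx0 : 0 < x := lt_of_lt_of_le hJ hx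
  rw [Fn_scale n hJ hx0]
  have hl0 : 0 ≤ ((J : ℝ) + 1) / x := by positivity
  have hl1 : ((J : ℝ) + 1) / x ≤ 1 := (div_le_one hx0).2 hx
  refine (prod_scale_le _ _ (fun p _ => by positivity) hl0 hl1).trans ?_
  have := h.2.2.2
  unfold Fn at this
  nlinarith

theorem Fn_ge_lower {n J : ℕ} (h : IsMode n J) {x : ℝ} (hx0 : 0 < x) (hx : x ≤ J) :
    1 + J / x ≤ Fn n x := by
  have hJ : (0 : ℝ) < (J : ℝ) := by linarith
  rw [Fn_scale n hJ hx0]
  have hl1 : 1 ≤ (J : ℝ) / x := (one_le_div hx0).2 hx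
  refine le_trans ?_ (prod_scale_ge _ _ (fun p _ => by positivity) hl1)
  have := h.2.2.1
  unfold Fn at this
  nlinarith

theorem two_mul_le_two_rpow {l : ℝ} (h1 : l ≤ 1) : 2 * l ≤ (2 : ℝ) ^ l := by
  have e : (2 : ℝ) ^ l = 2 * (2 : ℝ) ^ (l - 1) := by
    rw [Real.rpow_sub_one (by norm_num)]; ring
  rw [e]
  have h2 : l ≤ (2 : ℝ) ^ (l - 1) := by
    rw [Real.rpow_def_of_pos (by norm_num)]
    have h3 := Real.add_one_le_exp (Real.log 2 * (l - 1))
    have h4 : Real.log 2 ≤ 1 := by linarith [Real.log_two_lt_d9]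
    have h5 : 0 ≤ Real.log 2 := Real.log_nonneg (by norm_num)
    nlinarith
  linarith

theorem two_rpow_le_two_mul {l : ℝ} (h1 : 1 ≤ l) (h2 : l ≤ 2) : (2 : ℝ) ^ l ≤ 2 * l := by
  have e : (2 : ℝ) ^ l = 2 * (1 + 1 : ℝ) ^ (l - 1) := by
    have e2 : (1 + 1 : ℝ) = 2 := by norm_num
    rw [e2, Real.rpow_sub_one (by norm_num)]; ring
  rw [e]
  have := rpow_one_add_le_one_add_mul_self (s := (1 : ℝ)) (by norm_num) (p := l - 1) (by linarith)
    (by linarith)
  linarith

theorem Fn_ge_upper {n J : ℕ} (h : IsMode n J) {x : ℝ} (hx : (J : ℝ) ≤ x) :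
    2 * (J / x) ≤ Fn n x := by
  have hJ : (0 : ℝ) < (J : ℝ) := by have := h.2.1; positivity
  have hx0 : 0 < x := lt_of_lt_of_le hJ hx
  rw [Fn_scale n hJ hx0]
  have hl0 : 0 ≤ (J : ℝ) / x := by positivity
  have hl1 : (J : ℝ) / x ≤ 1 := (div_le_one hx0).2 hx
  refine le_trans ?_ (prod_rpow_ge _ _ (fun p _ => by positivity) hl0 hl1)
  refine (two_mul_le_two_rpow hl1).trans ?_
  have := h.2.2.1
  unfold Fn at this
  exact Real.rpow_le_rpow (by norm_num) this hl0

theorem Fn_le_lower {n J : ℕ} (h : IsMode n J) {x : ℝ} (hx0 : ((J : ℝ) + 1) / 2 ≤ x)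
    (hx : x ≤ (J : ℝ) + 1) : Fn n x ≤ 2 * ((J + 1) / x) := by
  have hJ : (0 : ℝ) < (J : ℝ) + 1 := by positivity
  have hx0' : 0 < x := by linarith
  rw [Fn_scale n hJ hx0']
  have hl1 : 1 ≤ ((J : ℝ) + 1) / x := (one_le_div hx0').2 hx
  have hl2 : ((J : ℝ) + 1) / x ≤ 2 := by rw [div_le_iff₀ hx0']; linarith
  refine (prod_rpow_le _ _ (fun p _ => by positivity) hl1).trans ?_
  refine le_trans ?_ (two_rpow_le_two_mul hl1 hl2)
  have := h.2.2.2
  unfold Fn at this
  refine Real.rpow_le_rpow ?_ this.le (by linarith)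
  exact Finset.prod_nonneg fun p _ => by positivity

theorem sum_le_Fn_sub_one (n : ℕ) {x : ℝ} (hx : 0 < x) :
    (∑ p ∈ n.primeFactors, (n.factorization p : ℝ)) / x ≤ Fn n x - 1 := by
  have key : ∀ (s : Finset ℕ) (y : ℕ → ℝ), (∀ i ∈ s, 0 ≤ y i) →
      1 + ∑ i ∈ s, y i ≤ ∏ i ∈ s, (1 + y i) := by
    intro s y hy
    classical
    induction s using Finset.induction_on with
    | empty => simp
    | insert i s his ih =>
      rw [Finset.prod_insert his, Finset.sum_insert his]
      have hyi : 0 ≤ y i := hy i (Finset.mem_insert_self _ _)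
      have hys : ∀ i ∈ s, 0 ≤ y i := fun k hk => hy k (Finset.mem_insert_of_mem hk)
      have ih' := ih hys
      have hs : 0 ≤ ∑ i ∈ s, y i := Finset.sum_nonneg hys
      nlinarith
  have := key n.primeFactors (fun p => (n.factorization p : ℝ) / x) (fun p _ => by positivity)
  unfold Fn
  rw [Finset.sum_div]
  linarith

theorem exists_mode {n : ℕ} (hn : 2 ≤ n) : ∃ J, IsMode n J := by
  classical
  have hn0 : n ≠ 0 := by omega
  have h1 : ∃ j : ℕ, Fn n ((j : ℝ) + 1) < 2 := by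
    -- for large `x` the product is close to one
    have hlim : Filter.Tendsto (fun j : ℕ => Fn n ((j : ℝ) + 1)) Filter.atTop (nhds 1) := by
      unfold Fn
      have h := tendsto_finsetProd (x := Filter.atTop)
        (f := fun p (j : ℕ) => 1 + (n.factorization p : ℝ) / ((j : ℝ) + 1))
        (a := fun _ => (1 : ℝ)) n.primeFactors (fun p _ => by
          have h2 := tendsto_const_div_atTop_nhds_zero_nat (n.factorization p : ℝ)
          have h3 := (Filter.tendsto_add_atTop_iff_nat 1).2 h2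
          have h4 := h3.const_add (1 : ℝ)
          simpa using h4)
      simpa using h
    exact (hlim.eventually (gt_mem_nhds (by norm_num : (1 : ℝ) < 2))).exists
  obtain ⟨j, hj, hmin⟩ : ∃ j : ℕ, Fn n ((j : ℝ) + 1) < 2 ∧ ∀ i < j, ¬ Fn n ((i : ℝ) + 1) < 2 :=
    ⟨Nat.find h1, Nat.find_spec h1, fun i hi => Nat.find_min h1 hi⟩
  have hF1 : 2 ≤ Fn n 1 := by
    obtain ⟨p, hp, hpn⟩ := Nat.exists_prime_and_dvd (by omega : n ≠ 1)
    have hmem : p ∈ n.primeFactors := Nat.mem_primeFactors.2 ⟨hp, hpn, hn0⟩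
    have h2 : (1 : ℝ) ≤ n.factorization p := by
      exact_mod_cast (hp.dvd_iff_one_le_factorization hn0).1 hpn
    have h3 := sum_le_Fn_sub_one n (x := 1) (by norm_num)
    have h4 : (n.factorization p : ℝ) ≤ ∑ p ∈ n.primeFactors, (n.factorization p : ℝ) :=
      Finset.single_le_sum (f := fun p => (n.factorization p : ℝ)) (fun i _ => by positivity) hmem
    rw [div_one] at h3
    linarith
  have hj1 : 1 ≤ j := by
    rcases Nat.eq_zero_or_pos j with h | h
    · subst h
      norm_num at hj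
      linarith
    · exact h
  refine ⟨j, hn0, hj1, ?_, hj⟩
  have := hmin (j - 1) (by omega)
  have e : (((j - 1 : ℕ) : ℝ) + 1) = j := by
    rw [Nat.cast_sub hj1]; simp
  rw [e] at this
  linarith

end Pool.Agent.Lib.MP_9f8414_nt
end
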