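import Mathlib
import Pool.Agent.Lib.MP_9f8414_nt.Mode

section

/-!
# Iterated differences of completely additive functions
-/

namespace Pool.Agent.Lib.MP_9f8414_nt

open Finset

/-- Iterated difference: `fd f 0 m = f m`, `fd f (r+1) m = fd f r m - fd f r (m+1)`. -/
def fd (f : ℕ → ℝ) : ℕ → ℕ → ℝ
  | 0, m => f m
  | r + 1, m => fd f r m - fd f r (m + 1)

/-- Completely additive on the positive integers. -/
def CAdd (f : ℕ → ℝ) : Prop := ∀ x y : ℕ, 0 < x → 0 < y → f (x * y) = f x + f y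

lemma CAdd.one {f : ℕ → ℝ} (hf : CAdd f) : f 1 = 0 := by
  have := hf 1 1 one_pos one_pos
  simp at this
  exact this

lemma CAdd.sub {f g : ℕ → ℝ} (hf : CAdd f) (hg : CAdd g) : CAdd (fun n => f n - g n) := by
  intro x y hx hy
  simp only [hf x y hx hy, hg x y hx hy]
  ring

lemma CAdd.neg {f : ℕ → ℝ} (hf : CAdd f) : CAdd (fun n => - f n) := by
  intro x y hx hy
  simp only [hf x y hx hy]
  ring

lemma fd_zero (f : ℕ → ℝ) (m : ℕ) : fd f 0 m = f m := rfl

lemma fd_succ (f : ℕ → ℝ) (r m : ℕ) : fd f (r + 1) m = fd f r m - fd f r (m + 1) := rfl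

lemma fd_sub (f g : ℕ → ℝ) (r m : ℕ) : fd (fun n => f n - g n) r m = fd f r m - fd g r m := by
  induction r generalizing m with
  | zero => rfl
  | succ r ih => rw [fd_succ, fd_succ, fd_succ, ih, ih]; ring

lemma fd_add (f g : ℕ → ℝ) (r m : ℕ) : fd (fun n => f n + g n) r m = fd f r m + fd g r m := by
  induction r generalizing m with
  | zero => rfl
  | succ r ih => rw [fd_succ, fd_succ, fd_succ, ih, ih]; ring

lemma fd_neg (f : ℕ → ℝ) (r m : ℕ) : fd (fun n => - f n) r m = - fd f r m := by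
  induction r generalizing m with
  | zero => rfl
  | succ r ih => rw [fd_succ, fd_succ, ih, ih]; ring

lemma fd_const (c : ℝ) (r m : ℕ) : fd (fun _ => c) (r + 1) m = 0 := by
  induction r generalizing m with
  | zero => simp [fd]
  | succ r ih => rw [fd_succ, ih, ih]; ring

/-- taking the first difference first -/
lemma fd_succ' (f : ℕ → ℝ) (r m : ℕ) :
    fd f (r + 1) m = fd (fun n => f n - f (n + 1)) r m := by
  induction r generalizing m with
  | zero => rfl
  | succ r ih => rw [fd_succ, ih, ih, fd_succ]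

lemma fd_shift (f : ℕ → ℝ) (r m k : ℕ) : fd (fun n => f (n + k)) r m = fd f r (m + k) := by
  induction r generalizing m with
  | zero => rfl
  | succ r ih => rw [fd_succ, fd_succ, ih, ih]; congr 2; ring

lemma abs_fd_le (f : ℕ → ℝ) (r m : ℕ) (G : ℝ) (h : ∀ i ≤ r, |f (m + i)| ≤ G) :
    |fd f r m| ≤ 2 ^ r * G := by
  induction r generalizing m with
  | zero => simpa [fd] using h 0 le_rfl
  | succ r ih =>
    rw [fd_succ]
    have h1 := ih m (fun i hi => h i (by omega))
    have h2 := ih (m + 1) (fun i hi => by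
      have := h (i + 1) (by omega)
      rwa [show m + (i + 1) = m + 1 + i by ring] at this)
    calc |fd f r m - fd f r (m + 1)| ≤ |fd f r m| + |fd f r (m + 1)| := abs_sub _ _
      _ ≤ 2 ^ r * G + 2 ^ r * G := add_le_add h1 h2
      _ = 2 ^ (r + 1) * G := by ring

/-- Numerator and denominator of the `r`-th multiplicative difference at `m`. -/
def nd : ℕ → ℕ → ℕ × ℕ
  | 0, m => (m, 1)
  | r + 1, m => ((nd r m).1 * (nd r (m + 1)).2, (nd r m).2 * (nd r (m + 1)).1)

lemma nd_pos (r m : ℕ) (hm : 0 < m) : 0 < (nd r m).1 ∧ 0 < (nd r m).2 := by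
  induction r generalizing m with
  | zero => exact ⟨hm, one_pos⟩
  | succ r ih =>
    have h1 := ih m hm
    have h2 := ih (m + 1) (by omega)
    exact ⟨Nat.mul_pos h1.1 h2.2, Nat.mul_pos h1.2 h2.1⟩

lemma fd_eq_nd {f : ℕ → ℝ} (hf : CAdd f) (r m : ℕ) (hm : 0 < m) :
    fd f r m = f (nd r m).1 - f (nd r m).2 := by
  induction r generalizing m with
  | zero => simp [fd, nd, hf.one]
  | succ r ih =>
    have h1 := nd_pos r m hm
    have h2 := nd_pos r (m + 1) (by omega)
    rw [fd_succ, ih m hm, ih (m + 1) (by omega)]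
    simp only [nd]
    rw [hf _ _ h1.1 h2.2, hf _ _ h1.2 h2.1]
    ring

lemma nd_prime_dvd (r m : ℕ) (p : ℕ) (hm : 0 < m) (hp : p.Prime)
    (h : p ∣ (nd r m).1 * (nd r m).2) : p ≤ m + r := by
  induction r generalizing m with
  | zero =>
    simp only [nd, mul_one] at h
    exact (Nat.le_of_dvd hm h).trans (by omega)
  | succ r ih =>
    simp only [nd] at h
    have h' : p ∣ ((nd r m).1 * (nd r m).2) * ((nd r (m + 1)).1 * (nd r (m + 1)).2) := by
      convert h using 1; ring
    rcases (Nat.Prime.dvd_mul hp).1 h' with h1 | h1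
    · exact (ih m hm h1).trans (by omega)
    · exact (ih (m + 1) (by omega) h1).trans (by omega)

open ArithmeticFunction in
lemma nd_cardFactors (r m β : ℕ) (hm : 0 < m) (h : ∀ i ≤ r, cardFactors (m + i) ≤ β) :
    cardFactors (nd r m).1 + cardFactors (nd r m).2 ≤ 2 ^ r * β := by
  induction r generalizing m with
  | zero => simpa [nd] using h 0 le_rfl
  | succ r ih =>
    have p1 := nd_pos r m hm
    have p2 := nd_pos r (m + 1) (by omega)
    have h1 := ih m hm (fun i hi => h i (by omega))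
    have h2 := ih (m + 1) (by omega) (fun i hi => by
      have := h (i + 1) (by omega)
      rwa [show m + (i + 1) = m + 1 + i by ring] at this)
    simp only [nd]
    rw [cardFactors_mul p1.1.ne' p2.2.ne', cardFactors_mul p1.2.ne' p2.1.ne']
    calc _ = (cardFactors (nd r m).1 + cardFactors (nd r m).2)
          + (cardFactors (nd r (m+1)).1 + cardFactors (nd r (m+1)).2) := by ring
      _ ≤ 2 ^ r * β + 2 ^ r * β := add_le_add h1 h2
      _ = 2 ^ (r + 1) * β := by ring

/-! ### The logarithm -/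

/-- Iterated difference on the reals. -/
noncomputable def fdR (f : ℝ → ℝ) : ℕ → ℝ → ℝ
  | 0, x => f x
  | r + 1, x => fdR f r x - fdR f r (x + 1)

lemma fd_eq_fdR (f : ℝ → ℝ) (r m : ℕ) : fd (fun n => f n) r m = fdR f r m := by
  induction r generalizing m with
  | zero => rfl
  | succ r ih =>
    rw [fd_succ, ih, ih]
    simp only [fdR]
    push_cast
    rfl

lemma fdR_inv (r : ℕ) (x : ℝ) (hx : 0 < x) :
    fdR (fun y => y⁻¹) r x = (r.factorial : ℝ) / ∏ i ∈ range (r + 1), (x + i) := by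
  induction r generalizing x with
  | zero => simp [fdR]
  | succ r ih =>
    simp only [fdR]
    rw [ih x hx, ih (x + 1) (by linarith)]
    have hA : ∏ i ∈ range (r + 2), (x + (i : ℝ))
        = (∏ i ∈ range (r + 1), (x + (i : ℝ))) * (x + (r + 1)) := by
      rw [Finset.prod_range_succ]; push_cast; ring
    have hB : ∏ i ∈ range (r + 2), (x + (i : ℝ))
        = (∏ i ∈ range (r + 1), (x + 1 + (i : ℝ))) * x := by
      rw [Finset.prod_range_succ']
      congr 1
      · apply Finset.prod_congr rfl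
        intro i _
        push_cast; ring
      · simp
    have pA : 0 < ∏ i ∈ range (r + 1), (x + (i : ℝ)) :=
      Finset.prod_pos fun i _ => by positivity
    have pB : 0 < ∏ i ∈ range (r + 1), (x + 1 + (i : ℝ)) :=
      Finset.prod_pos fun i _ => by positivity
    have pC : 0 < ∏ i ∈ range (r + 2), (x + (i : ℝ)) :=
      Finset.prod_pos fun i _ => by positivity
    have e1 : (r.factorial : ℝ) / ∏ i ∈ range (r + 1), (x + (i : ℝ))
        = (r.factorial : ℝ) * (x + (r + 1)) / ∏ i ∈ range (r + 2), (x + (i : ℝ)) := by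
      rw [hA]
      have : x + (r + 1) ≠ 0 := by positivity
      field_simp
    have e2 : (r.factorial : ℝ) / ∏ i ∈ range (r + 1), (x + 1 + (i : ℝ))
        = (r.factorial : ℝ) * x / ∏ i ∈ range (r + 2), (x + (i : ℝ)) := by
      rw [hB]
      field_simp
    rw [e1, e2, ← sub_div, Nat.factorial_succ]
    push_cast
    congr 1
    ring

lemma hasDerivAt_fdR_log (r : ℕ) (x : ℝ) (hx : 0 < x) :
    HasDerivAt (fdR Real.log r) (fdR (fun y => y⁻¹) r x) x := by
  induction r generalizing x with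
  | zero => exact Real.hasDerivAt_log hx.ne'
  | succ r ih =>
    have h1 := ih x hx
    have h2 := (ih (x + 1) (by linarith)).comp_add_const x 1
    exact h1.sub h2

lemma fdR_log_eq (r : ℕ) (x : ℝ) (hx : 0 < x) : ∃ ξ, x < ξ ∧ ξ < x + 1 ∧
    fdR Real.log (r + 1) x = - ((r.factorial : ℝ) / ∏ i ∈ range (r + 1), (ξ + i)) := by
  have hcont : ContinuousOn (fdR Real.log r) (Set.Icc x (x + 1)) := fun y hy =>
    (hasDerivAt_fdR_log r y (lt_of_lt_of_le hx hy.1)).continuousAt.continuousWithinAt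
  obtain ⟨ξ, hξ, h⟩ := exists_hasDerivAt_eq_slope (fdR Real.log r)
    (fun y => fdR (fun z => z⁻¹) r y) (by linarith : x < x + 1) hcont
    (fun y hy => hasDerivAt_fdR_log r y (hx.trans hy.1))
  refine ⟨ξ, hξ.1, hξ.2, ?_⟩
  rw [fdR_inv r ξ (hx.trans hξ.1)] at h
  simp only [fdR]
  rw [h]
  field_simp
  ring

lemma fd_log_bounds (r m : ℕ) (hm : 0 < m) :
    fd (fun n => Real.log n) (r + 1) m ≤ - ((r.factorial : ℝ) / ((m : ℝ) + r + 1) ^ (r + 1)) ∧
    - ((r.factorial : ℝ) / (m : ℝ) ^ (r + 1)) ≤ fd (fun n => Real.log n) (r + 1) m := by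
  rw [fd_eq_fdR]
  have hm' : (0 : ℝ) < m := by exact_mod_cast hm
  obtain ⟨ξ, h1, h2, h3⟩ := fdR_log_eq r m hm'
  rw [h3]
  have hξ : 0 < ξ := hm'.trans h1
  have pP : 0 < ∏ i ∈ range (r + 1), (ξ + (i : ℝ)) :=
    Finset.prod_pos fun i _ => by positivity
  have hup : ∏ i ∈ range (r + 1), (ξ + (i : ℝ)) ≤ ((m : ℝ) + r + 1) ^ (r + 1) := by
    calc ∏ i ∈ range (r + 1), (ξ + (i : ℝ)) ≤ ∏ i ∈ range (r + 1), ((m : ℝ) + r + 1) := by
          apply Finset.prod_le_prod
          · intro i _; positivity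
          · intro i hi
            have : (i : ℝ) ≤ r := by
              exact_mod_cast Nat.lt_succ_iff.1 (Finset.mem_range.1 hi)
            linarith
      _ = _ := by rw [Finset.prod_const, Finset.card_range]
  have hlo : (m : ℝ) ^ (r + 1) ≤ ∏ i ∈ range (r + 1), (ξ + (i : ℝ)) := by
    calc (m : ℝ) ^ (r + 1) = ∏ i ∈ range (r + 1), (m : ℝ) := by
          rw [Finset.prod_const, Finset.card_range]
      _ ≤ _ := by
          apply Finset.prod_le_prod
          · intro i _; positivity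
          · intro i _
            have : (0 : ℝ) ≤ i := Nat.cast_nonneg i
            linarith
  have hf : (0 : ℝ) < r.factorial := by exact_mod_cast Nat.factorial_pos r
  constructor
  · apply neg_le_neg
    exact div_le_div_of_nonneg_left hf.le pP hup
  · apply neg_le_neg
    exact div_le_div_of_nonneg_left hf.le (by positivity) hlo

/-! ### Refinement -/

lemma fd_double (f : ℕ → ℝ) (r m : ℕ) (κ : ℝ)
    (h : ∀ N, 2 * m ≤ N → N ≤ 2 * m + r → fd f r N ≤ κ) :
    fd (fun n => f (2 * n)) r m ≤ 2 ^ r * κ := by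
  induction r generalizing f m with
  | zero => simpa [fd] using h (2 * m) le_rfl (by omega)
  | succ r ih =>
    rw [fd_succ']
    have e : (fun n => f (2 * n) - f (2 * (n + 1)))
        = fun n => (fun k => f k - f (k + 1)) (2 * n) + (fun k => f (k + 1) - f (k + 1 + 1)) (2 * n) := by
      funext n
      simp only
      rw [show 2 * (n + 1) = 2 * n + 1 + 1 by ring]
      ring
    rw [e, fd_add (fun n => (fun k => f k - f (k + 1)) (2 * n))
      (fun n => (fun k => f (k + 1) - f (k + 1 + 1)) (2 * n))]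
    have h1 := ih (fun k => f k - f (k + 1)) m (fun N hN1 hN2 => by
      rw [← fd_succ']
      exact h N hN1 (by omega))
    have h2 := ih (fun k => f (k + 1) - f (k + 1 + 1)) m (fun N hN1 hN2 => by
      have := fd_shift (fun k => f k - f (k + 1)) r N 1
      rw [this, ← fd_succ']
      exact h (N + 1) (by omega) (by omega))
    calc _ ≤ 2 ^ r * κ + 2 ^ r * κ := add_le_add h1 h2
      _ = 2 ^ (r + 1) * κ := by ring

lemma fd_double_eq {f : ℕ → ℝ} (hf : CAdd f) (r m : ℕ) (hm : 0 < m) :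
    fd (fun n => f (2 * n)) (r + 1) m = fd f (r + 1) m := by
  have : ∀ r m, 0 < m → fd (fun n => f (2 * n)) r m = fd (fun n => f 2 + f n) r m := by
    intro r
    induction r with
    | zero =>
      intro m hm
      simp only [fd]
      exact hf 2 m (by norm_num) hm
    | succ r ih =>
      intro m hm
      rw [fd_succ, fd_succ, ih m hm, ih (m + 1) (by omega)]
  rw [this (r + 1) m hm, fd_add (fun _ => f 2) f, fd_const]
  ring

lemma fd_refine {f : ℕ → ℝ} (hf : CAdd f) (r t m : ℕ) (hm : 0 < m) (κ : ℝ)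
    (h : ∀ N, 2 ^ t * m ≤ N → N ≤ 2 ^ t * m + (r + 1) * (2 ^ t - 1) → fd f (r + 1) N ≤ κ) :
    fd f (r + 1) m ≤ 2 ^ ((r + 1) * t) * κ := by
  induction t generalizing m with
  | zero => simpa using h m (by simp) (by simp)
  | succ t ih =>
    rw [← fd_double_eq hf r m hm]
    have h1 := fd_double f (r + 1) m (2 ^ ((r + 1) * t) * κ) (fun N hN1 hN2 => by
      apply ih N (by omega)
      intro N' h1 h2
      apply h N'
      · calc 2 ^ (t + 1) * m = 2 ^ t * (2 * m) := by ring
          _ ≤ 2 ^ t * N := Nat.mul_le_mul_left _ hN1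
          _ ≤ N' := h1
      · obtain ⟨P, hP⟩ : ∃ P, 2 ^ t = P + 1 := ⟨2 ^ t - 1, by
          have : 1 ≤ 2 ^ t := Nat.one_le_two_pow
          omega⟩
        have hP2 : 2 ^ (t + 1) = 2 * P + 2 := by rw [pow_succ, hP]; ring
        rw [hP] at h1 h2
        rw [hP2]
        have e1 : 2 * P + 2 - 1 = 2 * P + 1 := by omega
        have e2 : P + 1 - 1 = P := by omega
        rw [e1]
        rw [e2] at h2
        calc N' ≤ (P + 1) * N + (r + 1) * P := h2
          _ ≤ (P + 1) * (2 * m + (r + 1)) + (r + 1) * P :=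
              Nat.add_le_add_right (Nat.mul_le_mul_left _ hN2) _
          _ = (2 * P + 2) * m + (r + 1) * (2 * P + 1) := by ring)
    calc fd (fun n => f (2 * n)) (r + 1) m ≤ 2 ^ (r + 1) * (2 ^ ((r + 1) * t) * κ) := h1
      _ = 2 ^ ((r + 1) * (t + 1)) * κ := by rw [Nat.mul_add, mul_one, pow_add]; ring

end Pool.Agent.Lib.MP_9f8414_nt
end

section

/-!
# Alternating sums of completely additive functions
-/

namespace Pool.Agent.Lib.MP_9f8414_nt

open Finset

lemma alt_sub (h : ℕ → ℝ) {a b : ℕ} (hab : a ≤ b) :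
    ∑ m ∈ Ico a b, (-1 : ℝ) ^ m * (h m - h (m + 1))
      = 2 * ∑ m ∈ Ico a b, (-1 : ℝ) ^ m * h m - (-1) ^ a * h a + (-1) ^ b * h b := by
  induction b, hab using Nat.le_induction with
  | base => simp
  | succ b hab ih =>
    rw [Finset.sum_Ico_succ_top hab, Finset.sum_Ico_succ_top hab, ih]
    rw [pow_succ]
    ring

lemma alt_fd (g : ℕ → ℝ) (r : ℕ) {a b : ℕ} (hab : a ≤ b) (G : ℝ)
    (h : ∀ N, a ≤ N → N ≤ b + r → |g N| ≤ G) :
    |∑ m ∈ Ico a b, (-1 : ℝ) ^ m * fd g r m - 2 ^ r * ∑ m ∈ Ico a b, (-1 : ℝ) ^ m * g m|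
      ≤ r * 2 ^ r * G := by
  induction r with
  | zero => simp [fd]
  | succ r ih =>
    have ih' := ih (fun N h1 h2 => h N h1 (by omega))
    have e : ∑ m ∈ Ico a b, (-1 : ℝ) ^ m * fd g (r + 1) m
        = ∑ m ∈ Ico a b, (-1 : ℝ) ^ m * (fd g r m - fd g r (m + 1)) := by
      apply Finset.sum_congr rfl
      intro m _
      rw [fd_succ]
    rw [e, alt_sub (fd g r) hab]
    have ha := abs_fd_le g r a G (fun i hi => h (a + i) (by omega) (by omega))
    have hb := abs_fd_le g r b G (fun i hi => h (b + i) (by omega) (by omega))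
    have ha' : |(-1 : ℝ) ^ a * fd g r a| ≤ 2 ^ r * G := by
      rw [abs_mul, abs_pow, abs_neg, abs_one, one_pow, one_mul]; exact ha
    have hb' : |(-1 : ℝ) ^ b * fd g r b| ≤ 2 ^ r * G := by
      rw [abs_mul, abs_pow, abs_neg, abs_one, one_pow, one_mul]; exact hb
    set A := ∑ m ∈ Ico a b, (-1 : ℝ) ^ m * fd g r m
    set B := ∑ m ∈ Ico a b, (-1 : ℝ) ^ m * g m
    set u := (-1 : ℝ) ^ a * fd g r a
    set v := (-1 : ℝ) ^ b * fd g r b
    rw [abs_le] at ih' ha' hb' ⊢
    push_cast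
    have e2 : (2 : ℝ) ^ (r + 1) = 2 * 2 ^ r := by ring
    rw [e2]
    constructor <;> nlinarith [ih'.1, ih'.2, ha'.1, ha'.2, hb'.1, hb'.2]

lemma alt_centralBinom {g : ℕ → ℝ} (hg : CAdd g) (n : ℕ) :
    ∑ N ∈ Ico 1 (2 * n + 1), (-1 : ℝ) ^ N * g N = 2 * n * g 2 - g (Nat.centralBinom n) := by
  induction n with
  | zero => simp [hg.one]
  | succ n ih =>
    rw [show 2 * (n + 1) + 1 = 2 * n + 1 + 1 + 1 by ring,
      Finset.sum_Ico_succ_top (by omega), Finset.sum_Ico_succ_top (by omega), ih]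
    have h1 := Nat.succ_mul_centralBinom_succ n
    have hc : 0 < Nat.centralBinom n := Nat.centralBinom_pos n
    have hc' : 0 < Nat.centralBinom (n + 1) := Nat.centralBinom_pos (n + 1)
    have h2 : g (n + 1) + g (Nat.centralBinom (n + 1))
        = g 2 + g (2 * n + 1) + g (Nat.centralBinom n) := by
      rw [← hg _ _ (by omega) hc', h1, hg _ _ (by omega) hc, hg _ _ (by norm_num) (by omega)]
    have h3 : g (2 * n + 1 + 1) = g 2 + g (n + 1) := by
      rw [← hg _ _ (by norm_num) (by omega)]; congr 1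
    have e1 : (-1 : ℝ) ^ (2 * n + 1) = -1 := by
      rw [pow_succ, pow_mul]; norm_num
    have e2 : (-1 : ℝ) ^ (2 * n + 1 + 1) = 1 := by
      rw [pow_succ, e1]; norm_num
    rw [e1, e2, h3]
    push_cast
    linarith

lemma alt_dyadic {g : ℕ → ℝ} (hg : CAdd g) (a : ℕ) :
    ∑ N ∈ Ico (2 * a + 1) (2 * (2 * a) + 1), (-1 : ℝ) ^ N * g N
      = 2 * a * g 2 + g (Nat.centralBinom a) - g (Nat.centralBinom (2 * a)) := by
  have h1 := alt_centralBinom hg a
  have h2 := alt_centralBinom hg (2 * a)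
  have h3 := Finset.sum_Ico_consecutive (fun N => (-1 : ℝ) ^ N * g N)
    (show 1 ≤ 2 * a + 1 by omega) (show 2 * a + 1 ≤ 2 * (2 * a) + 1 by omega)
  rw [h1, h2] at h3
  push_cast at h3
  linarith

open ArithmeticFunction in
lemma CAdd.bounds {g : ℕ → ℝ} (hg : CAdd g) {Φ : ℝ} (hΦ : 0 < Φ) {Y : ℕ}
    (hp : ∀ p : ℕ, p.Prime → p ≤ Y → Φ ≤ g p ∧ g p ≤ 3 * Φ) (x : ℕ) (hx : 0 < x)
    (hY : ∀ p : ℕ, p.Prime → p ∣ x → p ≤ Y) :
    0 ≤ g x ∧ g x ≤ 3 * Φ * cardFactors x := by
  induction x using Nat.recOnMul with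
  | zero => omega
  | one => simp [hg.one]
  | prime p hpp =>
    have := hp p hpp (hY p hpp (dvd_refl p))
    rw [cardFactors_apply_prime hpp]
    constructor
    · linarith [this.1]
    · simpa using this.2
  | mul a b iha ihb =>
    have ha : 0 < a := Nat.pos_of_mul_pos_right hx
    have hb : 0 < b := Nat.pos_of_mul_pos_left hx
    have h1 := iha ha (fun p hp1 hp2 => hY p hp1 (hp2.mul_right b))
    have h2 := ihb hb (fun p hp1 hp2 => hY p hp1 (hp2.mul_left a))
    rw [hg a b ha hb, cardFactors_mul ha.ne' hb.ne']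
    push_cast
    constructor
    · linarith [h1.1, h2.1]
    · linarith [h1.2, h2.2]

open ArithmeticFunction in
lemma cardFactors_le_log (x : ℕ) (hx : 0 < x) : cardFactors x ≤ Nat.log 2 x := by
  apply (Nat.le_log_iff_pow_le (by norm_num) hx.ne').2
  rw [cardFactors_apply]
  calc 2 ^ x.primeFactorsList.length ≤ x.primeFactorsList.prod := by
        apply List.pow_card_le_prod
        intro p hp
        exact (Nat.prime_of_mem_primeFactorsList hp).two_le
    _ = x := Nat.prod_primeFactorsList hx.ne'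

open ArithmeticFunction in
lemma cardFactors_centralBinom_le (n : ℕ) (hn : 0 < n) :
    cardFactors (Nat.centralBinom n)
      ≤ Nat.primeCounting (2 * n) + Nat.sqrt (2 * n) * Nat.log 2 (2 * n) := by
  rw [cardFactors_eq_sum_factorization, Finsupp.sum]
  have hsub : (Nat.centralBinom n).factorization.support ⊆ Nat.primesLE (2 * n) := by
    intro p hp
    rw [Nat.mem_primesLE]
    rw [Nat.support_factorization, Nat.mem_primeFactors] at hp
    refine ⟨?_, hp.1⟩
    by_contra hlt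
    push Not at hlt
    have := Nat.factorization_centralBinom_eq_zero_of_two_mul_lt hlt
    have h2 := (Nat.Prime.factorization_pos_of_dvd hp.1 hp.2.2 hp.2.1)
    omega
  calc ∑ p ∈ (Nat.centralBinom n).factorization.support, (Nat.centralBinom n).factorization p
      ≤ ∑ p ∈ Nat.primesLE (2 * n), (Nat.centralBinom n).factorization p :=
        Finset.sum_le_sum_of_subset hsub
    _ ≤ ∑ p ∈ Nat.primesLE (2 * n),
        (1 + if p ≤ Nat.sqrt (2 * n) then Nat.log 2 (2 * n) else 0) := by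
        apply Finset.sum_le_sum
        intro p hp
        rw [Nat.mem_primesLE] at hp
        split_ifs with h
        · have h1 : (Nat.centralBinom n).factorization p ≤ Nat.log p (2 * n) :=
            Nat.factorization_choose_le_log
          have h2 : Nat.log p (2 * n) ≤ Nat.log 2 (2 * n) :=
            Nat.log_anti_left (by norm_num) hp.2.two_le
          omega
        · have h1 : (Nat.centralBinom n).factorization p ≤ 1 := by
            apply Nat.factorization_choose_le_one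
            have : Nat.sqrt (2 * n) < p := by omega
            rw [Nat.sqrt_lt'] at this
            exact this
          omega
    _ = Nat.primeCounting (2 * n)
        + ∑ p ∈ Nat.primesLE (2 * n), (if p ≤ Nat.sqrt (2 * n) then Nat.log 2 (2 * n) else 0) := by
        rw [Finset.sum_add_distrib, Finset.sum_const, smul_eq_mul, mul_one,
          Nat.primesLE_card_eq_primeCounting]
    _ ≤ _ := by
        apply Nat.add_le_add_left
        rw [← Finset.sum_filter, Finset.sum_const, smul_eq_mul]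
        apply Nat.mul_le_mul_right
        calc _ ≤ (Finset.Icc 1 (Nat.sqrt (2 * n))).card := by
              apply Finset.card_le_card
              intro p hp
              rw [Finset.mem_filter, Nat.mem_primesLE] at hp
              rw [Finset.mem_Icc]
              exact ⟨hp.1.2.one_lt.le, hp.2⟩
          _ = _ := by simp

end Pool.Agent.Lib.MP_9f8414_nt
end

section

/-!
# Two almost monotone completely additive functions cannot differ much
-/

namespace Pool.Agent.Lib.MP_9f8414_nt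

open Finset Filter Topology ArithmeticFunction

lemma tendsto_aux :
    Tendsto (fun x : ℝ => Real.log 4 / Real.log (√x) + 1 / √x + Real.log x / √x / Real.log 2)
      atTop (𝓝 0) := by
  have hs : Tendsto (fun x : ℝ => √x) atTop atTop := Real.tendsto_sqrt_atTop
  have h1 : Tendsto (fun x : ℝ => Real.log 4 / Real.log (√x)) atTop (𝓝 0) :=
    tendsto_const_nhds.div_atTop (Real.tendsto_log_atTop.comp hs)
  have h2 : Tendsto (fun x : ℝ => 1 / √x) atTop (𝓝 0) := tendsto_const_nhds.div_atTop hs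
  have h3 : Tendsto (fun x : ℝ => Real.log x / √x) atTop (𝓝 0) := by
    have := (isLittleO_log_rpow_atTop (r := 1 / 2) (by norm_num)).tendsto_div_nhds_zero
    refine this.congr ?_
    intro x
    rw [Real.sqrt_eq_rpow]
  have h4 := (h1.add h2).add (h3.div_const (Real.log 2))
  simpa using h4

lemma cardFactors_centralBinom_eventually (ε : ℝ) (hε : 0 < ε) :
    ∀ᶠ n : ℕ in atTop, (cardFactors (Nat.centralBinom n) : ℝ) ≤ ε * n := by
  have hx : Tendsto (fun n : ℕ => (2 * (n : ℝ))) atTop atTop :=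
    (tendsto_natCast_atTop_atTop).const_mul_atTop (by norm_num)
  have h := (tendsto_aux.comp hx).eventually (gt_mem_nhds (half_pos hε))
  filter_upwards [h, eventually_ge_atTop 1] with n hn hn1
  have hn1' : (1 : ℝ) ≤ n := by exact_mod_cast hn1
  simp only [Function.comp] at hn
  have hb := cardFactors_centralBinom_le n hn1
  have hb' : (cardFactors (Nat.centralBinom n) : ℝ)
      ≤ (Nat.primeCounting (2 * n) : ℝ) + (Nat.sqrt (2 * n) : ℝ) * (Nat.log 2 (2 * n) : ℝ) := by
    exact_mod_cast hb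
  set x : ℝ := 2 * (n : ℝ) with hxdef
  have hx2 : 2 ≤ x := by linarith
  have hpi : (Nat.primeCounting (2 * n) : ℝ) ≤ Real.log 4 * x / Real.log (√x) + √x := by
    have := Chebyshev.pi_le_log4_mul_div (x := x) (by linarith)
    have e : ⌊x⌋₊ = 2 * n := by
      rw [hxdef]
      have : (2 * (n : ℝ)) = ((2 * n : ℕ) : ℝ) := by push_cast; ring
      rw [this, Nat.floor_natCast]
    rwa [e] at this
  have hsq : (Nat.sqrt (2 * n) : ℝ) ≤ √x := by
    have : x = ((2 * n : ℕ) : ℝ) := by push_cast; ring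
    rw [this]
    exact Real.nat_sqrt_le_real_sqrt
  have hlog : (Nat.log 2 (2 * n) : ℝ) ≤ Real.log x / Real.log 2 := by
    have h1 := Real.natLog_le_logb (2 * n) 2
    have : x = ((2 * n : ℕ) : ℝ) := by push_cast; ring
    rw [this]
    simpa [Real.logb] using h1
  have hsx : 0 < √x := Real.sqrt_pos.2 (by linarith)
  have hmul : (Nat.sqrt (2 * n) : ℝ) * (Nat.log 2 (2 * n) : ℝ) ≤ √x * (Real.log x / Real.log 2) :=
    mul_le_mul hsq hlog (Nat.cast_nonneg _) hsx.le
  have hxx : x = √x * √x := (Real.mul_self_sqrt (by linarith)).symm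
  have key : Real.log 4 * x / Real.log (√x) + √x + √x * (Real.log x / Real.log 2)
      = x * (Real.log 4 / Real.log (√x) + 1 / √x + Real.log x / √x / Real.log 2) := by
    have e1 : x * (1 / √x) = √x := by
      nth_rewrite 1 [hxx]; field_simp
    have e2 : x * (Real.log x / √x / Real.log 2) = √x * (Real.log x / Real.log 2) := by
      nth_rewrite 1 [hxx]; field_simp
    rw [mul_add, mul_add, e1, e2]
    ring
  calc (cardFactors (Nat.centralBinom n) : ℝ)
      ≤ Real.log 4 * x / Real.log (√x) + √x + √x * (Real.log x / Real.log 2) := by linarith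
    _ = x * (Real.log 4 / Real.log (√x) + 1 / √x + Real.log x / √x / Real.log 2) := key
    _ ≤ x * (ε / 2) := mul_le_mul_of_nonneg_left hn.le (by linarith)
    _ = ε * n := by rw [hxdef]; ring

lemma cadd_log : CAdd (fun n => Real.log n) := by
  intro x y hx hy
  have hx' : (x : ℝ) ≠ 0 := by exact_mod_cast hx.ne'
  have hy' : (y : ℝ) ≠ 0 := by exact_mod_cast hy.ne'
  simp only [Nat.cast_mul]
  exact Real.log_mul hx' hy'

lemma lt_of_log_sub_neg {x y : ℕ} (hx : 0 < x) (hy : 0 < y)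
    (h : Real.log x - Real.log y < 0) : x < y := by
  have hx' : (0 : ℝ) < x := by exact_mod_cast hx
  have hy' : (0 : ℝ) < y := by exact_mod_cast hy
  have : Real.log x < Real.log y := by linarith
  exact_mod_cast (Real.log_lt_log_iff hx' hy').1 this

set_option maxHeartbeats 1000000 in
/-- Main abstract theorem. -/
theorem almost_monotone (k : ℕ) : ∃ T0 : ℕ, ∀ t ≥ T0, ∀ (f g : ℕ → ℝ) (Φ Q F : ℝ),
    CAdd f → CAdd g → 0 < Φ →
    (∀ p : ℕ, p.Prime → p ≤ (2 * k + 5) * 2 ^ t → Φ ≤ g p ∧ g p ≤ 3 * Φ) →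
    (∀ x y : ℕ, 0 < x → x < y → (∀ p : ℕ, p.Prime → p ∣ x * y → p ≤ (2 * k + 5) * 2 ^ t) →
      cardFactors x ≤ 2 ^ (k + 3) * (t + 2 * k + 5) →
      cardFactors y ≤ 2 ^ (k + 3) * (t + 2 * k + 5) →
      f x ≤ f y + Q ∧ f x - g x ≤ f y - g y + Q) →
    |fd f (k + 1) 1| ≤ F → |fd (fun n => f n - g n) (k + 1) 1| ≤ F →
    Φ ≤ 2 * Q + F / 2 ^ ((k + 1) * t) := by
  -- choice of `T0`
  have hpow : Tendsto (fun t : ℕ => (2 : ℕ) ^ t) atTop atTop := tendsto_pow_atTop_atTop_of_one_lt (by norm_num)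
  have hev1 : ∀ᶠ t : ℕ in atTop,
      (cardFactors (Nat.centralBinom (2 ^ t)) : ℝ) ≤ 1 / 12 * (2 ^ t : ℕ) :=
    hpow.eventually (cardFactors_centralBinom_eventually (1 / 12) (by norm_num))
  have hev2 : ∀ᶠ t : ℕ in atTop, (k + 1) * (2 * k + 3) ^ (k + 1) < 2 ^ t :=
    hpow.eventually (eventually_gt_atTop _)
  have hev3 : ∀ᶠ t : ℕ in atTop,
      ((k + 2 : ℕ) : ℝ) * (3 * ((t + 2 * k + 5 : ℕ) : ℝ)) ≤ 1 / 4 * (2 ^ t : ℕ) := by
    have h1 : Tendsto (fun t : ℕ => ((t : ℝ) ^ 1) * (1 / 2 : ℝ) ^ t) atTop (𝓝 0) :=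
      tendsto_pow_const_mul_const_pow_of_abs_lt_one 1 (by rw [abs_of_pos] <;> norm_num)
    have h2 : Tendsto (fun t : ℕ => (1 / 2 : ℝ) ^ t) atTop (𝓝 0) :=
      tendsto_pow_atTop_nhds_zero_of_lt_one (by norm_num) (by norm_num)
    have h3 : Tendsto (fun t : ℕ => ((k + 2 : ℕ) : ℝ) * 3 * (((t : ℝ) ^ 1) * (1 / 2 : ℝ) ^ t)
        + ((k + 2 : ℕ) : ℝ) * 3 * (2 * k + 5) * (1 / 2 : ℝ) ^ t) atTop (𝓝 0) := by
      have := (h1.const_mul (((k + 2 : ℕ) : ℝ) * 3)).add
        (h2.const_mul (((k + 2 : ℕ) : ℝ) * 3 * (2 * k + 5)))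
      simpa using this
    have h4 := h3.eventually (gt_mem_nhds (show (0 : ℝ) < 1 / 4 by norm_num))
    filter_upwards [h4] with t ht
    have hp : (0 : ℝ) < 2 ^ t := by positivity
    have e : (1 / 2 : ℝ) ^ t = 1 / 2 ^ t := by rw [one_div, inv_pow, one_div]
    rw [e] at ht
    have e2 : ((k + 2 : ℕ) : ℝ) * 3 * (((t : ℝ) ^ 1) * (1 / 2 ^ t))
        + ((k + 2 : ℕ) : ℝ) * 3 * (2 * k + 5) * (1 / 2 ^ t)
        = (((k + 2 : ℕ) : ℝ) * (3 * ((t + 2 * k + 5 : ℕ) : ℝ))) / 2 ^ t := by
      push_cast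
      ring
    rw [e2, div_lt_iff₀ hp] at ht
    push_cast at ht ⊢
    linarith
  obtain ⟨T0, hT0⟩ := eventually_atTop.1 ((hev1.and hev2).and (hev3.and (eventually_ge_atTop 1)))
  refine ⟨T0, ?_⟩
  intro t ht f g Φ Q F hf hg hΦ hgp hmono hF1 hF2
  obtain ⟨⟨hE1, hE2⟩, hE3, ht1⟩ := hT0 t ht
  set M := 2 ^ t with hM
  have hMpos : 0 < M := by positivity
  have hMR : (0 : ℝ) < (M : ℝ) := by exact_mod_cast hMpos
  set β := t + 2 * k + 5 with hβ
  set Y := (2 * k + 5) * M with hY
  -- integers up to `Y` have few prime factors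
  have hΩ : ∀ N : ℕ, 0 < N → N ≤ Y → cardFactors N ≤ β := by
    intro N hN hNY
    refine (cardFactors_le_log N hN).trans ?_
    have h1 : Nat.log 2 N ≤ Nat.log 2 Y := Nat.log_mono_right hNY
    refine h1.trans (Nat.le_of_lt (Nat.log_lt_of_lt_pow (by positivity) ?_))
    have h2 : 2 * k + 5 < 2 ^ (2 * k + 5) := Nat.lt_two_pow_self
    calc Y = (2 * k + 5) * 2 ^ t := rfl
      _ < 2 ^ (2 * k + 5) * 2 ^ t := Nat.mul_lt_mul_of_pos_right h2 hMpos
      _ = 2 ^ (t + 2 * k + 5) := by rw [← pow_add]; congr 1; ring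
  set η := 2 * Q + F / 2 ^ ((k + 1) * t) with hη
  set f' : ℕ → ℝ := fun n => f n - g n with hf'
  have hf'add : CAdd f' := hf.sub hg
  have hPw : (0 : ℝ) < 2 ^ ((k + 1) * t) := by positivity
  -- Step 1: the bound for `fd g (k+2)` on `[M+1, 2M]`
  have hstep : ∀ m', M + 1 ≤ m' → m' ≤ 2 * M → |fd g (k + 2) m'| ≤ η := by
    intro m' hm1 hm2
    have hm'pos : 0 < m' := by omega
    obtain ⟨hXw, hYw⟩ := nd_pos (k + 2) m' hm'pos
    set Xw := (nd (k + 2) m').1
    set Yw := (nd (k + 2) m').2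
    have hm'bd : m' + (k + 2) ≤ Y := by
      have : (2 * k + 5) * M = 2 * M + (2 * k + 3) * M := by ring
      have h2 : k + 2 ≤ (2 * k + 3) * M := by nlinarith
      omega
    have hΩw : cardFactors Xw + cardFactors Yw ≤ 2 ^ (k + 2) * β :=
      nd_cardFactors (k + 2) m' β hm'pos (fun i hi => hΩ _ (by omega) (by omega))
    have hlogw : Real.log Xw - Real.log Yw = fd (fun n => Real.log n) (k + 2) m' :=
      (fd_eq_nd cadd_log (k + 2) m' hm'pos).symm
    obtain ⟨hlw1, hlw2⟩ := fd_log_bounds (k + 1) m' hm'pos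
    have hlwneg : fd (fun n => Real.log n) (k + 2) m' < 0 := by
      refine lt_of_le_of_lt hlw1 ?_
      have : (0 : ℝ) < ((k + 1).factorial : ℝ) := by exact_mod_cast Nat.factorial_pos _
      have h2 : (0 : ℝ) < ((k + 1).factorial : ℝ) / ((m' : ℝ) + (k + 1 : ℕ) + 1) ^ (k + 1 + 1) := by
        positivity
      linarith
    have hXY : Xw < Yw := lt_of_log_sub_neg hXw hYw (by rw [hlogw]; exact hlwneg)
    have hprimew : ∀ p : ℕ, p.Prime → p ∣ Xw * Yw → p ≤ Y := by
      intro p hp hd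
      exact (nd_prime_dvd (k + 2) m' p hm'pos hp hd).trans hm'bd
    have hpow2 : 2 ^ (k + 2) * β ≤ 2 ^ (k + 3) * β :=
      Nat.mul_le_mul_right _ (Nat.pow_le_pow_right (by norm_num) (by omega))
    have hw := hmono Xw Yw hXw hXY hprimew (by omega) (by omega)
    have hfw : f Xw - f Yw = fd f (k + 2) m' := (fd_eq_nd hf (k + 2) m' hm'pos).symm
    have hgw : g Xw - g Yw = fd g (k + 2) m' := (fd_eq_nd hg (k + 2) m' hm'pos).symm
    -- moves `u_N / w`
    have hmove : ∀ N, M ≤ N → N ≤ M + (k + 1) * (M - 1) →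
        fd f (k + 1) N ≤ fd f (k + 2) m' + Q ∧
        fd f' (k + 1) N ≤ fd f' (k + 2) m' + Q := by
      intro N hN1 hN2
      have hNpos : 0 < N := by omega
      obtain ⟨hX, hYp⟩ := nd_pos (k + 1) N hNpos
      set X := (nd (k + 1) N).1
      set Y' := (nd (k + 1) N).2
      have hNbd : N + (k + 1) ≤ (2 * k + 3) * M := by
        obtain ⟨c, hc⟩ : ∃ c, M = c + 1 := ⟨M - 1, by omega⟩
        rw [hc] at hN2 ⊢
        simp only [Nat.add_sub_cancel] at hN2
        nlinarith
      have hNY : N + (k + 1) ≤ Y := hNbd.trans (Nat.mul_le_mul_right _ (by omega))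
      have hΩu : cardFactors X + cardFactors Y' ≤ 2 ^ (k + 1) * β :=
        nd_cardFactors (k + 1) N β hNpos (fun i hi => hΩ _ (by omega) (by omega))
      have hlogu : Real.log X - Real.log Y' = fd (fun n => Real.log n) (k + 1) N :=
        (fd_eq_nd cadd_log (k + 1) N hNpos).symm
      obtain ⟨hlu1, -⟩ := fd_log_bounds k N hNpos
      have hcmp : fd (fun n => Real.log n) (k + 1) N < fd (fun n => Real.log n) (k + 2) m' := by
        refine lt_of_le_of_lt hlu1 (lt_of_lt_of_le ?_ hlw2)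
        apply neg_lt_neg
        have hm'R : (M : ℝ) ≤ m' := by exact_mod_cast (by omega : M ≤ m')
        have hNR : (N : ℝ) + k + 1 ≤ (2 * k + 3) * M := by exact_mod_cast hNbd
        have hfk : (0 : ℝ) < (k.factorial : ℝ) := by exact_mod_cast Nat.factorial_pos _
        have hNR' : (0 : ℝ) < (N : ℝ) := by exact_mod_cast hNpos
        calc ((k + 1).factorial : ℝ) / (m' : ℝ) ^ (k + 1 + 1)
            ≤ ((k + 1).factorial : ℝ) / (M : ℝ) ^ (k + 1 + 1) := by
              apply div_le_div_of_nonneg_left (by positivity) (by positivity)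
              exact pow_le_pow_left₀ hMR.le hm'R _
          _ < (k.factorial : ℝ) / ((2 * k + 3) * M : ℝ) ^ (k + 1) := by
              rw [div_lt_div_iff₀ (by positivity) (by positivity), Nat.factorial_succ]
              have h2 : ((k + 1 : ℕ) : ℝ) * ((2 * k + 3 : ℕ) : ℝ) ^ (k + 1) < (M : ℝ) := by
                exact_mod_cast hE2
              push_cast at h2 ⊢
              calc ((k : ℝ) + 1) * (k.factorial : ℝ) * ((2 * k + 3) * M : ℝ) ^ (k + 1)
                  = (k.factorial : ℝ) * ((M : ℝ) ^ (k + 1) * ((k + 1) * (2 * k + 3) ^ (k + 1))) := by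
                    rw [mul_pow]; ring
                _ < (k.factorial : ℝ) * ((M : ℝ) ^ (k + 1) * M) := by
                    apply mul_lt_mul_of_pos_left _ hfk
                    apply mul_lt_mul_of_pos_left h2 (by positivity)
                _ = (k.factorial : ℝ) * (M : ℝ) ^ (k + 1 + 1) := by ring
          _ ≤ (k.factorial : ℝ) / ((N : ℝ) + k + 1) ^ (k + 1) := by
              apply div_le_div_of_nonneg_left hfk.le (by positivity)
              exact pow_le_pow_left₀ (by positivity) hNR _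
      have hx : 0 < X * Yw := Nat.mul_pos hX hYw
      have hy : 0 < Y' * Xw := Nat.mul_pos hYp hXw
      have hlt : X * Yw < Y' * Xw := by
        apply lt_of_log_sub_neg hx hy
        have e1 := cadd_log X Yw hX hYw
        have e2 := cadd_log Y' Xw hYp hXw
        simp only at e1 e2
        rw [e1, e2]
        linarith
      have hpr : ∀ p : ℕ, p.Prime → p ∣ (X * Yw) * (Y' * Xw) → p ≤ Y := by
        intro p hp hd
        have hd' : p ∣ (X * Y') * (Xw * Yw) := by
          convert hd using 1; ring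
        rcases (Nat.Prime.dvd_mul hp).1 hd' with h1 | h1
        · exact (nd_prime_dvd (k + 1) N p hNpos hp h1).trans hNY
        · exact hprimew p hp h1
      have hpow3 : 2 ^ (k + 1) * β + 2 ^ (k + 2) * β ≤ 2 ^ (k + 3) * β := by
        have : 2 ^ (k + 3) * β = 2 ^ (k + 1) * β + 2 ^ (k + 2) * β + 2 ^ (k + 1) * β := by
          ring
        omega
      have hm := hmono (X * Yw) (Y' * Xw) hx hlt hpr
        (by rw [cardFactors_mul hX.ne' hYw.ne']; omega)
        (by rw [cardFactors_mul hYp.ne' hXw.ne']; omega)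
      have hfu : f X - f Y' = fd f (k + 1) N := (fd_eq_nd hf (k + 1) N hNpos).symm
      have hgu : g X - g Y' = fd g (k + 1) N := (fd_eq_nd hg (k + 1) N hNpos).symm
      have hf'u : fd f' (k + 1) N = fd f (k + 1) N - fd g (k + 1) N := fd_sub f g (k + 1) N
      have hf'w : fd f' (k + 2) m' = fd f (k + 2) m' - fd g (k + 2) m' := fd_sub f g (k + 2) m'
      rw [hf _ _ hX hYw, hf _ _ hYp hXw, hg _ _ hX hYw, hg _ _ hYp hXw] at hm
      constructor
      · linarith [hm.1]
      · rw [hf'u, hf'w]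
        linarith [hm.2]
    have hf'w : fd f' (k + 2) m' = fd f (k + 2) m' - fd g (k + 2) m' := fd_sub f g (k + 2) m'
    rw [abs_le]
    constructor
    · -- `g(w) < 0` side: use `f'` on `w`, `f` on the moves
      have h1 : ∀ N, 2 ^ t * 1 ≤ N → N ≤ 2 ^ t * 1 + (k + 1) * (2 ^ t - 1) →
          fd f (k + 1) N ≤ 2 * Q + fd g (k + 2) m' := by
        intro N hN1 hN2
        rw [mul_one] at hN1 hN2
        have := (hmove N hN1 hN2).1
        have h2 := hw.2
        linarith
      have h2 := fd_refine hf k t 1 one_pos _ h1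
      have h3 : -F ≤ fd f (k + 1) 1 := (abs_le.1 hF1).1
      have h4 : -(F / 2 ^ ((k + 1) * t)) ≤ 2 * Q + fd g (k + 2) m' := by
        have h5 : -F ≤ 2 ^ ((k + 1) * t) * (2 * Q + fd g (k + 2) m') := h3.trans h2
        rw [← neg_div, div_le_iff₀ hPw]
        linarith
      rw [hη]; linarith
    · have h1 : ∀ N, 2 ^ t * 1 ≤ N → N ≤ 2 ^ t * 1 + (k + 1) * (2 ^ t - 1) →
          fd f' (k + 1) N ≤ 2 * Q - fd g (k + 2) m' := by
        intro N hN1 hN2
        rw [mul_one] at hN1 hN2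
        have := (hmove N hN1 hN2).2
        have h2 := hw.1
        rw [hf'w] at this
        linarith
      have h2 := fd_refine hf'add k t 1 one_pos _ h1
      have h3 : -F ≤ fd f' (k + 1) 1 := (abs_le.1 hF2).1
      have h4 : -(F / 2 ^ ((k + 1) * t)) ≤ 2 * Q - fd g (k + 2) m' := by
        have h5 : -F ≤ 2 ^ ((k + 1) * t) * (2 * Q - fd g (k + 2) m') := h3.trans h2
        rw [← neg_div, div_le_iff₀ hPw]
        linarith
      rw [hη]; linarith
  -- Step 2: alternating sums
  obtain ⟨a, ha⟩ : ∃ a, M = 2 * a := by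
    refine ⟨2 ^ (t - 1), ?_⟩
    rw [hM, ← pow_succ']
    congr 1
    omega
  have hG : ∀ N, M + 1 ≤ N → N ≤ 2 * M + 1 + (k + 2) → |g N| ≤ 3 * Φ * β := by
    intro N hN1 hN2
    have hNY : N ≤ Y := by
      have : (2 * k + 5) * M = 2 * M + (2 * k + 3) * M := by ring
      have h2 : k + 3 ≤ (2 * k + 3) * M := by nlinarith [Nat.one_le_two_pow (n := t)]
      omega
    have hb := hg.bounds hΦ hgp N (by omega) (fun p hp hd => (Nat.le_of_dvd (by omega) hd).trans hNY)
    rw [abs_of_nonneg hb.1]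
    refine hb.2.trans ?_
    apply mul_le_mul_of_nonneg_left _ (by positivity)
    exact_mod_cast hΩ N (by omega) hNY
  have halt := alt_fd g (k + 2) (show M + 1 ≤ 2 * M + 1 by omega) (3 * Φ * β) hG
  have hS0 : ∑ N ∈ Ico (M + 1) (2 * M + 1), (-1 : ℝ) ^ N * g N
      = M * g 2 + g (Nat.centralBinom a) - g (Nat.centralBinom M) := by
    have := alt_dyadic hg a
    rw [ha]
    rw [this]
    push_cast
    ring
  have hcb1 : 0 ≤ g (Nat.centralBinom a) := by
    refine (hg.bounds hΦ hgp _ (Nat.centralBinom_pos a) ?_).1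
    intro p hp hd
    have h1 : p ≤ 2 * a := by
      by_contra hlt
      push Not at hlt
      have h2 := Nat.factorization_centralBinom_eq_zero_of_two_mul_lt hlt
      have h3 := (Nat.Prime.factorization_pos_of_dvd hp (Nat.centralBinom_ne_zero a) hd)
      omega
    have : M ≤ Y := by nlinarith
    omega
  have hcb2 : g (Nat.centralBinom M) ≤ 3 * Φ * (1 / 12 * M) := by
    have hb := (hg.bounds hΦ hgp _ (Nat.centralBinom_pos M) (fun p hp hd => by
      have h1 : p ≤ 2 * M := by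
        by_contra hlt
        push Not at hlt
        have h2 := Nat.factorization_centralBinom_eq_zero_of_two_mul_lt hlt
        have h3 := (Nat.Prime.factorization_pos_of_dvd hp (Nat.centralBinom_ne_zero M) hd)
        omega
      have : 2 * M ≤ Y := by nlinarith
      omega)).2
    exact hb.trans (mul_le_mul_of_nonneg_left hE1 (by positivity))
  have hg2 : Φ ≤ g 2 := (hgp 2 Nat.prime_two (by nlinarith)).1
  have hS0' : 3 / 4 * M * Φ ≤ ∑ N ∈ Ico (M + 1) (2 * M + 1), (-1 : ℝ) ^ N * g N := by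
    rw [hS0]
    have : (M : ℝ) * Φ ≤ M * g 2 := mul_le_mul_of_nonneg_left hg2 hMR.le
    linarith
  have hup : ∑ m ∈ Ico (M + 1) (2 * M + 1), (-1 : ℝ) ^ m * fd g (k + 2) m ≤ M * η := by
    calc ∑ m ∈ Ico (M + 1) (2 * M + 1), (-1 : ℝ) ^ m * fd g (k + 2) m
        ≤ ∑ m ∈ Ico (M + 1) (2 * M + 1), η := by
          apply Finset.sum_le_sum
          intro m hm
          rw [Finset.mem_Ico] at hm
          have h1 := hstep m hm.1 (by omega)
          calc (-1 : ℝ) ^ m * fd g (k + 2) m ≤ |(-1 : ℝ) ^ m * fd g (k + 2) m| := le_abs_self _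
            _ = |fd g (k + 2) m| := by
                rw [abs_mul, abs_pow, abs_neg, abs_one, one_pow, one_mul]
            _ ≤ η := h1
      _ = M * η := by
          rw [Finset.sum_const, Nat.card_Ico, nsmul_eq_mul]
          congr 2
          omega
  have h4 : (4 : ℝ) ≤ 2 ^ (k + 2) := by
    calc (4 : ℝ) = 2 ^ 2 := by norm_num
      _ ≤ 2 ^ (k + 2) := pow_le_pow_right₀ (by norm_num) (by omega)
  have halt' := (abs_le.1 halt).1
  set S := ∑ N ∈ Ico (M + 1) (2 * M + 1), (-1 : ℝ) ^ N * g N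
  set S' := ∑ m ∈ Ico (M + 1) (2 * M + 1), (-1 : ℝ) ^ m * fd g (k + 2) m
  have hE3' : ((k + 2 : ℕ) : ℝ) * (3 * Φ * β) ≤ 1 / 4 * M * Φ := by
    have := mul_le_mul_of_nonneg_right hE3 hΦ.le
    calc ((k + 2 : ℕ) : ℝ) * (3 * Φ * β) = ((k + 2 : ℕ) : ℝ) * (3 * (β : ℝ)) * Φ := by ring
      _ ≤ 1 / 4 * (M : ℝ) * Φ := this
  have h5 : 2 ^ (k + 2) * (1 / 2 * M * Φ) ≤ M * η := by
    have e : ((k + 2 : ℕ) : ℝ) * 2 ^ (k + 2) * (3 * Φ * β)
        = 2 ^ (k + 2) * (((k + 2 : ℕ) : ℝ) * (3 * Φ * β)) := by ring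
    rw [e] at halt'
    have h6 : (2 : ℝ) ^ (k + 2) * (((k + 2 : ℕ) : ℝ) * (3 * Φ * β)) ≤ 2 ^ (k + 2) * (1 / 4 * M * Φ) :=
      mul_le_mul_of_nonneg_left hE3' (by positivity)
    have h7 : (2 : ℝ) ^ (k + 2) * (3 / 4 * M * Φ) ≤ 2 ^ (k + 2) * S :=
      mul_le_mul_of_nonneg_left hS0' (by positivity)
    have h8 : (2 : ℝ) ^ (k + 2) * (1 / 2 * M * Φ)
        = 2 ^ (k + 2) * (3 / 4 * M * Φ) - 2 ^ (k + 2) * (1 / 4 * M * Φ) := by ring
    linarith
  have h6 : (M : ℝ) * Φ ≤ M * η := by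
    have h9 : 4 * (1 / 2 * M * Φ) ≤ 2 ^ (k + 2) * (1 / 2 * M * Φ) :=
      mul_le_mul_of_nonneg_right h4 (by positivity)
    have h10 : 0 < (M : ℝ) * Φ := mul_pos hMR hΦ
    have h11 : 4 * (1 / 2 * M * Φ) = 2 * (M * Φ) := by ring
    linarith
  exact le_of_mul_le_mul_left h6 hMR

end Pool.Agent.Lib.MP_9f8414_nt
end

section

/-!
# Truncated negative binomial sums
-/

namespace Pool.Agent.Lib.MP_9f8414_nt

open Finset

/-- terms of `A` -/
noncomputable def c (t : ℝ) (j i : ℕ) : ℝ := (Nat.multichoose j i : ℝ) * t ^ i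

theorem A_eq_sum (t : ℝ) (j k : ℕ) : A t j k = ∑ i ∈ range (k + 1), c t j i := rfl

theorem c_zero (t : ℝ) (j : ℕ) : c t j 0 = 1 := by simp [c]

theorem c_nonneg {t : ℝ} (ht : 0 < t) (j i : ℕ) : 0 ≤ c t j i := by unfold c; positivity

theorem c_pos {t : ℝ} (ht : 0 < t) {j : ℕ} (hj : 1 ≤ j) (i : ℕ) : 0 < c t j i := by
  unfold c
  have := mc_pos hj i
  positivity

theorem c_succ (t : ℝ) (j i : ℕ) : c t j (i + 1) = t * (i + j) / (i + 1) * c t j i := by
  unfold c
  have h := mc_succ_right j i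
  have h1 : (Nat.multichoose j (i + 1) : ℝ) = (i + j) / (i + 1) * Nat.multichoose j i := by
    field_simp
    linarith
  rw [h1, pow_succ]
  ring

theorem c_left (t : ℝ) (j i : ℕ) : (j : ℝ) * c t (j + 1) i = (j + i) * c t j i := by
  unfold c
  have h := mc_succ_left j i
  rw [← mul_assoc, h, mul_assoc]

theorem A_pos {t : ℝ} (ht : 0 < t) (j k : ℕ) : 1 ≤ A t j k := by
  rw [A_eq_sum, Finset.sum_range_succ', c_zero]
  have : 0 ≤ ∑ i ∈ range k, c t j (i + 1) := Finset.sum_nonneg fun i _ => c_nonneg ht _ _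
  linarith

theorem A_succ (t : ℝ) (j k : ℕ) : A t j (k + 1) = A t j k + c t j (k + 1) := by
  rw [A_eq_sum, A_eq_sum, Finset.sum_range_succ]

theorem A_ge_c {t : ℝ} (ht : 0 < t) (j k : ℕ) : c t j k ≤ A t j k := by
  rw [A_eq_sum]
  exact Finset.single_le_sum (f := fun i => c t j i) (fun i _ => c_nonneg ht _ _)
    (by simp)

/-- `ρ_k` is decreasing -/
theorem rho_anti {t : ℝ} (ht : 0 < t) {j : ℕ} (hj : 1 ≤ j) {i k : ℕ} (hik : i ≤ k) :
    t * ((k : ℝ) + j) / (k + 1) ≤ t * ((i : ℝ) + j) / (i + 1) := by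
  have hi : (0 : ℝ) < (i : ℝ) + 1 := by positivity
  have hk : (0 : ℝ) < (k : ℝ) + 1 := by positivity
  rw [div_le_div_iff₀ hk hi]
  have h1 : (i : ℝ) ≤ k := by exact_mod_cast hik
  have h2 : (1 : ℝ) ≤ j := by exact_mod_cast hj
  have h3 : 0 ≤ t * ((k - i) * ((j : ℝ) - 1)) :=
    mul_nonneg ht.le (mul_nonneg (by linarith) (by linarith))
  nlinarith [h3]

theorem A_step_lower {t : ℝ} (ht : 0 < t) {j : ℕ} (hj : 1 ≤ j) (k : ℕ) :
    t * ((k : ℝ) + j) / (k + 1) * A t j k ≤ A t j (k + 1) := by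
  rw [A_eq_sum t j (k + 1), Finset.sum_range_succ', A_eq_sum, Finset.mul_sum, c_zero]
  have : ∑ i ∈ range (k + 1), t * ((k : ℝ) + j) / (k + 1) * c t j i
      ≤ ∑ i ∈ range (k + 1), c t j (i + 1) := by
    refine Finset.sum_le_sum fun i hi => ?_
    rw [Finset.mem_range] at hi
    rw [c_succ]
    exact mul_le_mul_of_nonneg_right (rho_anti ht hj (by omega)) (c_nonneg ht _ _)
  linarith

/-- `∑_{i ≤ k} (k - i) c_i` -/
noncomputable def Esum (t : ℝ) (j k : ℕ) : ℝ := ∑ i ∈ range (k + 1), ((k : ℝ) - i) * c t j i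

theorem Esum_nonneg {t : ℝ} (ht : 0 < t) (j k : ℕ) : 0 ≤ Esum t j k := by
  refine Finset.sum_nonneg fun i hi => mul_nonneg ?_ (c_nonneg ht _ _)
  rw [Finset.mem_range] at hi
  have : (i : ℝ) ≤ k := by exact_mod_cast (by omega : i ≤ k)
  linarith

theorem Esum_le {t : ℝ} (ht : 0 < t) (j k : ℕ) : Esum t j k ≤ k * A t j k := by
  unfold Esum
  rw [A_eq_sum, Finset.mul_sum]
  refine Finset.sum_le_sum fun i hi => mul_le_mul_of_nonneg_right ?_ (c_nonneg ht _ _)
  have : (0 : ℝ) ≤ i := by positivity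
  linarith

theorem A_left (t : ℝ) (j k : ℕ) :
    (j : ℝ) * A t (j + 1) k = (j + k) * A t j k - Esum t j k := by
  unfold Esum
  rw [A_eq_sum, A_eq_sum, Finset.mul_sum, Finset.mul_sum, ← Finset.sum_sub_distrib]
  refine Finset.sum_congr rfl fun i _ => ?_
  rw [c_left]
  ring

theorem Esum_succ (t : ℝ) (j k : ℕ) :
    Esum t j (k + 1) = (k + 1) + ∑ i ∈ range (k + 1), ((k : ℝ) - i) * c t j (i + 1) := by
  unfold Esum
  rw [Finset.sum_range_succ', c_zero]
  push_cast
  have : ∑ i ∈ range (k + 1), ((k : ℝ) + 1 - (i + 1)) * c t j (i + 1)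
      = ∑ i ∈ range (k + 1), ((k : ℝ) - i) * c t j (i + 1) := by
    refine Finset.sum_congr rfl fun i _ => ?_
    ring
  rw [this]
  ring

theorem A_step_upper_aux {t : ℝ} (ht : 0 < t) {j : ℕ} (hj : 1 ≤ j) (k : ℕ) :
    ((k : ℝ) + 1) * (A t j (k + 1) - t * ((k : ℝ) + j) / (k + 1) * A t j k)
      ≤ Esum t j (k + 1) := by
  rw [Esum_succ, A_eq_sum t j (k + 1), Finset.sum_range_succ', A_eq_sum t j k, Finset.mul_sum,
    c_zero]
  have hk : (0 : ℝ) < (k : ℝ) + 1 := by positivity
  have h2 : (1 : ℝ) ≤ j := by exact_mod_cast hj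
  have key : ∑ i ∈ range (k + 1), ((k : ℝ) + 1) * (c t j (i + 1)
      - t * ((k : ℝ) + j) / (k + 1) * c t j i)
      ≤ ∑ i ∈ range (k + 1), ((k : ℝ) - i) * c t j (i + 1) := by
    refine Finset.sum_le_sum fun i hi => ?_
    rw [Finset.mem_range] at hi
    have hik : (i : ℝ) ≤ k := by exact_mod_cast (by omega : i ≤ k)
    have hi0 : (0 : ℝ) < (i : ℝ) + 1 := by positivity
    have hc := c_nonneg ht j i
    rw [c_succ]
    have e1 : ((k : ℝ) + 1) * (t * (i + j) / (i + 1) * c t j i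
      - t * ((k : ℝ) + j) / (k + 1) * c t j i) = t * ((k - i) * (j - 1)) / (i + 1) * c t j i := by
      field_simp
      ring
    rw [e1]
    have e2 : ((k : ℝ) - i) * (t * (i + j) / (i + 1) * c t j i)
        = t * ((k - i) * (i + j)) / (i + 1) * c t j i := by ring
    rw [e2]
    refine mul_le_mul_of_nonneg_right ?_ hc
    refine div_le_div_of_nonneg_right ?_ hi0.le
    refine mul_le_mul_of_nonneg_left ?_ ht.le
    refine mul_le_mul_of_nonneg_left ?_ (by linarith)
    have : (0 : ℝ) ≤ i := by positivity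
    linarith
  have e3 : ∑ i ∈ range (k + 1), ((k : ℝ) + 1) * (c t j (i + 1)
      - t * ((k : ℝ) + j) / (k + 1) * c t j i)
      = ((k : ℝ) + 1) * (∑ i ∈ range (k + 1), c t j (i + 1)
      - ∑ i ∈ range (k + 1), t * ((k : ℝ) + j) / (k + 1) * c t j i) := by
    rw [← Finset.sum_sub_distrib, Finset.mul_sum]
  rw [e3] at key
  linarith

/-- geometric decay of the terms below `k` -/
theorem c_geom {t : ℝ} (ht : 0 < t) {j : ℕ} (hj : 1 ≤ j) {k : ℕ} {q : ℝ} (hq : 0 < q)
    (h : (k : ℝ) ≤ q * t * (k - 1 + j)) :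
    ∀ m, m ≤ k → c t j (k - m) ≤ q ^ m * c t j k := by
  intro m
  induction m with
  | zero => intro _; simp
  | succ m ih =>
    intro hm
    have ih' := ih (by omega)
    obtain ⟨i, hi⟩ : ∃ i, k - (m + 1) = i := ⟨_, rfl⟩
    have hi2 : k - m = i + 1 := by omega
    rw [hi2] at ih'
    rw [hi]
    have hstep : c t j i ≤ q * c t j (i + 1) := by
      rw [c_succ]
      have hi0 : (0 : ℝ) < (i : ℝ) + 1 := by positivity
      obtain ⟨k', rfl⟩ : ∃ k', k = k' + 1 := ⟨k - 1, by omega⟩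
      have hik : i ≤ k' := by omega
      have hr := rho_anti ht hj hik
      have hk0 : (0 : ℝ) < (k' : ℝ) + 1 := by positivity
      have h1 : 1 ≤ q * (t * ((k' : ℝ) + j) / (k' + 1)) := by
        rw [← mul_div_assoc, one_le_div hk0]
        push_cast at h
        nlinarith
      have h2 : 1 ≤ q * (t * ((i : ℝ) + j) / (i + 1)) :=
        h1.trans (mul_le_mul_of_nonneg_left hr hq.le)
      have hc := c_nonneg ht j i
      nlinarith
    calc c t j i ≤ q * c t j (i + 1) := hstep
      _ ≤ q * (q ^ m * c t j k) := mul_le_mul_of_nonneg_left ih' hq.le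
      _ = q ^ (m + 1) * c t j k := by ring

theorem Esum_le_const {t : ℝ} (ht : 0 < t) {j : ℕ} (hj : 1 ≤ j) {k : ℕ} {q : ℝ} (hq : 0 < q)
    (hq1 : q < 1) (h : (k : ℝ) ≤ q * t * (k - 1 + j)) :
    Esum t j k ≤ q / (1 - q) ^ 2 * c t j k := by
  unfold Esum
  rw [← Finset.sum_range_reflect]
  have h1 : ∑ m ∈ range (k + 1), ((k : ℝ) - ((k + 1 - 1 - m : ℕ) : ℝ)) * c t j (k + 1 - 1 - m)
      ≤ ∑ m ∈ range (k + 1), ((m : ℝ) * q ^ m) * c t j k := by
    refine Finset.sum_le_sum fun m hm => ?_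
    rw [Finset.mem_range] at hm
    have hmk : m ≤ k := by omega
    have e1 : k + 1 - 1 - m = k - m := by omega
    rw [e1, Nat.cast_sub hmk]
    have e2 : (k : ℝ) - (k - m) = m := by ring
    rw [e2, mul_assoc]
    exact mul_le_mul_of_nonneg_left (c_geom ht hj hq h m hmk) (by positivity)
  refine h1.trans ?_
  rw [← Finset.sum_mul]
  refine mul_le_mul_of_nonneg_right ?_ (c_nonneg ht _ _)
  have hn : ‖q‖ < 1 := by rw [Real.norm_of_nonneg hq.le]; exact hq1
  have hs := hasSum_coe_mul_geometric_of_norm_lt_one hn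
  rw [← hs.tsum_eq]
  exact hs.summable.sum_le_tsum _ (fun i _ => by positivity)

theorem A_le_geom {t : ℝ} (ht : 0 < t) {j : ℕ} (hj : 1 ≤ j) {k : ℕ} {q : ℝ} (hq : 0 < q)
    (hq1 : q < 1) (h : (k : ℝ) ≤ q * t * (k - 1 + j)) :
    (1 - q) * A t j k ≤ c t j k := by
  have h0 : A t j k ≤ 1 / (1 - q) * c t j k := by
    rw [A_eq_sum, ← Finset.sum_range_reflect]
    have h1 : ∑ m ∈ range (k + 1), c t j (k + 1 - 1 - m)
        ≤ ∑ m ∈ range (k + 1), q ^ m * c t j k := by
      refine Finset.sum_le_sum fun m hm => ?_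
      rw [Finset.mem_range] at hm
      have hmk : m ≤ k := by omega
      have e1 : k + 1 - 1 - m = k - m := by omega
      rw [e1]
      exact c_geom ht hj hq h m hmk
    refine h1.trans ?_
    rw [← Finset.sum_mul]
    refine mul_le_mul_of_nonneg_right ?_ (c_nonneg ht _ _)
    rw [one_div, ← tsum_geometric_of_lt_one hq.le hq1]
    exact (summable_geometric_of_lt_one hq.le hq1).sum_le_tsum _ (fun i _ => by positivity)
  have h1 : 0 < 1 - q := by linarith
  calc (1 - q) * A t j k ≤ (1 - q) * (1 / (1 - q) * c t j k) :=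
        mul_le_mul_of_nonneg_left h0 h1.le
    _ = c t j k := by field_simp

/-- lower bound for `Esum`: with `q = k / (t (k-1+j))`. -/
theorem Esum_ge {t : ℝ} (ht : 0 < t) {j : ℕ} (hj : 1 ≤ j) {k : ℕ} (hk : 1 ≤ k) {q0 : ℝ}
    (hq1 : q0 < 1) (h : (k : ℝ) ≤ q0 * t * (k - 1 + j)) :
    (1 - q0) / (t * j) * A t j k ≤ Esum t j k := by
  have hk1 : (1 : ℝ) ≤ k := by exact_mod_cast hk
  have hj1 : (1 : ℝ) ≤ j := by exact_mod_cast hj
  have hden : 0 < t * ((k : ℝ) - 1 + j) := mul_pos ht (by linarith)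
  set q : ℝ := k / (t * (k - 1 + j)) with hq
  have hqpos : 0 < q := by positivity
  have hqq : q ≤ q0 := by
    rw [hq, div_le_iff₀ hden]; linarith
  have hqeq : (k : ℝ) ≤ q * t * (k - 1 + j) := by
    have hne : (k : ℝ) - 1 + j ≠ 0 := by
      have : 0 < (k : ℝ) - 1 + j := by linarith
      exact this.ne'
    rw [hq]; apply le_of_eq; field_simp
  have h1 := A_le_geom ht hj hqpos (by linarith) hqeq
  have h2 : q * c t j k ≤ Esum t j k := by
    obtain ⟨k', rfl⟩ : ∃ k', k = k' + 1 := ⟨k - 1, by omega⟩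
    have h3 : q * c t j (k' + 1) = c t j k' := by
      rw [c_succ, hq]
      push_cast
      have : (0 : ℝ) < (k' : ℝ) + 1 := by positivity
      have h4 : (k' : ℝ) + j ≠ 0 := by positivity
      have h5 : (k' : ℝ) + 1 - 1 + j = k' + j := by ring
      rw [h5]
      field_simp
    rw [h3]
    unfold Esum
    have h6 : (((k' + 1 : ℕ) : ℝ) - k') * c t j k' ≤
        ∑ i ∈ range (k' + 1 + 1), (((k' + 1 : ℕ) : ℝ) - i) * c t j i := by
      refine Finset.single_le_sum (f := fun i : ℕ => (((k' + 1 : ℕ) : ℝ) - i) * c t j i) ?_ ?_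
      · intro i hi
        rw [Finset.mem_range] at hi
        have : (i : ℝ) ≤ ((k' + 1 : ℕ) : ℝ) := by exact_mod_cast (by omega : i ≤ k' + 1)
        exact mul_nonneg (by linarith) (c_nonneg ht _ _)
      · simp
    push_cast at h6
    push_cast
    linarith
  have h3 : 1 / (t * j) ≤ q := by
    rw [hq, div_le_div_iff₀ (by positivity) hden]
    have : (0 : ℝ) ≤ ((k : ℝ) - 1) * (j - 1) := mul_nonneg (by linarith) (by linarith)
    nlinarith
  have hA : 0 ≤ A t j k := by linarith [A_pos ht j k]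
  calc (1 - q0) / (t * j) * A t j k = (1 / (t * j)) * ((1 - q0) * A t j k) := by ring
    _ ≤ q * ((1 - q) * A t j k) := by
        refine mul_le_mul h3 ?_ ?_ hqpos.le
        · exact mul_le_mul_of_nonneg_right (by linarith) hA
        · exact mul_nonneg (by linarith) hA
    _ ≤ q * c t j k := mul_le_mul_of_nonneg_left h1 hqpos.le
    _ ≤ Esum t j k := h2

theorem A_step_upper {t : ℝ} (ht : 0 < t) {j : ℕ} (hj : 1 ≤ j) {k : ℕ} {q : ℝ} (hq : 0 < q)
    (hq1 : q < 1) (h : (k : ℝ) + 1 ≤ q * t * (k + j)) :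
    (1 - q / (1 - q) ^ 2 / (k + 1)) * A t j (k + 1) ≤ t * ((k : ℝ) + j) / (k + 1) * A t j k := by
  have h1 := A_step_upper_aux ht hj k
  have h2 := Esum_le_const ht hj (k := k + 1) hq hq1 (by push_cast; linarith)
  have h3 := A_ge_c ht j (k + 1)
  have hC : 0 ≤ q / (1 - q) ^ 2 := by positivity
  have h4 : Esum t j (k + 1) ≤ q / (1 - q) ^ 2 * A t j (k + 1) :=
    h2.trans (mul_le_mul_of_nonneg_left h3 hC)
  have hk : (0 : ℝ) < (k : ℝ) + 1 := by positivity
  have h5 : A t j (k + 1) - t * ((k : ℝ) + j) / (k + 1) * A t j k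
      ≤ q / (1 - q) ^ 2 / (k + 1) * A t j (k + 1) := by
    have e : q / (1 - q) ^ 2 / ((k : ℝ) + 1) * A t j (k + 1)
        = (q / (1 - q) ^ 2 * A t j (k + 1)) / ((k : ℝ) + 1) := by ring
    rw [e, le_div_iff₀ hk]
    linarith
  linarith

/-! ### log-concavity in `j` -/

theorem A_rec (t : ℝ) (j k : ℕ) : A t (j + 1) (k + 1) = A t j (k + 1) + t * A t (j + 1) k := by
  rw [A_eq_sum t (j + 1) (k + 1), A_eq_sum t j (k + 1), A_eq_sum t (j + 1) k,
    Finset.sum_range_succ' _ (k + 1), Finset.sum_range_succ' (fun i => c t j i) (k + 1), c_zero,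
    c_zero, Finset.mul_sum]
  have : ∑ i ∈ range (k + 1), c t (j + 1) (i + 1)
      = ∑ i ∈ range (k + 1), c t j (i + 1) + ∑ i ∈ range (k + 1), t * c t (j + 1) i := by
    rw [← Finset.sum_add_distrib]
    refine Finset.sum_congr rfl fun i _ => ?_
    unfold c
    rw [Nat.multichoose_succ_succ]
    push_cast
    ring
  rw [this]
  ring

theorem A_mono_ratio {t : ℝ} (ht : 0 < t) (j k : ℕ) :
    A t j (k + 1) * A t (j + 1) k ≤ A t (j + 1) (k + 1) * A t j k := by
  rw [A_succ, A_succ]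
  have : c t j (k + 1) * A t (j + 1) k ≤ c t (j + 1) (k + 1) * A t j k := by
    rw [A_eq_sum, A_eq_sum, Finset.mul_sum, Finset.mul_sum]
    refine Finset.sum_le_sum fun i hi => ?_
    rw [Finset.mem_range] at hi
    rcases Nat.eq_zero_or_pos j with h0 | h0
    · subst h0
      have e1 : c t 0 (k + 1) = 0 := by unfold c; simp
      rw [e1, zero_mul]
      exact mul_nonneg (c_nonneg ht _ _) (c_nonneg ht _ _)
    · have hj : (0 : ℝ) < j := by exact_mod_cast h0
      have e1 := c_left t j i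
      have e2 := c_left t j (k + 1)
      have hki : (i : ℝ) ≤ ((k + 1 : ℕ) : ℝ) := by exact_mod_cast (by omega : i ≤ k + 1)
      have h1 : (j : ℝ) * (c t j (k + 1) * c t (j + 1) i)
          ≤ (j : ℝ) * (c t (j + 1) (k + 1) * c t j i) := by
        calc (j : ℝ) * (c t j (k + 1) * c t (j + 1) i)
            = c t j (k + 1) * (j * c t (j + 1) i) := by ring
          _ = (j + i) * (c t j (k + 1) * c t j i) := by rw [e1]; ring
          _ ≤ (j + (k + 1 : ℕ)) * (c t j (k + 1) * c t j i) := by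
              refine mul_le_mul_of_nonneg_right (by linarith) ?_
              exact mul_nonneg (c_nonneg ht _ _) (c_nonneg ht _ _)
          _ = (j * c t (j + 1) (k + 1)) * c t j i := by rw [e2]; ring
          _ = _ := by ring
      exact le_of_mul_le_mul_left h1 hj
  linarith

theorem A_logconcave {t : ℝ} (ht : 0 < t) (j k : ℕ) :
    A t j k * A t (j + 2) k ≤ A t (j + 1) k ^ 2 := by
  induction k with
  | zero => simp
  | succ k ih =>
    have h1 := A_mono_ratio ht j k
    have p1 := A_pos ht j k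
    have p2 := A_pos ht (j + 1) k
    have p3 := A_pos ht j (k + 1)
    have p4 := A_pos ht (j + 1) (k + 1)
    have p5 := A_pos ht (j + 2) k
    have key : A t j (k + 1) * A t (j + 2) k ≤ A t (j + 1) (k + 1) * A t (j + 1) k := by
      have hpos : 0 < A t j k * A t (j + 1) k := by positivity
      refine le_of_mul_le_mul_right ?_ hpos
      calc A t j (k + 1) * A t (j + 2) k * (A t j k * A t (j + 1) k)
          = (A t j (k + 1) * A t (j + 1) k) * (A t j k * A t (j + 2) k) := by ring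
        _ ≤ (A t (j + 1) (k + 1) * A t j k) * (A t (j + 1) k ^ 2) :=
            mul_le_mul h1 ih (by positivity) (by positivity)
        _ = _ := by ring
    have r1 := A_rec t (j + 1) k
    have r2 := A_rec t j k
    have e : j + 1 + 1 = j + 2 := rfl
    rw [e] at r1
    rw [r1]
    have : A t j (k + 1) * (t * A t (j + 2) k) ≤ A t (j + 1) (k + 1) * (t * A t (j + 1) k) := by
      have := mul_le_mul_of_nonneg_left key ht.le
      linarith
    calc A t j (k + 1) * (A t (j + 1) (k + 1) + t * A t (j + 2) k)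
        ≤ A t (j + 1) (k + 1) * (A t j (k + 1) + t * A t (j + 1) k) := by linarith
      _ = A t (j + 1) (k + 1) ^ 2 := by rw [← r2]; ring

end Pool.Agent.Lib.MP_9f8414_nt
end
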