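import Pool.Agent.Lib.MP_9f8414_nt.Structure2
import Pool.Agent.Lib.MP_9f8414_nt.LocalA

section

/-!
# Structure of the exponents, part 3
-/

namespace Pool.Agent.Lib.MP_9f8414_nt

open ArithmeticFunction Finset

theorem two_pow_le_K {a : ℕ} (ha : 3 ≤ a) :
    (2 : ℝ) ^ (a + 1) ≤ 96 / 100 * ((2722 / 1000 : ℝ) ^ a - 10001 / 10000) := by
  induction a, ha using Nat.le_induction with
  | base => norm_num
  | succ a ha ih =>
    have h1 : (20 : ℝ) ≤ (2722 / 1000 : ℝ) ^ a := by
      calc (20 : ℝ) ≤ (2722 / 1000 : ℝ) ^ 3 := by norm_num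
        _ ≤ _ := pow_le_pow_right₀ (by norm_num) ha
    rw [pow_succ (2 : ℝ) (a + 1), pow_succ (2722 / 1000 : ℝ) a]
    linarith

/-- Upper bounds on the exponents for large `J`. -/
theorem upper_facts : ∃ J0 : ℕ, ∀ J : ℕ, J0 ≤ J → ∀ n : ℕ, IsMode n J → SwapProp n J →
    (∀ p ∈ n.primeFactors, p ≠ 2 → (n.factorization p : ℝ) ≤ 287 / 1000 * J) ∧
    (∀ p ∈ n.primeFactors, ∀ j ∈ W J, (n.factorization p : ℝ)
      ≤ 97 / 100 * (1 / p) * (n.factorization p - 1 + j)) ∧
    (∀ p ∈ n.primeFactors, (p : ℝ) ^ 7 ≤ 4096 * (J : ℝ) ^ 5) := by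
  obtain ⟨J0, hJ0⟩ := a_small
  refine ⟨max J0 1000000, fun J hJ n hm hs => ?_⟩
  have hJ1 : J0 ≤ J := le_trans (le_max_left _ _) hJ
  have hJ2 : 1000000 ≤ J := le_trans (le_max_right _ _) hJ
  have hJr : (1000000 : ℝ) ≤ J := by exact_mod_cast hJ2
  have hJ0' : (0 : ℝ) < J := by linarith
  have hA2 := alpha2_le hJ2 hm hs
  have hup : ∀ p a : ℕ, p ∈ n.primeFactors → p ≠ 2 → 2 ^ a < p → 1 ≤ a →
      (n.factorization p : ℝ) * ((2722 / 1000 : ℝ) ^ a - 10001 / 10000) ≤ 10011 / 10000 * J := by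
    intro p a hp hp2 ha ha1
    exact alpha_upper hJ2 hm hs (x := 58 / 100) (K := 2722 / 1000) hA2 (by norm_num)
      (by norm_num) (by norm_num) hp hp2 ha ha1 (hJ0 J hJ1 n hm hs p a hp hp2 ha)
  have h3 := alpha3_upper hJ2 hm hs (x := 58 / 100) (K := 2722 / 1000) (L := 449 / 100)
    hA2 (by norm_num) (by norm_num) (by norm_num) (by norm_num) (by norm_num)
  have h3' : (n.factorization 3 : ℝ) ≤ 287 / 1000 * J := by linarith
  have h5 : ∀ p ∈ n.primeFactors, p ≠ 2 → p ≠ 3 → (n.factorization p : ℝ) ≤ 1562 / 10000 * J := by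
    intro p hp hp2 hp3
    have hpp := Nat.prime_of_mem_primeFactors hp
    have hp4 : p ≠ 4 := by rintro rfl; revert hpp; norm_num
    have h4 : 2 ^ 2 < p := by
      have := hpp.two_le
      omega
    have := hup p 2 hp hp2 h4 (by norm_num)
    norm_num at this
    linarith
  have hge : ∀ p ∈ n.primeFactors, p ≠ 2 → 2 ^ (Nat.log 2 p) < p ∧ 1 ≤ Nat.log 2 p := by
    intro p hp hp2
    have hpp := Nat.prime_of_mem_primeFactors hp
    have h2 := hpp.two_le
    have hlog1 : 1 ≤ Nat.log 2 p := Nat.le_log_of_pow_le (by norm_num) (by omega)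
    have h2a : 2 ^ (Nat.log 2 p) ≤ p := Nat.pow_log_le_self 2 (by omega)
    have h2a' : 2 ^ (Nat.log 2 p) ≠ p := by
      intro h
      have hd : 2 ∣ p := by rw [← h]; exact dvd_pow_self 2 (by omega)
      have := (Nat.prime_dvd_prime_iff_eq Nat.prime_two hpp).1 hd
      omega
    exact ⟨by omega, hlog1⟩
  refine ⟨?_, ?_, ?_⟩
  · intro p hp hp2
    by_cases hp3 : p = 3
    · subst hp3; exact h3'
    · have := h5 p hp hp2 hp3
      linarith
  · intro p hp j hj
    obtain ⟨hb1, hb2⟩ := W_bounds hj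
    have hpp := Nat.prime_of_mem_primeFactors hp
    have hp0 : (0 : ℝ) < p := by exact_mod_cast hpp.pos
    have goal' : (n.factorization p : ℝ) * (p - 97 / 100) ≤ 97 / 100 * (j - 1) →
        (n.factorization p : ℝ) ≤ 97 / 100 * (1 / p) * (n.factorization p - 1 + j) := by
      intro h
      have e : 97 / 100 * (1 / (p : ℝ)) * (n.factorization p - 1 + j)
          = (97 / 100 * (n.factorization p - 1 + j)) / p := by ring
      rw [e, le_div_iff₀ hp0]
      linarith
    apply goal'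
    by_cases hp2 : p = 2
    · subst hp2; push_cast; linarith
    by_cases hp3 : p = 3
    · subst hp3; push_cast; linarith
    by_cases h8 : p < 8
    · have hle := h5 p hp hp2 hp3
      have hp7 : (p : ℝ) ≤ 7 := by exact_mod_cast (by omega : p ≤ 7)
      have h0 : (0 : ℝ) ≤ n.factorization p := by positivity
      have h1 : (n.factorization p : ℝ) * (p - 97 / 100) ≤ n.factorization p * (7 - 97 / 100) :=
        mul_le_mul_of_nonneg_left (by linarith) h0
      linarith
    · push Not at h8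
      obtain ⟨hlt, hlog1⟩ := hge p hp hp2
      have hlog3 : 3 ≤ Nat.log 2 p := Nat.le_log_of_pow_le (by norm_num) (by omega)
      have h4 := hup p (Nat.log 2 p) hp hp2 hlt hlog1
      have h6 := two_pow_le_K hlog3
      have h7 : (p : ℝ) ≤ 2 ^ (Nat.log 2 p + 1) := by
        exact_mod_cast (Nat.lt_pow_succ_log_self (by norm_num) p).le
      have h0 : (0 : ℝ) ≤ n.factorization p := by positivity
      have h8 : (n.factorization p : ℝ) * (p - 97 / 100)
          ≤ n.factorization p * (96 / 100 * ((2722 / 1000 : ℝ) ^ (Nat.log 2 p) - 10001 / 10000)) :=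
        mul_le_mul_of_nonneg_left (by linarith) h0
      linarith
  · intro p hp
    have hpp := Nat.prime_of_mem_primeFactors hp
    by_cases hp2 : p = 2
    · subst hp2
      have : (1 : ℝ) ≤ (J : ℝ) ^ 5 := one_le_pow₀ (by linarith)
      norm_num
      linarith
    · obtain ⟨hlt, hlog1⟩ := hge p hp hp2
      have h4 := hup p (Nat.log 2 p) hp hp2 hlt hlog1
      set a := Nat.log 2 p with ha
      have hα : 1 ≤ n.factorization p :=
        (hpp.dvd_iff_one_le_factorization hm.1).1 (Nat.dvd_of_mem_primeFactors hp)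
      have hαr : (1 : ℝ) ≤ n.factorization p := by exact_mod_cast hα
      have hK1 : (2722 / 1000 : ℝ) ≤ (2722 / 1000 : ℝ) ^ a := by
        calc (2722 / 1000 : ℝ) = (2722 / 1000 : ℝ) ^ 1 := by norm_num
          _ ≤ _ := pow_le_pow_right₀ (by norm_num) hlog1
      have h5 : (2722 / 1000 : ℝ) ^ a ≤ 2 * J := by
        have : (2722 / 1000 : ℝ) ^ a - 10001 / 10000
            ≤ (n.factorization p : ℝ) * ((2722 / 1000 : ℝ) ^ a - 10001 / 10000) := by
          nlinarith
        linarith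
      have h7 : (p : ℝ) ≤ 2 ^ (a + 1) := by
        exact_mod_cast (Nat.lt_pow_succ_log_self (by norm_num) p).le
      calc (p : ℝ) ^ 7 ≤ (2 ^ (a + 1)) ^ 7 := pow_le_pow_left₀ (by positivity) h7 7
        _ = 128 * (128 : ℝ) ^ a := by
            rw [← pow_mul, add_mul, pow_add, mul_comm a 7, pow_mul]; norm_num; ring
        _ ≤ 128 * ((2722 / 1000 : ℝ) ^ 5) ^ a := by
            gcongr; norm_num
        _ = 128 * ((2722 / 1000 : ℝ) ^ a) ^ 5 := by
            rw [← pow_mul, ← pow_mul, mul_comm 5 a]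
        _ ≤ 128 * (2 * (J : ℝ)) ^ 5 := by gcongr
        _ = 4096 * (J : ℝ) ^ 5 := by ring

/-- the number of prime factors is much smaller than `J` -/
theorem omega_small {n J : ℕ} (hJ : 10 ^ 30 ≤ J)
    (h : ∀ p ∈ n.primeFactors, (p : ℝ) ^ 7 ≤ 4096 * (J : ℝ) ^ 5) :
    (10 : ℝ) ^ 8 * n.primeFactors.card ≤ J := by
  set ω := n.primeFactors.card with hω
  rcases Nat.eq_zero_or_pos ω with h0 | h0
  · rw [h0]; simp
  have hex : ∃ p ∈ n.primeFactors, ω ≤ p := by
    by_contra hcon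
    push Not at hcon
    have hsub : n.primeFactors ⊆ Finset.Ico 1 ω := by
      intro p hp
      rw [Finset.mem_Ico]
      exact ⟨(Nat.prime_of_mem_primeFactors hp).one_le, hcon p hp⟩
    have := Finset.card_le_card hsub
    rw [Nat.card_Ico] at this
    omega
  obtain ⟨p, hp, hle⟩ := hex
  have h1 := h p hp
  have hle' : (ω : ℝ) ≤ p := by exact_mod_cast hle
  have hJr : (10 : ℝ) ^ 30 ≤ J := by exact_mod_cast hJ
  have hJ0 : (0 : ℝ) < J := by positivity
  have h2 : ((10 : ℝ) ^ 8 * ω) ^ 7 ≤ (J : ℝ) ^ 7 := by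
    calc ((10 : ℝ) ^ 8 * ω) ^ 7 ≤ ((10 : ℝ) ^ 8 * p) ^ 7 := by gcongr
      _ = 10 ^ 56 * (p : ℝ) ^ 7 := by ring
      _ ≤ 10 ^ 56 * (4096 * (J : ℝ) ^ 5) := by gcongr
      _ ≤ ((10 : ℝ) ^ 30) ^ 2 * (J : ℝ) ^ 5 := by
          have : (0 : ℝ) < (J : ℝ) ^ 5 := by positivity
          nlinarith
      _ ≤ (J : ℝ) ^ 2 * (J : ℝ) ^ 5 := by gcongr
      _ = (J : ℝ) ^ 7 := by ring
  exact le_of_pow_le_pow_left₀ (by norm_num) hJ0.le h2

/-- lower bounds on the exponents -/
theorem lower_facts : ∃ J0 : ℕ, ∀ J : ℕ, J0 ≤ J → ∀ n : ℕ, IsMode n J → SwapProp n J →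
    ∀ p a : ℕ, p.Prime → p < 2 ^ a → a ≤ J / 100000 →
      99 / 100 * (J : ℝ) ≤ (3981 / 1000 : ℝ) ^ a * (n.factorization p + 1) := by
  obtain ⟨J0, hJ0⟩ := alpha2_ge
  refine ⟨max J0 1000000, fun J hJ n hm hs p a hp hpa haJ => ?_⟩
  have hJ1 : J0 ≤ J := le_trans (le_max_left _ _) hJ
  have hJ2 : 1000000 ≤ J := le_trans (le_max_right _ _) hJ
  have hJr : (1000000 : ℝ) ≤ J := by exact_mod_cast hJ2
  have hJ0' : (0 : ℝ) < J := by linarith
  have hA2 := hJ0 J hJ1 n hm hs
  have ha1 : 1 ≤ a := by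
    rcases Nat.eq_zero_or_pos a with h | h
    · subst h
      have := hp.two_le
      simp at hpa
      omega
    · exact h
  have heJ : (a : ℝ) ≤ J / 100000 := by
    have : 100000 * a ≤ J := by omega
    have : (100000 : ℝ) * a ≤ J := by exact_mod_cast this
    linarith
  have haA : a ≤ n.factorization 2 := by
    have : (a : ℝ) ≤ n.factorization 2 := by linarith
    exact_mod_cast this
  have hpow : (3981 / 1000 : ℝ) ≤ (3981 / 1000 : ℝ) ^ a := by
    calc (3981 / 1000 : ℝ) = (3981 / 1000 : ℝ) ^ 1 := by norm_num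
      _ ≤ _ := pow_le_pow_right₀ (by norm_num) ha1
  by_cases hp2 : p = 2
  · subst hp2
    nlinarith
  obtain ⟨j, hj, h⟩ := hs p 2 1 a hp Nat.prime_two hp2 (le_refl _) ha1 (by simpa using hpa) haA
  obtain ⟨hb1, hb2⟩ := W_bounds hj
  have hj1 : 1 ≤ j := one_le_of_mem_W hm.2.1 hj
  have hr : r j (n.factorization 2 - a) ≤ 3981 / 1000 := by
    apply r_le_of
    rw [Nat.cast_sub haA]
    linarith
  have hr0 := (r_pos hj1 (n.factorization 2 - a)).le
  have h1 : r j (n.factorization 2 - a) ^ a ≤ (3981 / 1000 : ℝ) ^ a := pow_le_pow_left₀ hr0 hr a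
  have hinv := one_div_J_le hJ2
  have h2 : r j (n.factorization p) ≤ 1000001 / 1000000 * (3981 / 1000 : ℝ) ^ a := by
    have e : n.factorization p + 1 - 1 = n.factorization p := by omega
    rw [e, pow_one] at h
    refine h.trans ?_
    refine mul_le_mul (by linarith) h1 (by positivity) (by norm_num)
  have h3 := of_r_le h2
  have hα0 : (0 : ℝ) ≤ n.factorization p := by positivity
  have hpos : (0 : ℝ) ≤ (3981 / 1000 : ℝ) ^ a * (n.factorization p + 1) := by positivity
  nlinarith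

end Pool.Agent.Lib.MP_9f8414_nt
end

section

/-!
# Structure of the exponents, part 4: all small primes divide `n`
-/

namespace Pool.Agent.Lib.MP_9f8414_nt

open ArithmeticFunction Finset Filter

theorem lin_lt_two_pow (C : ℝ) : ∃ e0 : ℕ, ∀ e : ℕ, e0 ≤ e → C * ((e : ℝ) + 1) < (2 : ℝ) ^ e := by
  have h1 := tendsto_pow_const_mul_const_pow_of_abs_lt_one 1 (r := (1 / 2 : ℝ))
    (by rw [abs_of_pos] <;> norm_num)
  have h0 := tendsto_pow_const_mul_const_pow_of_abs_lt_one 0 (r := (1 / 2 : ℝ))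
    (by rw [abs_of_pos] <;> norm_num)
  have h := (h1.const_mul C).add (h0.const_mul C)
  simp only [mul_zero, add_zero] at h
  have h' := h.eventually (gt_mem_nhds (by norm_num : (0 : ℝ) < 1))
  obtain ⟨e0, he0⟩ := Filter.eventually_atTop.1 h'
  refine ⟨e0, fun e he => ?_⟩
  have := he0 e he
  have e1 : (2 : ℝ) ^ e * (1 / 2 : ℝ) ^ e = 1 := by
    rw [← mul_pow]; norm_num
  have hp : (0 : ℝ) < (2 : ℝ) ^ e := by positivity
  have h3 := mul_lt_mul_of_pos_left this hp
  calc C * ((e : ℝ) + 1)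
      = (C * (e + 1)) * ((2 : ℝ) ^ e * (1 / 2 : ℝ) ^ e) := by rw [e1]; ring
    _ = (2 : ℝ) ^ e * (C * ((e : ℝ) ^ 1 * (1 / 2) ^ e)
        + C * ((e : ℝ) ^ 0 * (1 / 2) ^ e)) := by ring
    _ < (2 : ℝ) ^ e * 1 := h3
    _ = _ := mul_one _

theorem log_small : ∃ J0 : ℕ, ∀ J : ℕ, J0 ≤ J → Nat.log 2 J + 1 ≤ J / 100000 := by
  obtain ⟨e0, he0⟩ := lin_lt_two_pow 200000
  refine ⟨100000 * (e0 + 1), fun J hJ => ?_⟩
  set e := J / 100000 with he
  have h1 : e0 ≤ e := by omega
  have h2 := he0 e h1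
  have h3 : 200000 * (e + 1) < 2 ^ e := by exact_mod_cast h2
  have h4 : J < 100000 * (e + 1) := by omega
  by_contra hcon
  push Not at hcon
  have h5 : e ≤ Nat.log 2 J := by omega
  have h6 : 2 ^ e ≤ 2 ^ (Nat.log 2 J) := Nat.pow_le_pow_right (by norm_num) h5
  have h7 : 2 ^ (Nat.log 2 J) ≤ J := Nat.pow_log_le_self 2 (by omega)
  omega

theorem pow_bound : (3981 / 1000 : ℝ) ^ 200 ≤ (2 : ℝ) ^ 399 := by
  have h1 : (3981 / 1000 : ℝ) ^ 40 ≤ 2 ^ 79 * (1741 / 1000) := by norm_num
  have e1 : (3981 / 1000 : ℝ) ^ 200 = ((3981 / 1000 : ℝ) ^ 40) ^ 5 := by rw [← pow_mul]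
  have e2 : (2 : ℝ) ^ 399 = ((2 : ℝ) ^ 79) ^ 5 * 2 ^ 4 := by rw [← pow_mul, ← pow_add]
  rw [e1, e2]
  calc ((3981 / 1000 : ℝ) ^ 40) ^ 5 ≤ (2 ^ 79 * (1741 / 1000)) ^ 5 :=
        pow_le_pow_left₀ (by positivity) h1 5
    _ = ((2 : ℝ) ^ 79) ^ 5 * (1741 / 1000) ^ 5 := by rw [mul_pow]
    _ ≤ ((2 : ℝ) ^ 79) ^ 5 * 2 ^ 4 := by
        refine mul_le_mul_of_nonneg_left ?_ (by positivity)
        norm_num

theorem small_primes : ∃ J0 : ℕ, ∀ J : ℕ, J0 ≤ J → ∀ n : ℕ, IsMode n J → SwapProp n J →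
    ∀ p : ℕ, p.Prime → (p : ℝ) ≤ (J : ℝ) ^ (501 / 1000 : ℝ) → p ∈ n.primeFactors := by
  obtain ⟨J0, hJ0⟩ := lower_facts
  obtain ⟨J1, hJ1⟩ := log_small
  obtain ⟨x0, hx0⟩ := Filter.eventually_atTop.1
    ((tendsto_rpow_atTop (by norm_num : (0 : ℝ) < 101 / 1000)).eventually
    (eventually_gt_atTop ((2 : ℝ) ^ 399 / (99 / 100) ^ 200)))
  refine ⟨max (max J0 J1) (Nat.ceil x0 + 1), fun J hJ n hm hs p hp hpJ => ?_⟩
  have hJa : J0 ≤ J := le_trans (le_trans (le_max_left _ _) (le_max_left _ _)) hJ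
  have hJb : J1 ≤ J := le_trans (le_trans (le_max_right _ _) (le_max_left _ _)) hJ
  have hJc : Nat.ceil x0 + 1 ≤ J := le_trans (le_max_right _ _) hJ
  have hJpos : 0 < J := by omega
  have hJx : x0 ≤ (J : ℝ) := by
    have : Nat.ceil x0 ≤ J := by omega
    exact (Nat.le_ceil x0).trans (by exact_mod_cast this)
  have hJr := hx0 (J : ℝ) hJx
  have hJ1r : (1 : ℝ) ≤ J := by exact_mod_cast hJpos
  have hJ0r : (0 : ℝ) < J := by linarith
  by_contra hcon
  have hα : n.factorization p = 0 := by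
    rw [← Finsupp.notMem_support_iff]
    simpa using hcon
  have hpleJ : p ≤ J := by
    have : (p : ℝ) ≤ (J : ℝ) ^ (1 : ℝ) :=
      hpJ.trans (Real.rpow_le_rpow_of_exponent_le hJ1r (by norm_num))
    rw [Real.rpow_one] at this
    exact_mod_cast this
  set a := Nat.log 2 p + 1 with ha
  have hpa : p < 2 ^ a := Nat.lt_pow_succ_log_self (by norm_num) p
  have haJ : a ≤ J / 100000 := by
    have := hJ1 J hJb
    have h2 : Nat.log 2 p ≤ Nat.log 2 J := Nat.log_mono_right hpleJ
    omega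
  have h1 := hJ0 J hJa n hm hs p a hp hpa haJ
  rw [hα] at h1
  norm_num at h1
  have h2a : (2 : ℝ) ^ a ≤ 2 * p := by
    have h3 : 2 ^ (Nat.log 2 p) ≤ p := Nat.pow_log_le_self 2 hp.ne_zero
    have h4 : 2 ^ a ≤ 2 * p := by rw [ha, pow_succ]; omega
    exact_mod_cast h4
  have hX0 : (0 : ℝ) < (J : ℝ) ^ (501 / 1000 : ℝ) := Real.rpow_pos_of_pos hJ0r _
  have h5 : (99 / 100 * (J : ℝ)) ^ 200 ≤ 2 ^ 399 * (J : ℝ) ^ (199899 / 1000 : ℝ) := by
    calc (99 / 100 * (J : ℝ)) ^ 200 ≤ ((3981 / 1000 : ℝ) ^ a) ^ 200 :=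
          pow_le_pow_left₀ (by positivity) h1 200
      _ = ((3981 / 1000 : ℝ) ^ 200) ^ a := by rw [← pow_mul, ← pow_mul, mul_comm]
      _ ≤ ((2 : ℝ) ^ 399) ^ a := by
          exact pow_le_pow_left₀ (by positivity) pow_bound a
      _ = ((2 : ℝ) ^ a) ^ 399 := by rw [← pow_mul, ← pow_mul, mul_comm]
      _ ≤ (2 * (p : ℝ)) ^ 399 := pow_le_pow_left₀ (by positivity) h2a 399
      _ ≤ (2 * (J : ℝ) ^ (501 / 1000 : ℝ)) ^ 399 := by gcongr
      _ = 2 ^ 399 * (J : ℝ) ^ (199899 / 1000 : ℝ) := by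
          rw [mul_pow, ← Real.rpow_natCast ((J : ℝ) ^ (501 / 1000 : ℝ)) 399,
            ← Real.rpow_mul hJ0r.le]
          norm_num
  have h6 : (J : ℝ) ^ 200 = (J : ℝ) ^ (199899 / 1000 : ℝ) * (J : ℝ) ^ (101 / 1000 : ℝ) := by
    rw [← Real.rpow_add hJ0r, ← Real.rpow_natCast]
    norm_num
  have h8 : (0 : ℝ) < (J : ℝ) ^ (199899 / 1000 : ℝ) := Real.rpow_pos_of_pos hJ0r _
  rw [mul_pow, h6] at h5
  have h9 : (99 / 100 : ℝ) ^ 200 * (J : ℝ) ^ (101 / 1000 : ℝ) ≤ 2 ^ 399 := by
    refine le_of_mul_le_mul_right ?_ h8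
    calc _ = (99 / 100 : ℝ) ^ 200 * ((J : ℝ) ^ (199899 / 1000 : ℝ)
          * (J : ℝ) ^ (101 / 1000 : ℝ)) := by ring
      _ ≤ _ := h5
  have h10 : (0 : ℝ) < (99 / 100 : ℝ) ^ 200 := by positivity
  rw [div_lt_iff₀ h10, mul_comm] at hJr
  exact absurd h9 (not_le.2 hJr)

theorem sum_card_sq (S : Finset ℕ) (h0 : 0 ∉ S) :
    ((S.card : ℝ)) ^ 2 / 8 ≤ ∑ p ∈ S, (p : ℝ) := by
  classical
  rcases Nat.lt_or_ge S.card 2 with hc | hc
  · rcases Nat.eq_zero_or_pos S.card with h | h
    · rw [h]; simp; positivity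
    · have h1 : S.card = 1 := by omega
      obtain ⟨x, rfl⟩ := Finset.card_eq_one.1 h1
      have : x ≠ 0 := by
        intro h; apply h0; simp [h]
      have h2 : (1 : ℝ) ≤ x := by exact_mod_cast Nat.one_le_iff_ne_zero.2 this
      simp
      linarith
  · set Z := S.card / 2 with hZ
    have h1 : (S.filter (fun p => p ≤ Z)).card ≤ Z := by
      have hsub : S.filter (fun p => p ≤ Z) ⊆ Finset.Icc 1 Z := by
        intro p hp
        rw [Finset.mem_filter] at hp
        rw [Finset.mem_Icc]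
        refine ⟨Nat.one_le_iff_ne_zero.2 ?_, hp.2⟩
        rintro rfl
        exact h0 hp.1
      have := Finset.card_le_card hsub
      rwa [Nat.card_Icc, Nat.add_sub_cancel] at this
    have h2 := Finset.card_filter_add_card_filter_not (s := S) (fun p => p ≤ Z)
    have h3 : S.card - Z ≤ (S.filter (fun p => ¬ p ≤ Z)).card := by omega
    have h4 : ∑ p ∈ S.filter (fun p => ¬ p ≤ Z), (Z + 1 : ℝ) ≤ ∑ p ∈ S, (p : ℝ) := by
      calc ∑ p ∈ S.filter (fun p => ¬ p ≤ Z), (Z + 1 : ℝ)
          ≤ ∑ p ∈ S.filter (fun p => ¬ p ≤ Z), (p : ℝ) := by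
            refine Finset.sum_le_sum fun p hp => ?_
            rw [Finset.mem_filter] at hp
            exact_mod_cast (by omega : Z + 1 ≤ p)
        _ ≤ _ := Finset.sum_le_sum_of_subset_of_nonneg (Finset.filter_subset _ _)
            (fun p _ _ => by positivity)
    rw [Finset.sum_const, nsmul_eq_mul] at h4
    refine le_trans ?_ h4
    have h5 : (S.card : ℝ) / 2 ≤ ((S.filter (fun p => ¬ p ≤ Z)).card : ℝ) := by
      have : S.card ≤ 2 * (S.filter (fun p => ¬ p ≤ Z)).card := by omega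
      have : (S.card : ℝ) ≤ 2 * ((S.filter (fun p => ¬ p ≤ Z)).card : ℝ) := by exact_mod_cast this
      linarith
    have h6 : (S.card : ℝ) / 2 ≤ (Z : ℝ) + 1 := by
      have : S.card ≤ 2 * (Z + 1) := by omega
      have : (S.card : ℝ) ≤ 2 * ((Z : ℝ) + 1) := by exact_mod_cast this
      linarith
    have h7 : (0 : ℝ) ≤ (S.card : ℝ) / 2 := by positivity
    calc (S.card : ℝ) ^ 2 / 8 ≤ ((S.card : ℝ) / 2) * ((S.card : ℝ) / 2) := by nlinarith
      _ ≤ _ := mul_le_mul h5 h6 h7 (by positivity)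

theorem pi_lower : ∃ X0 : ℕ, ∀ X : ℕ, X0 ≤ X →
    (X : ℝ) / (2 * Real.log X) ≤ Nat.primeCounting X := by
  have h := Real.isLittleO_log_id_atTop
  have h1 := (h.bound (by norm_num : (0 : ℝ) < 1 / 12))
  have h2 := h1.and (eventually_ge_atTop (3 : ℝ))
  obtain ⟨x0, hx0⟩ := Filter.eventually_atTop.1 h2
  refine ⟨Nat.ceil x0 + 3, fun X hX => ?_⟩
  have hXx : x0 ≤ (X : ℝ) + 1 := by
    have : (Nat.ceil x0 : ℝ) ≤ X := by exact_mod_cast (by omega : Nat.ceil x0 ≤ X)
    linarith [Nat.le_ceil x0]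
  obtain ⟨h3, -⟩ := hx0 ((X : ℝ) + 1) hXx
  have hX3 : (3 : ℝ) ≤ X := by exact_mod_cast (by omega : 3 ≤ X)
  have hlog0 : 0 ≤ Real.log ((X : ℝ) + 1) := Real.log_nonneg (by linarith)
  rw [Real.norm_of_nonneg hlog0, id, Real.norm_of_nonneg (by linarith)] at h3
  have hlogX : 0 < Real.log X := Real.log_pos (by linarith)
  refine le_trans ?_ (Chebyshev.pi_ge X)
  rw [div_le_div_iff₀ (by positivity) hlogX]
  have hl2 := Real.log_two_gt_d9
  have : (X : ℝ) ≤ (X * Real.log 2 - Real.log (X + 1)) * 2 := by nlinarith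
  calc (X : ℝ) * Real.log X ≤ ((X * Real.log 2 - Real.log (X + 1)) * 2) * Real.log X :=
        mul_le_mul_of_nonneg_right this hlogX.le
    _ = _ := by ring

theorem sum_primes_large : ∃ J0 : ℕ, ∀ J : ℕ, J0 ≤ J → ∀ n : ℕ, IsMode n J → SwapProp n J →
    (J : ℝ) ^ (1001 / 1000 : ℝ) ≤ ∑ p ∈ n.primeFactors, (p : ℝ) := by
  obtain ⟨J1, hJ1⟩ := small_primes
  obtain ⟨X0, hX0⟩ := pi_lower
  have hlog := (isLittleO_log_rpow_atTop (by norm_num : (0 : ℝ) < 1 / 2000)).bound
    (by norm_num : (0 : ℝ) < 1 / 12)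
  have htend := tendsto_rpow_atTop (by norm_num : (0 : ℝ) < 501 / 1000)
  have hev := hlog.and ((htend.eventually (eventually_ge_atTop ((X0 : ℝ) + 4))).and
    (eventually_ge_atTop (1 : ℝ)))
  obtain ⟨x0, hx0⟩ := Filter.eventually_atTop.1 hev
  refine ⟨max J1 (Nat.ceil x0), fun J hJ n hm hs => ?_⟩
  have hJa : J1 ≤ J := le_trans (le_max_left _ _) hJ
  have hJb : x0 ≤ (J : ℝ) := by
    have : Nat.ceil x0 ≤ J := le_trans (le_max_right _ _) hJ
    exact (Nat.le_ceil x0).trans (by exact_mod_cast this)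
  obtain ⟨h1, h2, h3⟩ := hx0 (J : ℝ) hJb
  have hJ0 : (0 : ℝ) < J := by linarith
  set R := (J : ℝ) ^ (501 / 1000 : ℝ) with hR
  set X := Nat.floor R with hX
  have hXR : (X : ℝ) ≤ R := Nat.floor_le (by linarith)
  have hXR2 : R < (X : ℝ) + 1 := Nat.lt_floor_add_one R
  have hXX0 : X0 ≤ X := by
    have : (X0 : ℝ) ≤ X := by linarith
    exact_mod_cast this
  have hX3 : (3 : ℝ) ≤ X := by
    have : (0 : ℝ) ≤ X0 := by positivity
    linarith
  have hpi := hX0 X hXX0
  have hsub : Nat.primesLE X ⊆ n.primeFactors := by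
    intro p hp
    rw [Nat.mem_primesLE] at hp
    refine hJ1 J hJa n hm hs p hp.2 ?_
    exact le_trans (by exact_mod_cast hp.1) hXR
  have hsum : ∑ p ∈ Nat.primesLE X, (p : ℝ) ≤ ∑ p ∈ n.primeFactors, (p : ℝ) :=
    Finset.sum_le_sum_of_subset_of_nonneg hsub (fun p _ _ => by positivity)
  refine le_trans ?_ hsum
  have h0 : 0 ∉ Nat.primesLE X := by
    rw [Nat.mem_primesLE]
    intro h
    exact Nat.not_prime_zero h.2
  refine le_trans ?_ (sum_card_sq _ h0)
  rw [Nat.primesLE_card_eq_primeCounting]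
  have hlogX : 0 < Real.log X := Real.log_pos (by linarith)
  have hlogJ : Real.log X ≤ Real.log J := by
    refine Real.log_le_log (by linarith) ?_
    calc (X : ℝ) ≤ R := hXR
      _ ≤ (J : ℝ) ^ (1 : ℝ) := Real.rpow_le_rpow_of_exponent_le h3 (by norm_num)
      _ = J := Real.rpow_one _
  rw [Real.norm_of_nonneg (le_trans hlogX.le hlogJ),
    Real.norm_of_nonneg (Real.rpow_nonneg hJ0.le _)] at h1
  set L := (J : ℝ) ^ (1 / 2000 : ℝ) with hL
  have hL0 : 0 < L := Real.rpow_pos_of_pos hJ0 _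
  have h4 : R / 2 / (2 * (1 / 12 * L)) ≤ (Nat.primeCounting X : ℝ) := by
    refine le_trans ?_ hpi
    have : R / 2 ≤ X := by linarith
    refine div_le_div₀ (by positivity) this (by positivity) ?_
    linarith
  have h5 : 3 * (R / L) ≤ (Nat.primeCounting X : ℝ) := by
    refine le_trans (le_of_eq ?_) h4
    field_simp
    ring
  have hR0 : 0 < R := by linarith
  have h6 : (R / L) ^ 2 = (J : ℝ) ^ (1001 / 1000 : ℝ) := by
    rw [hR, hL, ← Real.rpow_sub hJ0, ← Real.rpow_natCast, ← Real.rpow_mul hJ0.le]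
    norm_num
  rw [← h6]
  have h7 : 0 < R / L := by positivity
  nlinarith

end Pool.Agent.Lib.MP_9f8414_nt
end

section

/-!
# The sequence `v_j = 2^{-j} S_j(n)`
-/

namespace Pool.Agent.Lib.MP_9f8414_nt

open ArithmeticFunction Finset Filter

theorem v_eq_prod (j : ℕ) {n : ℕ} (hn : n ≠ 0) {P : Finset ℕ} (hP : n.primeFactors ⊆ P) :
    v j n = (∏ p ∈ P, A (1 / (p : ℝ)) j (n.factorization p)) / 2 ^ j := by
  unfold v
  rw [Sn_eq_prod' j hn hP]
  have : (n : ℝ) ≠ 0 := by exact_mod_cast hn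
  field_simp

theorem t_pos {n p : ℕ} (hp : p ∈ n.primeFactors) : 0 < 1 / (p : ℝ) := by
  have := (Nat.prime_of_mem_primeFactors hp).pos
  positivity

theorem v_pos (j : ℕ) {n : ℕ} (hn : n ≠ 0) : 0 < v j n := by
  rw [v_eq_prod j hn (le_refl _)]
  refine div_pos (Finset.prod_pos fun p hp => ?_) (by positivity)
  linarith [A_pos (t_pos hp) j (n.factorization p)]

theorem v_logconcave (j : ℕ) {n : ℕ} (hn : n ≠ 0) :
    v j n * v (j + 2) n ≤ v (j + 1) n ^ 2 := by
  rw [v_eq_prod j hn (le_refl _), v_eq_prod (j + 1) hn (le_refl _), v_eq_prod (j + 2) hn (le_refl _)]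
  rw [div_mul_div_comm, div_pow, ← Finset.prod_mul_distrib, ← Finset.prod_pow]
  have e : (2 : ℝ) ^ j * 2 ^ (j + 2) = (2 ^ (j + 1)) ^ 2 := by
    rw [← pow_mul, ← pow_add]; congr 1; ring
  rw [e]
  refine div_le_div_of_nonneg_right ?_ (by positivity)
  refine Finset.prod_le_prod (fun p hp => ?_) (fun p hp => A_logconcave (t_pos hp) _ _)
  have h1 := A_pos (t_pos hp) j (n.factorization p)
  have h2 := A_pos (t_pos hp) (j + 2) (n.factorization p)
  positivity

theorem prod_one_sub_ge {ι : Type*} (s : Finset ι) (x : ι → ℝ) (h0 : ∀ i ∈ s, 0 ≤ x i)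
    (h1 : ∀ i ∈ s, x i ≤ 1) : 1 - ∑ i ∈ s, x i ≤ ∏ i ∈ s, (1 - x i) := by
  classical
  induction s using Finset.induction_on with
  | empty => simp
  | insert i s his ih =>
    rw [Finset.prod_insert his, Finset.sum_insert his]
    have hxi : 0 ≤ x i := h0 i (Finset.mem_insert_self _ _)
    have hxi1 : x i ≤ 1 := h1 i (Finset.mem_insert_self _ _)
    have ih' := ih (fun k hk => h0 k (Finset.mem_insert_of_mem hk))
      (fun k hk => h1 k (Finset.mem_insert_of_mem hk))
    have hs : 0 ≤ ∑ i ∈ s, x i := Finset.sum_nonneg fun k hk => h0 k (Finset.mem_insert_of_mem hk)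
    calc 1 - (x i + ∑ i ∈ s, x i) ≤ (1 - x i) * (1 - ∑ i ∈ s, x i) := by nlinarith
      _ ≤ _ := mul_le_mul_of_nonneg_left ih' (by linarith)

theorem prod_one_sub_le {ι : Type*} (s : Finset ι) (x : ι → ℝ)
    (h1 : ∀ i ∈ s, x i ≤ 1) : ∏ i ∈ s, (1 - x i) ≤ Real.exp (-∑ i ∈ s, x i) := by
  rw [← Finset.sum_neg_distrib, Real.exp_sum]
  refine Finset.prod_le_prod (fun i hi => by linarith [h1 i hi]) (fun i _ => ?_)
  have := Real.add_one_le_exp (-x i)
  linarith

/-- normalised excess -/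
noncomputable def E (n j p : ℕ) : ℝ :=
  Esum (1 / (p : ℝ)) j (n.factorization p) / A (1 / (p : ℝ)) j (n.factorization p)
    / (j + n.factorization p)

theorem E_nonneg {n j p : ℕ} (hp : p ∈ n.primeFactors) : 0 ≤ E n j p := by
  unfold E
  have h1 := Esum_nonneg (t_pos hp) j (n.factorization p)
  have h2 := A_pos (t_pos hp) j (n.factorization p)
  positivity

theorem E_le_one {n j p : ℕ} (hj : 1 ≤ j) (hp : p ∈ n.primeFactors) : E n j p ≤ 1 := by
  unfold E
  have h1 := Esum_le (t_pos hp) j (n.factorization p)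
  have h2 := A_pos (t_pos hp) j (n.factorization p)
  have hj' : (1 : ℝ) ≤ j := by exact_mod_cast hj
  have h3 : (0 : ℝ) ≤ n.factorization p := by positivity
  rw [div_le_one (by linarith), div_le_iff₀ (by linarith)]
  nlinarith

theorem A_left_eq {n j p : ℕ} (hj : 1 ≤ j) (hp : p ∈ n.primeFactors) :
    A (1 / (p : ℝ)) (j + 1) (n.factorization p)
      = (1 + (n.factorization p : ℝ) / j) * (1 - E n j p)
        * A (1 / (p : ℝ)) j (n.factorization p) := by
  have h := A_left (1 / (p : ℝ)) j (n.factorization p)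
  have h2 := A_pos (t_pos hp) j (n.factorization p)
  have hj' : (1 : ℝ) ≤ j := by exact_mod_cast hj
  have h3 : (0 : ℝ) ≤ n.factorization p := by positivity
  unfold E
  set X := A (1 / (p : ℝ)) j (n.factorization p) with hX
  set Y := A (1 / (p : ℝ)) (j + 1) (n.factorization p) with hY
  set Z := Esum (1 / (p : ℝ)) j (n.factorization p) with hZ
  set α : ℝ := ((n.factorization p : ℕ) : ℝ) with hα
  have hX0 : X ≠ 0 := by linarith
  have hj0 : (j : ℝ) ≠ 0 := by linarith
  have hs0 : (j : ℝ) + α ≠ 0 := by linarith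
  have e : (1 + α / j) * (1 - Z / X / (j + α)) * X = ((j + α) * X - Z) / j := by
    field_simp
  rw [e, ← h]
  field_simp

theorem v_succ {n j : ℕ} (hj : 1 ≤ j) (hn : n ≠ 0) :
    v (j + 1) n = Fn n j / 2 * (∏ p ∈ n.primeFactors, (1 - E n j p)) * v j n := by
  rw [v_eq_prod (j + 1) hn (le_refl _), v_eq_prod j hn (le_refl _), Fn]
  have : ∏ p ∈ n.primeFactors, A (1 / (p : ℝ)) (j + 1) (n.factorization p)
      = (∏ p ∈ n.primeFactors, (1 + (n.factorization p : ℝ) / j))
        * (∏ p ∈ n.primeFactors, (1 - E n j p))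
        * ∏ p ∈ n.primeFactors, A (1 / (p : ℝ)) j (n.factorization p) := by
    rw [← Finset.prod_mul_distrib, ← Finset.prod_mul_distrib]
    exact Finset.prod_congr rfl fun p hp => A_left_eq hj hp
  rw [this, pow_succ]
  ring

theorem Fn_nonneg (n j : ℕ) : 0 ≤ Fn n (j : ℝ) := Finset.prod_nonneg fun p _ => by positivity

theorem prod_E_le_one {n j : ℕ} (hj : 1 ≤ j) : ∏ p ∈ n.primeFactors, (1 - E n j p) ≤ 1 :=
  Finset.prod_le_one (fun p hp => by linarith [E_le_one hj hp]) (fun p hp => by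
    linarith [E_nonneg (j := j) hp])

theorem prod_E_nonneg {n j : ℕ} (hj : 1 ≤ j) : 0 ≤ ∏ p ∈ n.primeFactors, (1 - E n j p) :=
  Finset.prod_nonneg (fun p hp => by linarith [E_le_one hj hp])

theorem v_succ_le {n j : ℕ} (hj : 1 ≤ j) (hn : n ≠ 0) :
    v (j + 1) n ≤ Fn n j / 2 * v j n := by
  rw [v_succ hj hn]
  refine mul_le_mul_of_nonneg_right ?_ (v_nonneg _ _)
  have h1 := prod_E_le_one (n := n) hj
  have h2 := Fn_nonneg n j
  nlinarith

/-- The regime hypothesis used for `v`. -/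
def Regime (n J : ℕ) : Prop := ∀ p ∈ n.primeFactors, ∀ j ∈ W J, (n.factorization p : ℝ)
      ≤ 97 / 100 * (1 / p) * (n.factorization p - 1 + j)

theorem E_upper {n J j p : ℕ} (hJ : 1 ≤ J) (hR : Regime n J) (hj : j ∈ W J)
    (hp : p ∈ n.primeFactors) : E n j p ≤ 1078 / j := by
  have hj1 := one_le_of_mem_W hJ hj
  have h := hR p hp j hj
  have h1 := Esum_le_const (t_pos hp) hj1 (q := 97 / 100) (by norm_num) (by norm_num) h
  have h2 := A_ge_c (t_pos hp) j (n.factorization p)
  have h3 := A_pos (t_pos hp) j (n.factorization p)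
  have hj' : (1 : ℝ) ≤ j := by exact_mod_cast hj1
  have h4 : (0 : ℝ) ≤ n.factorization p := by positivity
  unfold E
  rw [div_le_div_iff₀ (by linarith) (by linarith)]
  have h5 : Esum (1 / (p : ℝ)) j (n.factorization p) / A (1 / (p : ℝ)) j (n.factorization p)
      ≤ 1078 := by
    rw [div_le_iff₀ (by linarith)]
    refine h1.trans ?_
    have h6 : (97 / 100 : ℝ) / (1 - 97 / 100) ^ 2 ≤ 1078 := by norm_num
    have h7 := c_nonneg (t_pos hp) j (n.factorization p)
    nlinarith
  have h8 : 0 ≤ Esum (1 / (p : ℝ)) j (n.factorization p) / A (1 / (p : ℝ)) j (n.factorization p) := by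
    have := Esum_nonneg (t_pos hp) j (n.factorization p)
    positivity
  nlinarith

theorem E_lower {n J j p : ℕ} (hJ : 1 ≤ J) (hR : Regime n J) (hj : j ∈ W J)
    (hp : p ∈ n.primeFactors) (hn : n ≠ 0) :
    3 / 100 * p / (j * (j + n.factorization p)) ≤ E n j p := by
  have hj1 := one_le_of_mem_W hJ hj
  have h := hR p hp j hj
  have hα : 1 ≤ n.factorization p :=
    ((Nat.prime_of_mem_primeFactors hp).dvd_iff_one_le_factorization hn).1
      (Nat.dvd_of_mem_primeFactors hp)
  have h1 := Esum_ge (t_pos hp) hj1 hα (q0 := 97 / 100) (by norm_num) h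
  have h3 := A_pos (t_pos hp) j (n.factorization p)
  have hj' : (1 : ℝ) ≤ j := by exact_mod_cast hj1
  have h4 : (0 : ℝ) ≤ n.factorization p := by positivity
  have hp0 : (0 : ℝ) < p := by exact_mod_cast (Nat.prime_of_mem_primeFactors hp).pos
  unfold E
  have h5 : 3 / 100 * (p : ℝ) / j
      ≤ Esum (1 / (p : ℝ)) j (n.factorization p) / A (1 / (p : ℝ)) j (n.factorization p) := by
    rw [le_div_iff₀ (by linarith)]
    refine le_trans (le_of_eq ?_) h1
    field_simp
    ring
  calc 3 / 100 * (p : ℝ) / (j * (j + n.factorization p))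
      = (3 / 100 * (p : ℝ) / j) / (j + n.factorization p) := by
        rw [div_div]
    _ ≤ _ := div_le_div_of_nonneg_right h5 (by linarith)

theorem tail_v : ∃ J0 : ℕ, ∀ J : ℕ, J0 ≤ J → ∀ n : ℕ, IsMode n J → Regime n J →
    (10 : ℝ) ^ 8 * n.primeFactors.card ≤ J →
    BB n ≤ (1 + 1 / J) * ∑ j ∈ W J, v j n := by
  obtain ⟨J0, hJ0⟩ := tail_general
  refine ⟨max J0 10000000, fun J hJ n hmode hR hω => ?_⟩
  have hJ1 : J0 ≤ J := le_trans (le_max_left _ _) hJ
  have hJ2 : 10000000 ≤ J := le_trans (le_max_right _ _) hJ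
  have hn0 : n ≠ 0 := hmode.1
  have hJ2' : (10000000 : ℝ) ≤ J := by exact_mod_cast hJ2
  refine hJ0 J hJ1 (fun j => v j n) (fun j => v_nonneg j n) (summable_v hn0) ?_ ?_
  · intro j hj
    have hj' : 2499 * j ≥ 2500 * (J + 1) := by omega
    have hj'' : (2499 : ℝ) * j ≥ 2500 * (J + 1) := by exact_mod_cast hj'
    have hj1 : 1 ≤ j := by omega
    have hjr : (J : ℝ) + 1 ≤ j := by nlinarith
    have hj0 : (0 : ℝ) < j := by positivity
    refine (v_succ_le hj1 hn0).trans ?_
    refine mul_le_mul_of_nonneg_right ?_ (v_nonneg _ _)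
    have h1 := Fn_le_upper hmode hjr
    have h2 : ((J : ℝ) + 1) / j ≤ 2499 / 2500 := by
      rw [div_le_div_iff₀ hj0 (by norm_num)]
      linarith
    linarith
  · -- at j1
    set j1 := J - J / 1000 / 2 with hj1def
    have hj1W : j1 ∈ W J := by rw [mem_W]; omega
    have hj1pos : 1 ≤ j1 := by omega
    have hj1r : (0 : ℝ) < j1 := by exact_mod_cast hj1pos
    have hj1J : (j1 : ℝ) ≤ J := by exact_mod_cast (by omega : j1 ≤ J)
    have hj1b := (W_bounds hj1W).1
    have hbase : v j1 n ≤ (4999 / 5000) * v (j1 + 1) n := by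
      rw [v_succ hj1pos hn0]
      have h1 := Fn_ge_lower hmode hj1r hj1J
      have h2 : 1 - 1 / 50000 ≤ ∏ p ∈ n.primeFactors, (1 - E n j1 p) := by
        refine le_trans ?_ (prod_one_sub_ge _ _ (fun p hp => E_nonneg hp)
          (fun p hp => E_le_one hj1pos hp))
        have h3 : ∑ p ∈ n.primeFactors, E n j1 p ≤ ∑ _p ∈ n.primeFactors, 1078 / (j1 : ℝ) :=
          Finset.sum_le_sum fun p hp => E_upper hmode.2.1 hR hj1W hp
        rw [Finset.sum_const, nsmul_eq_mul] at h3
        have h4 : (n.primeFactors.card : ℝ) * (1078 / j1) ≤ 1 / 50000 := by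
          rw [← mul_div_assoc, div_le_div_iff₀ hj1r (by norm_num)]
          linarith
        linarith
      have h5 : 1 + 1 / 2001 ≤ (J : ℝ) / j1 := by
        rw [le_div_iff₀ hj1r]
        have : 2002 * j1 ≤ 2001 * J := by omega
        have : (2002 : ℝ) * j1 ≤ 2001 * J := by exact_mod_cast this
        linarith
      have hv := v_nonneg j1 n
      have h6 : 1 ≤ 4999 / 5000 * (Fn n j1 / 2 * ∏ p ∈ n.primeFactors, (1 - E n j1 p)) := by
        have h7 : (1 + 1 / 4002 : ℝ) ≤ Fn n j1 / 2 := by linarith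
        have h8 : (1 + 1 / 4002 : ℝ) * (1 - 1 / 50000)
            ≤ Fn n j1 / 2 * ∏ p ∈ n.primeFactors, (1 - E n j1 p) :=
          mul_le_mul h7 h2 (by norm_num) (by linarith)
        norm_num at h8
        linarith
      nlinarith [mul_le_mul_of_nonneg_right h6 hv]
    -- propagate downwards
    have hprop : ∀ i, i ≤ j1 → v (j1 - i) n ≤ (4999 / 5000) * v (j1 - i + 1) n := by
      intro i
      induction i with
      | zero => intro _; simpa using hbase
      | succ i ih =>
        intro hi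
        have ih' := ih (by omega)
        obtain ⟨j, hj⟩ : ∃ j, j1 - (i + 1) = j := ⟨_, rfl⟩
        have e1 : j1 - i = j + 1 := by omega
        rw [e1] at ih'
        rw [hj]
        have hlc := v_logconcave j hn0
        have p2 := v_pos (j + 2) hn0
        have p1 := v_pos (j + 1) hn0
        have e2 : j + 1 + 1 = j + 2 := rfl
        rw [e2] at ih'
        refine le_of_mul_le_mul_right ?_ p2
        calc v j n * v (j + 2) n ≤ v (j + 1) n ^ 2 := hlc
          _ = v (j + 1) n * v (j + 1) n := by ring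
          _ ≤ v (j + 1) n * (4999 / 5000 * v (j + 2) n) := mul_le_mul_of_nonneg_left ih' p1.le
          _ = _ := by ring
    intro j hj
    have := hprop (j1 - j) (by omega)
    have e : j1 - (j1 - j) = j := by omega
    rw [e] at this
    exact this

/-- the slope of `v_j / w_j` -/
theorem slope : ∃ J0 : ℕ, ∀ J : ℕ, J0 ≤ J → ∀ n : ℕ, IsMode n J → Regime n J →
    (∀ p ∈ n.primeFactors, (n.factorization p : ℝ) ≤ 58 / 100 * J) →
    (J : ℝ) ^ (1001 / 1000 : ℝ) ≤ ∑ p ∈ n.primeFactors, (p : ℝ) →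
    ∀ j ∈ W J, v (j + 1) n * w j n ≤
      Real.exp (-(J : ℝ) ^ (-(9991 / 10000) : ℝ)) * (w (j + 1) n * v j n) := by
  have htend := tendsto_rpow_atTop (by norm_num : (0 : ℝ) < 1 / 10000)
  obtain ⟨x0, hx0⟩ := Filter.eventually_atTop.1 (htend.eventually (eventually_ge_atTop (60 : ℝ)))
  refine ⟨Nat.ceil x0 + 1, fun J hJ n hmode hR hα hT j hj => ?_⟩
  have hJb : x0 ≤ (J : ℝ) := by
    have : Nat.ceil x0 ≤ J := by omega
    exact (Nat.le_ceil x0).trans (by exact_mod_cast this)
  have h60 := hx0 (J : ℝ) hJb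
  have hJ0 : (0 : ℝ) < J := by exact_mod_cast (by omega : 0 < J)
  have hn0 := hmode.1
  have hj1 := one_le_of_mem_W hmode.2.1 hj
  obtain ⟨hb1, hb2⟩ := W_bounds hj
  have hj0 : (0 : ℝ) < j := by exact_mod_cast hj1
  rw [v_succ hj1 hn0, w_succ hj1 hn0]
  have hprod : ∏ p ∈ n.primeFactors, (1 - E n j p)
      ≤ Real.exp (-(J : ℝ) ^ (-(9991 / 10000) : ℝ)) := by
    refine (prod_one_sub_le _ _ (fun p hp => E_le_one hj1 hp)).trans ?_
    rw [Real.exp_le_exp, neg_le_neg_iff]
    have h1 : ∑ p ∈ n.primeFactors, (3 / 160 * (p : ℝ) / J ^ 2) ≤ ∑ p ∈ n.primeFactors, E n j p := by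
      refine Finset.sum_le_sum fun p hp => ?_
      refine le_trans ?_ (E_lower hmode.2.1 hR hj hp hn0)
      have hp0 : (0 : ℝ) ≤ p := by positivity
      have hαp := hα p hp
      have hα0 : (0 : ℝ) ≤ n.factorization p := by positivity
      rw [div_le_div_iff₀ (by positivity) (by positivity)]
      have h2 : (j : ℝ) * (j + n.factorization p) ≤ 16 / 10 * J ^ 2 := by
        have h3 : (j : ℝ) + n.factorization p ≤ 1581 / 1000 * J := by linarith
        have h4 : (j : ℝ) * (j + n.factorization p) ≤ (1001 / 1000 * J) * (1581 / 1000 * J) :=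
          mul_le_mul hb2 h3 (by positivity) (by positivity)
        nlinarith [sq_nonneg (J : ℝ)]
      have h5 := mul_le_mul_of_nonneg_left h2 hp0
      nlinarith
    refine le_trans ?_ h1
    rw [← Finset.sum_div, ← Finset.mul_sum]
    rw [le_div_iff₀ (by positivity)]
    have h3 : (J : ℝ) ^ (-(9991 / 10000) : ℝ) * (J : ℝ) ^ 2 = (J : ℝ) ^ (10009 / 10000 : ℝ) := by
      rw [← Real.rpow_natCast, ← Real.rpow_add hJ0]; norm_num
    have h4 : (J : ℝ) ^ (1001 / 1000 : ℝ)
        = (J : ℝ) ^ (10009 / 10000 : ℝ) * (J : ℝ) ^ (1 / 10000 : ℝ) := by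
      rw [← Real.rpow_add hJ0]; norm_num
    rw [h3]
    have h5 : 0 < (J : ℝ) ^ (10009 / 10000 : ℝ) := Real.rpow_pos_of_pos hJ0 _
    rw [h4] at hT
    nlinarith
  have h1 := Fn_nonneg n j
  have h2 := v_nonneg j n
  have h3 := w_nonneg j n
  calc Fn n j / 2 * (∏ p ∈ n.primeFactors, (1 - E n j p)) * v j n * w j n
      = (∏ p ∈ n.primeFactors, (1 - E n j p)) * (Fn n j / 2 * w j n * v j n) := by ring
    _ ≤ Real.exp (-(J : ℝ) ^ (-(9991 / 10000) : ℝ)) * (Fn n j / 2 * w j n * v j n) :=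
        mul_le_mul_of_nonneg_right hprod (by positivity)

end Pool.Agent.Lib.MP_9f8414_nt
end

section

/-!
# Lower bounds for the logarithm of `G(N x) / G(N y)`
-/

namespace Pool.Agent.Lib.MP_9f8414_nt

open ArithmeticFunction Finset Filter

/-- abstract one-prime estimate -/
theorem step_lower_bound {φ l : ℕ → ℝ} {τ C : ℝ} {α x y K0 : ℕ} (hanti : Antitone l)
    (hdiff : ∀ k m : ℕ, l k - l (k + m) ≤ m / (k + 1))
    (hlow : ∀ k, l k + τ ≤ φ (k + 1) - φ k)
    (hup : ∀ k, k < α → K0 ≤ k + 1 → φ (k + 1) - φ k ≤ l k + τ + C / (k + 1))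
    (hC : 0 ≤ C) (hy : 2 * y ≤ α) (hK : 2 * K0 ≤ α) (hα : 1 ≤ α) :
    ((x : ℝ) - y) * (l α + τ) - (2 + 2 * C) * ((x : ℝ) ^ 2 + (y : ℝ) ^ 2) / α
      ≤ φ (α - y + x) - φ α := by
  have hαr : (1 : ℝ) ≤ α := by exact_mod_cast hα
  have hyr : 2 * (y : ℝ) ≤ α := by exact_mod_cast hy
  -- upward part
  have h1 : ∀ i, i ≤ x → (i : ℝ) * (l (α + x) + τ) ≤ φ (α - y + i) - φ (α - y) := by
    intro i
    induction i with
    | zero => intro _; simp
    | succ i ih =>
      intro hi
      have ih' := ih (by omega)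
      have h2 := hlow (α - y + i)
      have h3 : l (α + x) ≤ l (α - y + i) := hanti (by omega)
      have e : α - y + (i + 1) = α - y + i + 1 := by omega
      rw [e]
      push_cast
      linarith
  have h1' := h1 x le_rfl
  have h2 : ∀ i, i ≤ y → φ (α - y + i) - φ (α - y)
      ≤ (i : ℝ) * (l (α - y) + τ + C / ((α - y : ℕ) + 1)) := by
    intro i
    induction i with
    | zero => intro _; simp
    | succ i ih =>
      intro hi
      have ih' := ih (by omega)
      have h2 := hup (α - y + i) (by omega) (by omega)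
      have h3 : l (α - y + i) ≤ l (α - y) := hanti (by omega)
      have h4 : C / (((α - y + i : ℕ) : ℝ) + 1) ≤ C / (((α - y : ℕ) : ℝ) + 1) := by
        refine div_le_div_of_nonneg_left hC (by positivity) ?_
        push_cast
        have : (0 : ℝ) ≤ i := by positivity
        linarith
      have e : α - y + (i + 1) = α - y + i + 1 := by omega
      rw [e]
      push_cast at h2 h4 ⊢
      linarith
  have h2' := h2 y le_rfl
  have e1 : α - y + y = α := by omega
  rw [e1] at h2'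
  have d1 := hdiff α x
  have d2 := hdiff (α - y) y
  rw [e1] at d2
  have e2 : ((α - y : ℕ) : ℝ) = α - y := by rw [Nat.cast_sub (by omega)]
  rw [e2] at d2 h2'
  have hden : (α : ℝ) / 2 ≤ (α : ℝ) - y + 1 := by linarith
  have hden0 : (0 : ℝ) < (α : ℝ) / 2 := by linarith
  have b1 : (x : ℝ) / (α + 1) ≤ x / α :=
    div_le_div_of_nonneg_left (by positivity) (by linarith) (by linarith)
  have b2 : (y : ℝ) / ((α : ℝ) - y + 1) ≤ y / (α / 2) :=
    div_le_div_of_nonneg_left (by positivity) hden0 hden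
  have b3 : C / ((α : ℝ) - y + 1) ≤ C / (α / 2) :=
    div_le_div_of_nonneg_left hC hden0 hden
  have hx0 : (0 : ℝ) ≤ x := by positivity
  have hy0 : (0 : ℝ) ≤ y := by positivity
  have c1 : (x : ℝ) * (l (α + x) + τ) ≥ x * (l α + τ) - x * (x / α) := by
    have := mul_le_mul_of_nonneg_left (d1.trans b1) hx0
    linarith
  have c2 : (y : ℝ) * (l (α - y) + τ + C / ((α : ℝ) - y + 1))
      ≤ y * (l α + τ) + y * (y / (α / 2)) + y * (C / (α / 2)) := by
    have t1 := mul_le_mul_of_nonneg_left (d2.trans b2) hy0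
    have t2 := mul_le_mul_of_nonneg_left b3 hy0
    linarith
  have hyy : (y : ℝ) ≤ (y : ℝ) ^ 2 := by
    rcases Nat.eq_zero_or_pos y with h | h
    · subst h; simp
    · have : (1 : ℝ) ≤ y := by exact_mod_cast h
      nlinarith
  have c3 : (x : ℝ) * (x / α) + y * (y / (α / 2)) + y * (C / (α / 2))
      ≤ (2 + 2 * C) * ((x : ℝ) ^ 2 + (y : ℝ) ^ 2) / α := by
    have e3 : (x : ℝ) * (x / α) + y * (y / (α / 2)) + y * (C / (α / 2))
        = ((x : ℝ) ^ 2 + 2 * (y : ℝ) ^ 2 + 2 * C * y) / α := by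
      field_simp
    rw [e3]
    refine div_le_div_of_nonneg_right ?_ (by linarith)
    have t1 := mul_le_mul_of_nonneg_left hyy hC
    have t2 : 0 ≤ C * (x : ℝ) ^ 2 := by positivity
    nlinarith [sq_nonneg (x : ℝ)]
  linarith

theorem log_r_anti {j : ℕ} (hj : 1 ≤ j) : Antitone fun k => Real.log (r j k) := by
  intro i k hik
  exact Real.log_le_log (r_pos hj k) (r_anti hj hik)

theorem log_r_diff {j : ℕ} (hj : 1 ≤ j) (k m : ℕ) :
    Real.log (r j k) - Real.log (r j (k + m)) ≤ m / (k + 1) := by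
  induction m with
  | zero => simp
  | succ m ih =>
    have h1 : Real.log (r j (k + m)) - Real.log (r j (k + m + 1)) ≤ 1 / (k + 1) := by
      rw [← Real.log_div (r_pos hj _).ne' (r_pos hj _).ne']
      have h2 : r j (k + m) / r j (k + m + 1) ≤ 1 + 1 / (k + 1) := by
        unfold r
        have hj' : (1 : ℝ) ≤ j := by exact_mod_cast hj
        have hm : (0 : ℝ) ≤ m := by positivity
        have hk : (0 : ℝ) ≤ k := by positivity
        push_cast
        rw [div_div_div_eq, div_le_iff₀ (by positivity)]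
        have e : (1 + 1 / ((k : ℝ) + 1)) * (((k : ℝ) + m + 1) * (k + m + 1 + j))
            = ((k : ℝ) + m + 1) * (k + m + 1 + j)
              + ((k : ℝ) + m + 1) / (k + 1) * (k + m + 1 + j) := by
          field_simp
        rw [e]
        have h3 : 1 ≤ ((k : ℝ) + m + 1) / (k + 1) := by
          rw [one_le_div (by positivity)]; linarith
        nlinarith
      have h3 : 0 < r j (k + m) / r j (k + m + 1) := div_pos (r_pos hj _) (r_pos hj _)
      have h4 := Real.log_le_sub_one_of_pos h3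
      linarith
    have e : k + (m + 1) = k + m + 1 := by omega
    rw [e]
    push_cast
    have e2 : ((m : ℝ) + 1) / (k + 1) = m / (k + 1) + 1 / (k + 1) := by ring
    rw [e2]
    linarith

/-- one-prime estimate for `d_j` -/
theorem local_mc {j : ℕ} (hj : 1 ≤ j) {α x y : ℕ} (hy : 2 * y ≤ α) (hα : 1 ≤ α) :
    ((x : ℝ) - y) * Real.log (r j α) - 2 * ((x : ℝ) ^ 2 + (y : ℝ) ^ 2) / α
      ≤ Real.log (Nat.multichoose j (α - y + x)) - Real.log (Nat.multichoose j α) := by
  have hstep : ∀ k, Real.log (Nat.multichoose j (k + 1)) - Real.log (Nat.multichoose j k)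
      = Real.log (r j k) := by
    intro k
    have h1 : (0 : ℝ) < Nat.multichoose j k := by exact_mod_cast mc_pos hj k
    rw [mc_succ_r, Real.log_mul (r_pos hj k).ne' h1.ne']
    ring
  have h := step_lower_bound (φ := fun k => Real.log (Nat.multichoose j k))
    (l := fun k => Real.log (r j k)) (τ := 0) (C := 0) (α := α) (x := x) (y := y) (K0 := 0)
    (log_r_anti hj) (log_r_diff hj) (fun k => by simp only [hstep]; linarith)
    (fun k _ _ => by simp only [hstep]; simp) le_rfl hy (by omega) hα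
  simpa using h

/-- one-prime estimate for `A` -/
theorem local_A {t : ℝ} (ht : 0 < t) (ht1 : t ≤ 1) {j : ℕ} (hj : 1 ≤ j) {α x y : ℕ}
    (hy : 2 * y ≤ α) (hα : 4312 ≤ α) (hreg : (α : ℝ) ≤ 97 / 100 * t * (α - 1 + j)) :
    ((x : ℝ) - y) * (Real.log (r j α) + Real.log t) - 4314 * ((x : ℝ) ^ 2 + (y : ℝ) ^ 2) / α
      ≤ Real.log (A t j (α - y + x)) - Real.log (A t j α) := by
  have hApos : ∀ k, 0 < A t j k := fun k => by linarith [A_pos ht j k]
  have hlow : ∀ k, Real.log (r j k) + Real.log t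
      ≤ Real.log (A t j (k + 1)) - Real.log (A t j k) := by
    intro k
    have h1 := A_step_lower ht hj k
    have e : t * ((k : ℝ) + j) / (k + 1) = r j k * t := by unfold r; ring
    rw [e] at h1
    have h2 := Real.log_le_log (mul_pos (mul_pos (r_pos hj k) ht) (hApos k)) h1
    rw [Real.log_mul (mul_pos (r_pos hj k) ht).ne' (hApos k).ne',
      Real.log_mul (r_pos hj k).ne' ht.ne'] at h2
    linarith
  have hup : ∀ k, k < α → 2156 ≤ k + 1 → Real.log (A t j (k + 1)) - Real.log (A t j k)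
      ≤ Real.log (r j k) + Real.log t + 2156 / (k + 1) := by
    intro k hk hk2
    have hkr : (2156 : ℝ) ≤ (k : ℝ) + 1 := by exact_mod_cast hk2
    have hkα : (k : ℝ) + 1 ≤ α := by exact_mod_cast hk
    have hj' : (1 : ℝ) ≤ j := by exact_mod_cast hj
    have hreg' : (k : ℝ) + 1 ≤ 97 / 100 * t * (k + j) := by
      have h1 : 0 < 1 - 97 / 100 * t := by linarith
      have h2 : (α : ℝ) * (1 - 97 / 100 * t) ≤ 97 / 100 * t * (j - 1) := by linarith
      have h3 : ((k : ℝ) + 1) * (1 - 97 / 100 * t) ≤ α * (1 - 97 / 100 * t) :=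
        mul_le_mul_of_nonneg_right hkα h1.le
      linarith
    have h1 := A_step_upper ht hj (k := k) (q := 97 / 100) (by norm_num) (by norm_num) hreg'
    have e : t * ((k : ℝ) + j) / (k + 1) = r j k * t := by unfold r; ring
    rw [e] at h1
    set z : ℝ := 97 / 100 / (1 - 97 / 100) ^ 2 / ((k : ℝ) + 1) with hz
    have hz0 : 0 ≤ z := by rw [hz]; positivity
    have hz1 : z ≤ 1078 / ((k : ℝ) + 1) := by
      rw [hz]
      refine div_le_div_of_nonneg_right ?_ (by linarith)
      norm_num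
    have hz2 : 1078 / ((k : ℝ) + 1) ≤ 1 / 2 := by
      rw [div_le_div_iff₀ (by linarith) (by norm_num)]
      linarith
    have hz3 : 0 < 1 - z := by linarith
    have h2 := Real.log_le_log (mul_pos hz3 (hApos (k + 1))) h1
    rw [Real.log_mul (mul_pos (r_pos hj k) ht).ne' (hApos k).ne',
      Real.log_mul (r_pos hj k).ne' ht.ne', Real.log_mul hz3.ne' (hApos (k + 1)).ne'] at h2
    have h3 : -(2 * z) ≤ Real.log (1 - z) := by
      have h4 := Real.one_sub_inv_le_log_of_pos hz3
      refine le_trans ?_ h4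
      rw [inv_eq_one_div]
      have h5 : 1 / (1 - z) ≤ 1 + 2 * z := by
        rw [div_le_iff₀ hz3]
        have h51 : 0 ≤ z * (1 - 2 * z) := mul_nonneg hz0 (by linarith)
        calc (1 : ℝ) ≤ 1 + z * (1 - 2 * z) := by linarith
          _ = (1 + 2 * z) * (1 - z) := by ring
      linarith
    have h6 : 2 * z ≤ 2156 / ((k : ℝ) + 1) := by
      have : 2156 / ((k : ℝ) + 1) = 2 * (1078 / ((k : ℝ) + 1)) := by ring
      rw [this]; linarith
    linarith
  have h := step_lower_bound (φ := fun k => Real.log (A t j k))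
    (l := fun k => Real.log (r j k)) (τ := Real.log t) (C := 2156) (α := α) (x := x) (y := y)
    (K0 := 2156) (log_r_anti hj) (log_r_diff hj) hlow hup (by norm_num) hy (by omega) (by omega)
  have e : (2 + 2 * 2156 : ℝ) = 4314 := by norm_num
  rw [e] at h
  exact h

/-- multiplicative function given by local factors -/
noncomputable def Gf (g : ℕ → ℕ → ℝ) (n : ℕ) : ℝ := ∏ p ∈ n.primeFactors, g p (n.factorization p)

theorem Gf_eq (g : ℕ → ℕ → ℝ) (hg : ∀ p, g p 0 = 1) {n : ℕ} {P : Finset ℕ}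
    (hP : n.primeFactors ⊆ P) : Gf g n = ∏ p ∈ P, g p (n.factorization p) := by
  unfold Gf
  refine Finset.prod_subset hP fun p _ hp => ?_
  have : n.factorization p = 0 := by
    rw [← Finsupp.notMem_support_iff]
    simpa using hp
  rw [this, hg]

theorem log_Gf_ratio (g : ℕ → ℕ → ℝ) (hg : ∀ p, g p 0 = 1)
    (hpos : ∀ p k, p.Prime → 0 < g p k) {N x y : ℕ} (hN : N ≠ 0) (hx : x ≠ 0) (hy : y ≠ 0) :
    Real.log (Gf g (N * x) / Gf g (N * y)) = ∑ p ∈ (x * y).primeFactors,
      (Real.log (g p ((N * y).factorization p - y.factorization p + x.factorization p))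
        - Real.log (g p ((N * y).factorization p))) := by
  set P := (N * (x * y)).primeFactors with hP
  have hne : N * (x * y) ≠ 0 := mul_ne_zero hN (mul_ne_zero hx hy)
  have hP1 : (N * x).primeFactors ⊆ P :=
    Nat.primeFactors_mono ⟨y, by ring⟩ hne
  have hP2 : (N * y).primeFactors ⊆ P :=
    Nat.primeFactors_mono ⟨x, by ring⟩ hne
  have hP3 : (x * y).primeFactors ⊆ P := Nat.primeFactors_mono ⟨N, by ring⟩ hne
  have hprime : ∀ p ∈ P, p.Prime := fun p hp => Nat.prime_of_mem_primeFactors hp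
  rw [Gf_eq g hg hP1, Gf_eq g hg hP2, Real.log_div
    (Finset.prod_pos fun p hp => hpos p _ (hprime p hp)).ne'
    (Finset.prod_pos fun p hp => hpos p _ (hprime p hp)).ne',
    Real.log_prod (fun p hp => (hpos p _ (hprime p hp)).ne'),
    Real.log_prod (fun p hp => (hpos p _ (hprime p hp)).ne'), ← Finset.sum_sub_distrib]
  symm
  have hfy : ∀ p, (N * y).factorization p = N.factorization p + y.factorization p := by
    intro p; rw [Nat.factorization_mul hN hy]; rfl
  have hfx : ∀ p, (N * x).factorization p = N.factorization p + x.factorization p := by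
    intro p; rw [Nat.factorization_mul hN hx]; rfl
  have h1 : ∀ p, (N * y).factorization p - y.factorization p + x.factorization p
      = (N * x).factorization p := by
    intro p; rw [hfy, hfx]; omega
  simp only [h1]
  refine Finset.sum_subset hP3 fun p _ hp => ?_
  have h2 : (x * y).factorization p = 0 := by
    rw [← Finsupp.notMem_support_iff]
    simpa using hp
  rw [Nat.factorization_mul hx hy] at h2
  have h3 : x.factorization p + y.factorization p = 0 := h2
  have h4 : (N * x).factorization p = (N * y).factorization p := by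
    rw [hfx, hfy]; omega
  rw [h4, sub_self]

end Pool.Agent.Lib.MP_9f8414_nt
end

section

/-!
# The two almost monotone additive functions
-/

namespace Pool.Agent.Lib.MP_9f8414_nt

open ArithmeticFunction Finset Filter

/-- completely additive function with prescribed values on primes -/
noncomputable def cadd (c : ℕ → ℝ) (x : ℕ) : ℝ := ∑ p ∈ x.primeFactors, (x.factorization p : ℝ) * c p

theorem cadd_eq (c : ℕ → ℝ) {x : ℕ} {P : Finset ℕ} (hP : x.primeFactors ⊆ P) :
    cadd c x = ∑ p ∈ P, (x.factorization p : ℝ) * c p := by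
  unfold cadd
  refine Finset.sum_subset hP fun p _ hp => ?_
  have : x.factorization p = 0 := by
    rw [← Finsupp.notMem_support_iff]
    simpa using hp
  rw [this]; simp

theorem cadd_CAdd (c : ℕ → ℝ) : CAdd (cadd c) := by
  intro x y hx hy
  have hxy : x * y ≠ 0 := mul_ne_zero hx.ne' hy.ne'
  rw [cadd_eq c (P := (x * y).primeFactors) (Nat.primeFactors_mono ⟨y, rfl⟩ hxy),
    cadd_eq c (x := y) (P := (x * y).primeFactors) (Nat.primeFactors_mono ⟨x, by ring⟩ hxy),
    cadd, ← Finset.sum_add_distrib]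
  refine Finset.sum_congr rfl fun p _ => ?_
  rw [Nat.factorization_mul hx.ne' hy.ne', Finsupp.add_apply]
  push_cast
  ring

theorem cadd_prime (c : ℕ → ℝ) {p : ℕ} (hp : p.Prime) : cadd c p = c p := by
  unfold cadd
  rw [hp.primeFactors, Finset.sum_singleton, hp.factorization_self]
  simp

theorem cadd_log_eq {x : ℕ} (hx : x ≠ 0) : cadd (fun p => Real.log p) x = Real.log x := by
  unfold cadd
  conv_rhs => rw [← Nat.prod_factorization_pow_eq_self hx]
  rw [Finsupp.prod]
  push_cast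
  rw [Real.log_prod]
  · refine Finset.sum_congr rfl fun p _ => ?_
    rw [Real.log_pow]
  · intro p hp
    have : p.Prime := Nat.prime_of_mem_primeFactors (by simpa using hp)
    have h2 : (p : ℝ) ≠ 0 := by exact_mod_cast this.ne_zero
    positivity

/-- weighted average over the window -/
noncomputable def avg (J : ℕ) (u φ : ℕ → ℝ) : ℝ := (∑ j ∈ W J, u j * φ j) / ∑ j ∈ W J, u j

theorem sum_W_pos {J : ℕ} {u : ℕ → ℝ} (hpos : ∀ j ∈ W J, 0 < u j) : 0 < ∑ j ∈ W J, u j :=
  Finset.sum_pos hpos (W_nonempty J)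

theorem additive_ineq {J : ℕ} {u u' : ℕ → ℝ} (hpos : ∀ j ∈ W J, 0 < u j) {δ err : ℝ}
    {Q : Finset ℕ} {a τ : ℕ → ℝ} {l : ℕ → ℕ → ℝ}
    (havg : ∑ j ∈ W J, u j * Real.log (u' j / u j) ≤ δ * ∑ j ∈ W J, u j)
    (hlow : ∀ j ∈ W J, ∑ p ∈ Q, a p * (l j p + τ p) - err ≤ Real.log (u' j / u j)) :
    ∑ p ∈ Q, a p * (avg J u (fun j => l j p) + τ p) ≤ δ + err := by
  have hS := sum_W_pos hpos
  set S := ∑ j ∈ W J, u j with hSdef
  have h1 : ∑ j ∈ W J, u j * (∑ p ∈ Q, a p * (l j p + τ p) - err) ≤ δ * S := by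
    refine le_trans (Finset.sum_le_sum fun j hj => ?_) havg
    exact mul_le_mul_of_nonneg_left (hlow j hj) (hpos j hj).le
  have h2 : ∑ j ∈ W J, u j * (∑ p ∈ Q, a p * (l j p + τ p) - err)
      = S * (∑ p ∈ Q, a p * (avg J u (fun j => l j p) + τ p)) - S * err := by
    have e1 : ∑ j ∈ W J, u j * (∑ p ∈ Q, a p * (l j p + τ p) - err)
        = ∑ p ∈ Q, a p * (∑ j ∈ W J, u j * l j p + S * τ p) - S * err := by
      rw [hSdef, Finset.sum_mul]
      have : ∀ j ∈ W J, u j * (∑ p ∈ Q, a p * (l j p + τ p) - err)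
          = ∑ p ∈ Q, (a p * (u j * l j p) + a p * (u j * τ p)) - u j * err := by
        intro j _
        rw [mul_sub, Finset.mul_sum]
        congr 1
        refine Finset.sum_congr rfl fun p _ => by ring
      rw [Finset.sum_congr rfl this, Finset.sum_sub_distrib, Finset.sum_comm]
      congr 1
      refine Finset.sum_congr rfl fun p _ => ?_
      rw [Finset.sum_add_distrib, ← Finset.mul_sum, ← Finset.mul_sum, ← Finset.sum_mul]
      ring
    rw [e1]
    congr 1
    rw [Finset.mul_sum]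
    refine Finset.sum_congr rfl fun p _ => ?_
    unfold avg
    rw [← hSdef]
    field_simp
  rw [h2] at h1
  have h3 : S * (∑ p ∈ Q, a p * (avg J u (fun j => l j p) + τ p)) ≤ S * (δ + err) := by linarith
  exact le_of_mul_le_mul_left h3 hS

theorem w_eq_Gf (j n : ℕ) (hn : n ≠ 0) :
    w j n = Gf (fun _ k => (Nat.multichoose j k : ℝ)) n / 2 ^ j := by
  unfold w Gf
  rw [Dn_eq_prod' j hn (le_refl _)]
  push_cast
  rfl

theorem v_eq_Gf (j n : ℕ) (hn : n ≠ 0) :
    v j n = Gf (fun p k => A (1 / (p : ℝ)) j k) n / 2 ^ j := by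
  rw [v_eq_prod j hn (le_refl _)]
  rfl

theorem sum_sq_le {x B : ℕ} (hx : x ≠ 0) (hB : cardFactors x ≤ B) {Q : Finset ℕ}
    (hQ : x.primeFactors ⊆ Q) : ∑ p ∈ Q, (x.factorization p : ℝ) ^ 2 ≤ (B : ℝ) ^ 2 := by
  have h1 : ∑ p ∈ Q, x.factorization p = cardFactors x := by
    rw [cardFactors_eq_sum_factorization, Finsupp.sum]
    symm
    refine Finset.sum_subset (by simpa using hQ) fun p _ hp => ?_
    exact Finsupp.notMem_support_iff.1 hp
  have h2 : ∀ p ∈ Q, x.factorization p ≤ B := by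
    intro p hp
    refine le_trans ?_ (h1.le.trans hB)
    exact Finset.single_le_sum (f := fun p => x.factorization p) (fun _ _ => Nat.zero_le _) hp
  calc ∑ p ∈ Q, (x.factorization p : ℝ) ^ 2
      ≤ ∑ p ∈ Q, (B : ℝ) * x.factorization p := by
        refine Finset.sum_le_sum fun p hp => ?_
        rw [sq]
        have := h2 p hp
        gcongr
    _ = B * ((∑ p ∈ Q, x.factorization p : ℕ) : ℝ) := by
        rw [← Finset.mul_sum]; push_cast; rfl
    _ ≤ B * B := by
        rw [h1]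
        gcongr
    _ = (B : ℝ) ^ 2 := by ring

/-- `g_H` -/
noncomputable def gH (n J : ℕ) (p : ℕ) : ℝ :=
  avg J (fun j => w j n) (fun j => Real.log (r j (n.factorization p)))

/-- `g_b` -/
noncomputable def gB (n J : ℕ) (p : ℕ) : ℝ :=
  avg J (fun j => v j n) (fun j => Real.log (r j (n.factorization p)))

theorem err_bound {n x y B M : ℕ} (hx : x ≠ 0) (hy : y ≠ 0) (hBx : cardFactors x ≤ B)
    (hBy : cardFactors y ≤ B) (hM : 4312 ≤ M)
    (hα : ∀ p ∈ (x * y).primeFactors, M ≤ n.factorization p) :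
    ∑ p ∈ (x * y).primeFactors, 4314 * ((x.factorization p : ℝ) ^ 2
      + (y.factorization p : ℝ) ^ 2) / n.factorization p ≤ 8628 * (B : ℝ) ^ 2 / M := by
  have hM0 : (0 : ℝ) < M := by exact_mod_cast (by omega : 0 < M)
  have hxy : x * y ≠ 0 := mul_ne_zero hx hy
  have h1 := sum_sq_le hx hBx (Q := (x * y).primeFactors) (Nat.primeFactors_mono ⟨y, rfl⟩ hxy)
  have h2 := sum_sq_le hy hBy (Q := (x * y).primeFactors)
    (Nat.primeFactors_mono ⟨x, by ring⟩ hxy)
  calc ∑ p ∈ (x * y).primeFactors, 4314 * ((x.factorization p : ℝ) ^ 2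
      + (y.factorization p : ℝ) ^ 2) / n.factorization p
      ≤ ∑ p ∈ (x * y).primeFactors, 4314 * ((x.factorization p : ℝ) ^ 2
      + (y.factorization p : ℝ) ^ 2) / M := by
        refine Finset.sum_le_sum fun p hp => ?_
        refine div_le_div_of_nonneg_left (by positivity) hM0 ?_
        exact_mod_cast hα p hp
    _ = 4314 * (∑ p ∈ (x * y).primeFactors, (x.factorization p : ℝ) ^ 2
        + ∑ p ∈ (x * y).primeFactors, (y.factorization p : ℝ) ^ 2) / M := by
        rw [← Finset.sum_div, ← Finset.mul_sum, Finset.sum_add_distrib]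
    _ ≤ 4314 * ((B : ℝ) ^ 2 + (B : ℝ) ^ 2) / M := by gcongr
    _ = _ := by ring

theorem dvd_of_small {n x y B M : ℕ} (hn : n ≠ 0) (hx : x ≠ 0) (hy : y ≠ 0)
    (hBy : cardFactors y ≤ B) (hMB : 2 * B ≤ M)
    (hα : ∀ p ∈ (x * y).primeFactors, M ≤ n.factorization p) :
    y ∣ n ∧ ∀ p, 2 * y.factorization p ≤ max (n.factorization p) 0 := by
  have hxy : x * y ≠ 0 := mul_ne_zero hx hy
  have hle : ∀ p, y.factorization p ≤ B := by
    intro p
    refine le_trans ?_ hBy
    rw [cardFactors_eq_sum_factorization, Finsupp.sum]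
    by_cases hp : p ∈ y.factorization.support
    · exact Finset.single_le_sum (f := fun p => y.factorization p) (fun _ _ => Nat.zero_le _) hp
    · rw [Finsupp.notMem_support_iff] at hp
      rw [hp]; exact Nat.zero_le _
  have h2 : ∀ p, 2 * y.factorization p ≤ n.factorization p := by
    intro p
    by_cases hp : p ∈ y.primeFactors
    · have h3 : p ∈ (x * y).primeFactors := Nat.primeFactors_mono ⟨x, by ring⟩ hxy hp
      have := hα p h3
      have := hle p
      omega
    · have : y.factorization p = 0 := by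
        rw [← Finsupp.notMem_support_iff]
        simpa using hp
      omega
  refine ⟨?_, fun p => by simpa using h2 p⟩
  rw [← Nat.factorization_le_iff_dvd hy hn]
  intro p
  have := h2 p
  omega

theorem key_ineq_H {n J B M : ℕ} (h3 : 3 ≤ n) (hR : RecursivelyHighlyComposite n)
    (hmode : IsMode n J) (htail : H n ≤ (1 + 1 / (J : ℝ)) * ∑ j ∈ W J, w j n)
    (hM : 4312 ≤ M) (hMB : 2 * B ≤ M) {x y : ℕ} (hx : 0 < x) (hxy : x < y)
    (hBx : cardFactors x ≤ B) (hBy : cardFactors y ≤ B)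
    (hα : ∀ p ∈ (x * y).primeFactors, M ≤ n.factorization p) :
    cadd (gH n J) x ≤ cadd (gH n J) y + (1 / (J : ℝ) + 8628 * (B : ℝ) ^ 2 / M) := by
  have hn0 := hmode.1
  have hy0 : y ≠ 0 := by omega
  have hx0 : x ≠ 0 := by omega
  have hxy0 : x * y ≠ 0 := mul_ne_zero hx0 hy0
  obtain ⟨hdvd, h2y⟩ := dvd_of_small hn0 hx0 hy0 hBy hMB hα
  obtain ⟨N, hN⟩ := hdvd
  have hN0 : N ≠ 0 := by rintro rfl; simp at hN; exact hn0 hN
  have hNn : n = N * y := by rw [hN]; ring
  have hm0 : N * x ≠ 0 := mul_ne_zero hN0 hx0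
  have hmn : N * x < n := by
    rw [hNn]; exact Nat.mul_lt_mul_of_pos_left hxy (Nat.pos_of_ne_zero hN0)
  have hH := RHC_H h3 hR (Nat.pos_of_ne_zero hm0) hmn
  have hposn : ∀ j ∈ W J, 0 < w j n := fun j hj =>
    w_pos (one_le_of_mem_W hmode.2.1 hj) hn0
  have hposm : ∀ j ∈ W J, 0 < w j (N * x) := fun j hj =>
    w_pos (one_le_of_mem_W hmode.2.1 hj) hm0
  have havg := champion_average (J := J) (u := fun j => w j n) (u' := fun j => w j (N * x))
    (δ := 1 / (J : ℝ)) (fun j => w_nonneg _ _) hposn hposm (summable_w hm0) hH.le htail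
  set err := ∑ p ∈ (x * y).primeFactors, 4314 * ((x.factorization p : ℝ) ^ 2
      + (y.factorization p : ℝ) ^ 2) / n.factorization p with herr
  have hlow : ∀ j ∈ W J, ∑ p ∈ (x * y).primeFactors,
      ((x.factorization p : ℝ) - y.factorization p) * (Real.log (r j (n.factorization p)) + 0)
        - err ≤ Real.log (w j (N * x) / w j n) := by
    intro j hj
    have hj1 := one_le_of_mem_W hmode.2.1 hj
    have e1 : w j (N * x) / w j n = Gf (fun _ k => (Nat.multichoose j k : ℝ)) (N * x)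
        / Gf (fun _ k => (Nat.multichoose j k : ℝ)) (N * y) := by
      rw [w_eq_Gf j _ hm0, w_eq_Gf j n hn0, ← hNn]
      have : (2 : ℝ) ^ j ≠ 0 := by positivity
      field_simp
    rw [e1, log_Gf_ratio (fun _ k => (Nat.multichoose j k : ℝ)) (by simp)
      (fun p k _ => by exact_mod_cast mc_pos hj1 k) hN0 hx0 hy0, herr, ← Finset.sum_sub_distrib]
    refine Finset.sum_le_sum fun p hp => ?_
    rw [← hNn]
    have hαp := hα p hp
    have h2 := h2y p
    simp only [Nat.max_zero] at h2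
    have h4 := local_mc hj1 (α := n.factorization p) (x := x.factorization p)
      (y := y.factorization p) h2 (by omega)
    have h5 : 2 * ((x.factorization p : ℝ) ^ 2 + (y.factorization p : ℝ) ^ 2) / n.factorization p
        ≤ 4314 * ((x.factorization p : ℝ) ^ 2 + (y.factorization p : ℝ) ^ 2)
          / n.factorization p := by
      gcongr
      norm_num
    simp only [add_zero]
    linarith
  have hfin := additive_ineq (J := J) (u := fun j => w j n) (u' := fun j => w j (N * x)) hposn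
    (δ := 1 / (J : ℝ)) (err := err) (Q := (x * y).primeFactors)
    (a := fun p => (x.factorization p : ℝ) - y.factorization p) (τ := fun _ => 0)
    (l := fun j p => Real.log (r j (n.factorization p))) havg hlow
  have herr' := err_bound (n := n) hx0 hy0 hBx hBy hM hα
  have e2 : ∑ p ∈ (x * y).primeFactors, ((x.factorization p : ℝ) - y.factorization p)
      * (avg J (fun j => w j n) (fun j => Real.log (r j (n.factorization p))) + 0)
      = cadd (gH n J) x - cadd (gH n J) y := by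
    rw [cadd_eq _ (x := x) (P := (x * y).primeFactors) (Nat.primeFactors_mono ⟨y, rfl⟩ hxy0),
      cadd_eq _ (x := y) (P := (x * y).primeFactors)
      (Nat.primeFactors_mono ⟨x, by ring⟩ hxy0), ← Finset.sum_sub_distrib]
    refine Finset.sum_congr rfl fun p _ => ?_
    unfold gH
    ring
  rw [e2] at hfin
  linarith

theorem key_ineq_B {n J B M : ℕ} (hR : RecursivelySuperAbundant n)
    (hmode : IsMode n J) (hreg : Regime n J)
    (htail : BB n ≤ (1 + 1 / (J : ℝ)) * ∑ j ∈ W J, v j n)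
    (hM : 4312 ≤ M) (hMB : 2 * B ≤ M) {x y : ℕ} (hx : 0 < x) (hxy : x < y)
    (hBx : cardFactors x ≤ B) (hBy : cardFactors y ≤ B)
    (hα : ∀ p ∈ (x * y).primeFactors, M ≤ n.factorization p) :
    cadd (gB n J) x ≤ cadd (gB n J) y + (1 / (J : ℝ) + 8628 * (B : ℝ) ^ 2 / M) := by
  have hn0 := hmode.1
  have hy0 : y ≠ 0 := by omega
  have hx0 : x ≠ 0 := by omega
  have hxy0 : x * y ≠ 0 := mul_ne_zero hx0 hy0
  obtain ⟨hdvd, h2y⟩ := dvd_of_small hn0 hx0 hy0 hBy hMB hα
  obtain ⟨N, hN⟩ := hdvd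
  have hN0 : N ≠ 0 := by rintro rfl; simp at hN; exact hn0 hN
  have hNn : n = N * y := by rw [hN]; ring
  have hm0 : N * x ≠ 0 := mul_ne_zero hN0 hx0
  have hmn : N * x < n := by
    rw [hNn]; exact Nat.mul_lt_mul_of_pos_left hxy (Nat.pos_of_ne_zero hN0)
  have hH := RSA_BB hR (Nat.pos_of_ne_zero hm0) hmn
  have hposn : ∀ j ∈ W J, 0 < v j n := fun j _ => v_pos j hn0
  have hposm : ∀ j ∈ W J, 0 < v j (N * x) := fun j _ => v_pos j hm0
  have havg := champion_average (J := J) (u := fun j => v j n) (u' := fun j => v j (N * x))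
    (δ := 1 / (J : ℝ)) (fun j => v_nonneg _ _) hposn hposm (summable_v hm0) hH.le htail
  set err := ∑ p ∈ (x * y).primeFactors, 4314 * ((x.factorization p : ℝ) ^ 2
      + (y.factorization p : ℝ) ^ 2) / n.factorization p with herr
  have hlow : ∀ j ∈ W J, ∑ p ∈ (x * y).primeFactors,
      ((x.factorization p : ℝ) - y.factorization p) * (Real.log (r j (n.factorization p))
        + Real.log (1 / (p : ℝ))) - err ≤ Real.log (v j (N * x) / v j n) := by
    intro j hj
    have hj1 := one_le_of_mem_W hmode.2.1 hj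
    have e1 : v j (N * x) / v j n = Gf (fun p k => A (1 / (p : ℝ)) j k) (N * x)
        / Gf (fun p k => A (1 / (p : ℝ)) j k) (N * y) := by
      rw [v_eq_Gf j _ hm0, v_eq_Gf j n hn0, ← hNn]
      have : (2 : ℝ) ^ j ≠ 0 := by positivity
      field_simp
    rw [e1, log_Gf_ratio (fun p k => A (1 / (p : ℝ)) j k) (fun p => A_zero_right _ _)
      (fun p k hp => by
        have : (0 : ℝ) < 1 / (p : ℝ) := by
          have := hp.pos
          positivity
        linarith [A_pos this j k]) hN0 hx0 hy0, herr, ← Finset.sum_sub_distrib]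
    refine Finset.sum_le_sum fun p hp => ?_
    rw [← hNn]
    have hαp := hα p hp
    have h2 := h2y p
    simp only [Nat.max_zero] at h2
    have hpp := Nat.prime_of_mem_primeFactors hp
    have hp1 : (1 : ℝ) ≤ p := by exact_mod_cast hpp.one_le
    have hpn : p ∈ n.primeFactors := by
      rw [Nat.mem_primeFactors]
      exact ⟨hpp, (hpp.dvd_iff_one_le_factorization hn0).2 (by omega), hn0⟩
    exact local_A (t := 1 / (p : ℝ)) (by positivity) (by rw [div_le_one (by linarith)]; exact hp1)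
      hj1 (α := n.factorization p) (x := x.factorization p)
      (y := y.factorization p) h2 (by omega) (hreg p hpn j hj)
  have hfin := additive_ineq (J := J) (u := fun j => v j n) (u' := fun j => v j (N * x)) hposn
    (δ := 1 / (J : ℝ)) (err := err) (Q := (x * y).primeFactors)
    (a := fun p => (x.factorization p : ℝ) - y.factorization p)
    (τ := fun p => Real.log (1 / (p : ℝ)))
    (l := fun j p => Real.log (r j (n.factorization p))) havg hlow
  have herr' := err_bound (n := n) hx0 hy0 hBx hBy hM hα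
  have e2 : ∑ p ∈ (x * y).primeFactors, ((x.factorization p : ℝ) - y.factorization p)
      * (avg J (fun j => v j n) (fun j => Real.log (r j (n.factorization p)))
        + Real.log (1 / (p : ℝ)))
      = (cadd (gB n J) x - cadd (gB n J) y)
        - (cadd (fun p => Real.log p) x - cadd (fun p => Real.log p) y) := by
    have hPx : x.primeFactors ⊆ (x * y).primeFactors := Nat.primeFactors_mono ⟨y, rfl⟩ hxy0
    have hPy : y.primeFactors ⊆ (x * y).primeFactors :=
      Nat.primeFactors_mono ⟨x, by ring⟩ hxy0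
    rw [cadd_eq _ hPx, cadd_eq _ hPy, cadd_eq _ hPx, cadd_eq _ hPy,
      ← Finset.sum_sub_distrib, ← Finset.sum_sub_distrib, ← Finset.sum_sub_distrib]
    refine Finset.sum_congr rfl fun p _ => ?_
    unfold gB
    rw [one_div, Real.log_inv]
    ring
  rw [e2, cadd_log_eq hx0, cadd_log_eq hy0] at hfin
  have hlog : Real.log x ≤ Real.log y :=
    Real.log_le_log (by exact_mod_cast hx) (by exact_mod_cast hxy.le)
  linarith

end Pool.Agent.Lib.MP_9f8414_nt
end
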