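import Mathlib

/-!
# Numbers that are both recursively highly composite and recursively super-abundant: definitions
-/

namespace Pool.Agent.Lib.MP_9f8414_nt

/-- `a(1) = 1` and `a(n) = 1 + ∑_{m ∣ n, m < n} a(m)` for `n ≥ 2`. (The same formula gives
`a(1) = 1`, since `1` has no proper divisor.) -/
def a (n : ℕ) : ℕ := 1 + ∑ m ∈ n.properDivisors.attach, a m.1
termination_by n
decreasing_by exact (Nat.mem_properDivisors.1 m.2).2

/-- `b(1) = 1` and `b(n) = n + ∑_{m ∣ n, m < n} b(m)` for `n ≥ 2`. (The same formula gives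
`b(1) = 1`, since `1` has no proper divisor.) -/
def b (n : ℕ) : ℕ := n + ∑ m ∈ n.properDivisors.attach, b m.1
termination_by n
decreasing_by exact (Nat.mem_properDivisors.1 m.2).2

/-- `n ≥ 1` is recursively highly composite if `a(m) < a(n)` for all positive `m < n`. -/
def RecursivelyHighlyComposite (n : ℕ) : Prop :=
  0 < n ∧ ∀ m : ℕ, 0 < m → m < n → a m < a n

/-- `n ≥ 1` is recursively super-abundant if `b(m)/m < b(n)/n` for all positive `m < n`. -/
def RecursivelySuperAbundant (n : ℕ) : Prop :=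
  0 < n ∧ ∀ m : ℕ, 0 < m → m < n → (b m : ℚ) / m < (b n : ℚ) / n

theorem a_eq (n : ℕ) : a n = 1 + ∑ m ∈ n.properDivisors, a m := by
  rw [a, Finset.sum_attach n.properDivisors (fun m => a m)]

theorem b_eq (n : ℕ) : b n = n + ∑ m ∈ n.properDivisors, b m := by
  rw [b, Finset.sum_attach n.properDivisors (fun m => b m)]

theorem a_one : a 1 = 1 := by rw [a_eq]; simp

theorem b_one : b 1 = 1 := by rw [b_eq]; simp

theorem a_pos (n : ℕ) : 0 < a n := by rw [a_eq]; omega

end Pool.Agent.Lib.MP_9f8414_nt
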