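import Pool.Agent.Lib.MP_9f8414_nt.Additive

section

/-!
# The difference of the two averages
-/

namespace Pool.Agent.Lib.MP_9f8414_nt

open ArithmeticFunction Finset Filter

/-- antisymmetric double sum -/
noncomputable def Dd (J : ℕ) (a b φ : ℕ → ℝ) : ℝ :=
  ∑ i ∈ W J, ∑ l ∈ W J, (a i * b l - a l * b i) * (φ i - φ l)

theorem Dd_eq (J : ℕ) (a b φ : ℕ → ℝ) :
    Dd J a b φ = 2 * ((∑ j ∈ W J, b j) * (∑ j ∈ W J, a j * φ j)
      - (∑ j ∈ W J, a j) * (∑ j ∈ W J, b j * φ j)) := by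
  unfold Dd
  have h1 : ∀ i ∈ W J, ∑ l ∈ W J, (a i * b l - a l * b i) * (φ i - φ l)
      = (a i * φ i) * (∑ l ∈ W J, b l) - a i * (∑ l ∈ W J, b l * φ l)
        - (b i * φ i) * (∑ l ∈ W J, a l) + b i * (∑ l ∈ W J, a l * φ l) := by
    intro i _
    rw [Finset.mul_sum, Finset.mul_sum, Finset.mul_sum, Finset.mul_sum, ← Finset.sum_sub_distrib,
      ← Finset.sum_sub_distrib, ← Finset.sum_add_distrib]
    refine Finset.sum_congr rfl fun l _ => by ring
  rw [Finset.sum_congr rfl h1, Finset.sum_add_distrib, Finset.sum_sub_distrib,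
    Finset.sum_sub_distrib, ← Finset.sum_mul, ← Finset.sum_mul, ← Finset.sum_mul, ← Finset.sum_mul]
  ring

theorem avg_sub_avg {J : ℕ} {a b : ℕ → ℝ} (ha : ∀ j ∈ W J, 0 < a j) (hb : ∀ j ∈ W J, 0 < b j)
    (φ : ℕ → ℝ) : avg J a φ - avg J b φ
      = Dd J a b φ / (2 * ((∑ j ∈ W J, a j) * (∑ j ∈ W J, b j))) := by
  have hSa := sum_W_pos ha
  have hSb := sum_W_pos hb
  rw [Dd_eq]
  unfold avg
  field_simp

theorem ratio_chain {J : ℕ} {a b : ℕ → ℝ} {lam : ℝ} (ha : ∀ j ∈ W J, 0 < a j)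
    (hb : ∀ j ∈ W J, 0 < b j)
    (hs : ∀ j ∈ W J, b (j + 1) * a j ≤ Real.exp (-lam) * (a (j + 1) * b j)) {l : ℕ}
    (hl : l ∈ W J) (m : ℕ) (hm : l + m ∈ W J) :
    b (l + m) * a l ≤ Real.exp (-(lam * m)) * (a (l + m) * b l) := by
  induction m with
  | zero => simp [mul_comm]
  | succ m ih =>
    have hmem : l + m ∈ W J := by
      rw [mem_W] at hl hm ⊢; omega
    have ih' := ih hmem
    have h1 := hs (l + m) hmem
    have e : l + (m + 1) = l + m + 1 := by omega
    rw [e] at hm ⊢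
    have p1 := ha _ hmem
    have p2 := hb _ hmem
    have p3 := ha _ hl
    have p4 := hb _ hl
    have p5 := ha _ hm
    have p6 := hb _ hm
    have hpos : 0 < a (l + m) * b (l + m) := mul_pos p1 p2
    refine le_of_mul_le_mul_right ?_ hpos
    have h2 := mul_le_mul h1 ih' (by positivity) (by positivity)
    have e2 : Real.exp (-(lam * ((m + 1 : ℕ) : ℝ))) = Real.exp (-lam) * Real.exp (-(lam * m)) := by
      rw [← Real.exp_add]; congr 1; push_cast; ring
    rw [e2]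
    calc b (l + m + 1) * a l * (a (l + m) * b (l + m))
        = b (l + m + 1) * a (l + m) * (b (l + m) * a l) := by ring
      _ ≤ _ := h2
      _ = _ := by ring

theorem coef_nonneg {J : ℕ} {a b : ℕ → ℝ} {lam : ℝ} (hlam : 0 ≤ lam) (ha : ∀ j ∈ W J, 0 < a j)
    (hb : ∀ j ∈ W J, 0 < b j)
    (hs : ∀ j ∈ W J, b (j + 1) * a j ≤ Real.exp (-lam) * (a (j + 1) * b j)) {i l : ℕ}
    (hi : i ∈ W J) (hl : l ∈ W J) (hli : l ≤ i) : 0 ≤ a i * b l - a l * b i := by
  obtain ⟨m, rfl⟩ := Nat.exists_eq_add_of_le hli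
  have h := ratio_chain ha hb hs hl m hi
  have h1 : Real.exp (-(lam * m)) ≤ 1 := by
    rw [Real.exp_le_one_iff]
    have : 0 ≤ lam * m := by positivity
    linarith
  have h2 : 0 ≤ a (l + m) * b l := (mul_pos (ha _ hi) (hb _ hl)).le
  have h3 := mul_le_mul_of_nonneg_right h1 h2
  linarith

theorem Dd_le {J : ℕ} {a b φ ψ : ℕ → ℝ} {K : ℝ}
    (hc : ∀ i ∈ W J, ∀ l ∈ W J, l ≤ i → 0 ≤ a i * b l - a l * b i)
    (h : ∀ i ∈ W J, ∀ l ∈ W J, l ≤ i → φ i - φ l ≤ K * (ψ i - ψ l)) :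
    Dd J a b φ ≤ K * Dd J a b ψ := by
  unfold Dd
  rw [Finset.mul_sum]
  refine Finset.sum_le_sum fun i hi => ?_
  rw [Finset.mul_sum]
  refine Finset.sum_le_sum fun l hl => ?_
  rcases le_total l i with hli | hil
  · have h1 := hc i hi l hl hli
    have h2 := h i hi l hl hli
    calc (a i * b l - a l * b i) * (φ i - φ l)
        ≤ (a i * b l - a l * b i) * (K * (ψ i - ψ l)) := mul_le_mul_of_nonneg_left h2 h1
      _ = _ := by ring
  · have h1 := hc l hl i hi hil
    have h2 := h l hl i hi hil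
    calc (a i * b l - a l * b i) * (φ i - φ l)
        = (a l * b i - a i * b l) * (φ l - φ i) := by ring
      _ ≤ (a l * b i - a i * b l) * (K * (ψ l - ψ i)) := mul_le_mul_of_nonneg_left h2 h1
      _ = _ := by ring

theorem Dd_ge {J : ℕ} {a b φ : ℕ → ℝ}
    (hc : ∀ i ∈ W J, ∀ l ∈ W J, l ≤ i → 0 ≤ a i * b l - a l * b i)
    (h : ∀ i ∈ W J, ∀ l ∈ W J, l ≤ i → 0 ≤ φ i - φ l) {I1 I2 : Finset ℕ}
    (hI1 : I1 ⊆ W J) (hI2 : I2 ⊆ W J) :
    ∑ i ∈ I2, ∑ l ∈ I1, (a i * b l - a l * b i) * (φ i - φ l) ≤ Dd J a b φ := by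
  have hterm : ∀ i ∈ W J, ∀ l ∈ W J, 0 ≤ (a i * b l - a l * b i) * (φ i - φ l) := by
    intro i hi l hl
    rcases le_total l i with hli | hil
    · exact mul_nonneg (hc i hi l hl hli) (h i hi l hl hli)
    · have := mul_nonneg (hc l hl i hi hil) (h l hl i hi hil)
      calc (0 : ℝ) ≤ _ := this
        _ = _ := by ring
  unfold Dd
  calc ∑ i ∈ I2, ∑ l ∈ I1, (a i * b l - a l * b i) * (φ i - φ l)
      ≤ ∑ i ∈ I2, ∑ l ∈ W J, (a i * b l - a l * b i) * (φ i - φ l) := by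
        refine Finset.sum_le_sum fun i hi => ?_
        exact Finset.sum_le_sum_of_subset_of_nonneg hI1 fun l hl _ => hterm i (hI2 hi) l hl
    _ ≤ _ := by
        refine Finset.sum_le_sum_of_subset_of_nonneg hI2 fun i hi _ => ?_
        exact Finset.sum_nonneg fun l hl => hterm i hi l hl

/-- logarithmic test function -/
noncomputable def lg (x : ℝ) (j : ℕ) : ℝ := Real.log (x + j)

theorem lg_diff_anti {x x' : ℝ} (hx : 0 ≤ x) (hxx : x ≤ x') {i l : ℕ} (hl : 1 ≤ l) (hli : l ≤ i) :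
    lg x' i - lg x' l ≤ lg x i - lg x l := by
  have hl0 : (1 : ℝ) ≤ l := by exact_mod_cast hl
  have hli' : (l : ℝ) ≤ i := by exact_mod_cast hli
  unfold lg
  rw [← Real.log_div (by linarith) (by linarith), ← Real.log_div (by linarith) (by linarith)]
  refine Real.log_le_log (div_pos (by linarith) (by linarith)) ?_
  rw [div_le_div_iff₀ (by linarith) (by linarith)]
  nlinarith

theorem lg_diff_le {x : ℝ} (hx : 0 ≤ x) {i l : ℕ} (hl : 1 ≤ l) (hli : l ≤ i) :
    lg x i - lg x l ≤ ((i : ℝ) - l) / (x + l) := by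
  have hl0 : (1 : ℝ) ≤ l := by exact_mod_cast hl
  have hli' : (l : ℝ) ≤ i := by exact_mod_cast hli
  unfold lg
  rw [← Real.log_div (by linarith) (by linarith)]
  have h := Real.log_le_sub_one_of_pos (x := (x + i) / (x + l)) (div_pos (by linarith) (by linarith))
  refine h.trans (le_of_eq ?_)
  have : x + (l : ℝ) ≠ 0 := by linarith
  field_simp
  ring

theorem lg_diff_ge {x : ℝ} (hx : 0 ≤ x) {i l : ℕ} (hl : 1 ≤ l) (hli : l ≤ i) :
    ((i : ℝ) - l) / (x + i) ≤ lg x i - lg x l := by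
  have hl0 : (1 : ℝ) ≤ l := by exact_mod_cast hl
  have hli' : (l : ℝ) ≤ i := by exact_mod_cast hli
  unfold lg
  rw [← Real.log_div (by linarith) (by linarith)]
  have h := Real.one_sub_inv_le_log_of_pos (x := (x + i) / (x + l))
    (div_pos (by linarith) (by linarith))
  refine le_trans (le_of_eq ?_) h
  have h1 : x + (l : ℝ) ≠ 0 := by linarith
  have h2 : x + (i : ℝ) ≠ 0 := by linarith
  rw [inv_div]
  field_simp
  ring

/-- `Φ(x)` -/
noncomputable def Phi (J : ℕ) (a b : ℕ → ℝ) (x : ℝ) : ℝ := avg J a (lg x) - avg J b (lg x)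

theorem Phi_anti {J : ℕ} (hJ : 1 ≤ J) {a b : ℕ → ℝ} {lam : ℝ} (hlam : 0 ≤ lam)
    (ha : ∀ j ∈ W J, 0 < a j) (hb : ∀ j ∈ W J, 0 < b j)
    (hs : ∀ j ∈ W J, b (j + 1) * a j ≤ Real.exp (-lam) * (a (j + 1) * b j)) {x x' : ℝ}
    (hx : 0 ≤ x) (hxx : x ≤ x') : Phi J a b x' ≤ Phi J a b x := by
  unfold Phi
  rw [avg_sub_avg ha hb, avg_sub_avg ha hb]
  have hSa := sum_W_pos ha
  have hSb := sum_W_pos hb
  refine div_le_div_of_nonneg_right ?_ (by positivity)
  have := Dd_le (J := J) (a := a) (b := b) (φ := lg x') (ψ := lg x) (K := 1)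
    (fun i hi l hl hli => coef_nonneg hlam ha hb hs hi hl hli)
    (fun i hi l hl hli => by
      rw [one_mul]
      exact lg_diff_anti hx hxx (one_le_of_mem_W hJ hl) hli)
  linarith

theorem Phi_zero_le {J : ℕ} (hJ : 1 ≤ J) {a b : ℕ → ℝ} {lam : ℝ} (hlam : 0 ≤ lam)
    (ha : ∀ j ∈ W J, 0 < a j) (hb : ∀ j ∈ W J, 0 < b j)
    (hs : ∀ j ∈ W J, b (j + 1) * a j ≤ Real.exp (-lam) * (a (j + 1) * b j)) {x : ℝ}
    (hx : 0 ≤ x) (hx2 : x ≤ 58 / 100 * J) : Phi J a b 0 ≤ 3 * Phi J a b x := by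
  unfold Phi
  rw [avg_sub_avg ha hb, avg_sub_avg ha hb]
  have hSa := sum_W_pos ha
  have hSb := sum_W_pos hb
  rw [← mul_div_assoc]
  refine div_le_div_of_nonneg_right ?_ (by positivity)
  refine Dd_le (J := J) (a := a) (b := b) (φ := lg 0) (ψ := lg x) (K := 3)
    (fun i hi l hl hli => coef_nonneg hlam ha hb hs hi hl hli)
    (fun i hi l hl hli => ?_)
  have hl1 := one_le_of_mem_W hJ hl
  have hl0 : (1 : ℝ) ≤ l := by exact_mod_cast hl1
  have hli' : (l : ℝ) ≤ i := by exact_mod_cast hli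
  have hbi := (W_bounds hi).2
  have hbl := (W_bounds hl).1
  have h1 := lg_diff_le (x := 0) le_rfl hl1 hli
  have h2 := lg_diff_ge hx hl1 hli
  have h3 : ((i : ℝ) - l) / (0 + l) ≤ 3 * (((i : ℝ) - l) / (x + i)) := by
    rw [zero_add, ← mul_div_assoc, div_le_div_iff₀ (by linarith) (by linarith)]
    have : 0 ≤ (i : ℝ) - l := by linarith
    have h4 : x + (i : ℝ) ≤ 3 * l := by linarith
    nlinarith
  linarith

/-- dominance of partial sums -/
theorem dominance {J : ℕ} {a b : ℕ → ℝ}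
    (hc : ∀ i ∈ W J, ∀ l ∈ W J, l ≤ i → 0 ≤ a i * b l - a l * b i) {K : ℕ} {I1 : Finset ℕ}
    (hI1 : I1 = (W J).filter (fun l => l ≤ K)) :
    (∑ l ∈ I1, a l) * (∑ i ∈ W J, b i) ≤ (∑ l ∈ I1, b l) * (∑ i ∈ W J, a i) := by
  have h1 : ∑ i ∈ W J, b i = ∑ i ∈ I1, b i + ∑ i ∈ (W J).filter (fun l => ¬ l ≤ K), b i := by
    rw [hI1, Finset.sum_filter_add_sum_filter_not]
  have h2 : ∑ i ∈ W J, a i = ∑ i ∈ I1, a i + ∑ i ∈ (W J).filter (fun l => ¬ l ≤ K), a i := by
    rw [hI1, Finset.sum_filter_add_sum_filter_not]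
  have h3 : (∑ l ∈ I1, a l) * (∑ i ∈ (W J).filter (fun l => ¬ l ≤ K), b i)
      ≤ (∑ l ∈ I1, b l) * (∑ i ∈ (W J).filter (fun l => ¬ l ≤ K), a i) := by
    rw [Finset.sum_mul_sum, Finset.sum_mul_sum]
    refine Finset.sum_le_sum fun l hl => Finset.sum_le_sum fun i hi => ?_
    rw [hI1, Finset.mem_filter] at hl
    rw [Finset.mem_filter] at hi
    have := hc i hi.1 l hl.1 (by omega)
    linarith
  rw [h1, h2]
  linarith

theorem one_sub_exp_ge {z : ℝ} (h0 : 0 ≤ z) (h1 : z ≤ 1) : z / 2 ≤ 1 - Real.exp (-z) := by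
  have h2 := Real.add_one_le_exp z
  rw [Real.exp_neg]
  have h3 : (Real.exp z)⁻¹ ≤ (z + 1)⁻¹ := inv_anti₀ (by linarith) h2
  have h4 : (z + 1)⁻¹ ≤ 1 - z / 2 := by
    rw [inv_eq_one_div, div_le_iff₀ (by linarith)]
    nlinarith
  linarith

theorem Phi_lower {J : ℕ} (hJ : 1 ≤ J) {a b : ℕ → ℝ} {lam : ℝ} (hlam : 0 ≤ lam)
    (ha : ∀ j ∈ W J, 0 < a j) (hb : ∀ j ∈ W J, 0 < b j)
    (hs : ∀ j ∈ W J, b (j + 1) * a j ≤ Real.exp (-lam) * (a (j + 1) * b j)) {x : ℝ}
    (hx : 0 ≤ x) (hx2 : x ≤ 58 / 100 * J) {K s : ℕ} {c : ℝ} (hc0 : 0 ≤ c)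
    (hls : lam * s ≤ 1)
    (h1 : c * ∑ j ∈ W J, a j ≤ ∑ l ∈ (W J).filter (fun l => l ≤ K), a l)
    (h2 : c * ∑ j ∈ W J, a j ≤ ∑ i ∈ (W J).filter (fun i => K + s ≤ i), a i) :
    c ^ 2 * (lam * s) * (s / J) / 8 ≤ Phi J a b x := by
  have hcn : ∀ i ∈ W J, ∀ l ∈ W J, l ≤ i → 0 ≤ a i * b l - a l * b i :=
    fun i hi l hl hli => coef_nonneg hlam ha hb hs hi hl hli
  have hSa := sum_W_pos ha
  have hSb := sum_W_pos hb
  set Sa := ∑ j ∈ W J, a j with hSadef
  set Sb := ∑ j ∈ W J, b j with hSbdef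
  set I1 := (W J).filter (fun l => l ≤ K) with hI1
  set I2 := (W J).filter (fun i => K + s ≤ i) with hI2
  have hdom := dominance hcn hI1
  have hJ0 : (0 : ℝ) < J := by exact_mod_cast hJ
  have h3 : c * Sb ≤ ∑ l ∈ I1, b l := by
    have h4 : (c * Sa) * Sb ≤ (∑ l ∈ I1, b l) * Sa :=
      le_trans (mul_le_mul_of_nonneg_right h1 hSb.le) hdom
    have h5 : (c * Sb) * Sa ≤ (∑ l ∈ I1, b l) * Sa := by linarith
    exact le_of_mul_le_mul_right h5 hSa
  have hφ : ∀ i ∈ W J, ∀ l ∈ W J, l ≤ i → 0 ≤ lg x i - lg x l := by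
    intro i hi l hl hli
    refine le_trans ?_ (lg_diff_ge hx (one_le_of_mem_W hJ hl) hli)
    have hli' : (l : ℝ) ≤ i := by exact_mod_cast hli
    have : (0 : ℝ) ≤ i := by positivity
    exact div_nonneg (by linarith) (by linarith)
  have hD := Dd_ge hcn hφ (I1 := I1) (I2 := I2) (Finset.filter_subset _ _)
    (Finset.filter_subset _ _)
  have hls0 : 0 ≤ lam * s := by positivity
  have hterm : ∀ i ∈ I2, ∀ l ∈ I1, (lam * s / 2) * (s / (2 * J)) * (a i * b l)
      ≤ (a i * b l - a l * b i) * (lg x i - lg x l) := by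
    intro i hi l hl
    rw [hI2, Finset.mem_filter] at hi
    rw [hI1, Finset.mem_filter] at hl
    have hli : l + s ≤ i := by omega
    obtain ⟨m, rfl⟩ := Nat.exists_eq_add_of_le (by omega : l ≤ i)
    have hch := ratio_chain ha hb hs hl.1 m hi.1
    have hm : s ≤ m := by omega
    have hmr : (s : ℝ) ≤ m := by exact_mod_cast hm
    have hexp : Real.exp (-(lam * m)) ≤ 1 - lam * s / 2 := by
      have e1 : Real.exp (-(lam * m)) ≤ Real.exp (-(lam * s)) := by
        rw [Real.exp_le_exp]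
        have := mul_le_mul_of_nonneg_left hmr hlam
        linarith
      have e2 := one_sub_exp_ge hls0 hls
      linarith
    have hab : 0 ≤ a (l + m) * b l := (mul_pos (ha _ hi.1) (hb _ hl.1)).le
    have h6 : (lam * s / 2) * (a (l + m) * b l) ≤ a (l + m) * b l - a l * b (l + m) := by
      have := mul_le_mul_of_nonneg_right hexp hab
      linarith
    have h7 : (s : ℝ) / (2 * J) ≤ lg x (l + m) - lg x l := by
      refine le_trans ?_ (lg_diff_ge hx (one_le_of_mem_W hJ hl.1) (by omega))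
      have hbi := (W_bounds hi.1).2
      push_cast at hbi ⊢
      have hl0 : (1 : ℝ) ≤ l := by exact_mod_cast (one_le_of_mem_W hJ hl.1)
      have hm0 : (0 : ℝ) ≤ m := by positivity
      rw [div_le_div_iff₀ (by positivity) (by linarith)]
      have e3 : x + ((l : ℝ) + m) ≤ 2 * J := by linarith
      have e4 : (0 : ℝ) ≤ s := by positivity
      have e5 : (l : ℝ) + m - l = m := by ring
      rw [e5]
      exact mul_le_mul hmr e3 (by linarith) hm0
    have hh := mul_le_mul h6 h7 (by positivity) (hcn _ hi.1 _ hl.1 (by omega))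
    calc _ = lam * ↑s / 2 * (a (l + m) * b l) * (↑s / (2 * ↑J)) := by ring
      _ ≤ _ := hh
  have hsum : (lam * s / 2) * (s / (2 * J)) * ((∑ i ∈ I2, a i) * (∑ l ∈ I1, b l))
      ≤ Dd J a b (lg x) := by
    refine le_trans ?_ hD
    rw [Finset.sum_mul_sum, Finset.mul_sum]
    refine Finset.sum_le_sum fun i hi => ?_
    rw [Finset.mul_sum]
    exact Finset.sum_le_sum fun l hl => hterm i hi l hl
  unfold Phi
  rw [avg_sub_avg ha hb, ← hSadef, ← hSbdef, le_div_iff₀ (by positivity)]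
  refine le_trans ?_ hsum
  have hprod : (c * Sa) * (c * Sb) ≤ (∑ i ∈ I2, a i) * (∑ l ∈ I1, b l) :=
    mul_le_mul h2 h3 (by positivity) (le_trans (by positivity) h2)
  have hco : 0 ≤ (lam * s / 2) * (s / (2 * J)) := by positivity
  have := mul_le_mul_of_nonneg_left hprod hco
  refine le_trans (le_of_eq ?_) this
  field_simp
  norm_num

end Pool.Agent.Lib.MP_9f8414_nt
end

section

/-!
# The weights near the mode
-/

namespace Pool.Agent.Lib.MP_9f8414_nt

open ArithmeticFunction Finset Filter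

theorem center_lower {n J s : ℕ} (hm : IsMode n J) (hs1 : 1 ≤ s) (hs : 64 * s ^ 2 ≤ J) :
    ∀ i, i ≤ 3 * s → w (J + 1) n / 2 ≤ w (J + 1 + i) n := by
  have hn0 := hm.1
  have hJ1 := hm.2.1
  have hJ0 : (0 : ℝ) < J := by exact_mod_cast hJ1
  have hs' : 64 * (s : ℝ) ^ 2 ≤ J := by exact_mod_cast hs
  have hs1' : (1 : ℝ) ≤ s := by exact_mod_cast hs1
  set z : ℝ := (3 * s + 1) / J with hz
  have hz0 : 0 ≤ z := by rw [hz]; positivity
  have hz1 : z * (3 * s) ≤ 3 / 16 := by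
    rw [hz, div_mul_eq_mul_div, div_le_iff₀ hJ0]
    nlinarith
  have hz2 : z ≤ 3 / 16 := by nlinarith
  have hw0 : 0 < w (J + 1) n := w_pos (by omega) hn0
  have key : ∀ i, i ≤ 3 * s → (1 - z * i) * w (J + 1) n ≤ w (J + 1 + i) n := by
    intro i
    induction i with
    | zero => intro _; simp
    | succ i ih =>
      intro hi
      have ih' := ih (by omega)
      have e : J + 1 + (i + 1) = (J + 1 + i) + 1 := by omega
      rw [e, w_succ (j := J + 1 + i) (by omega) hn0]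
      have h1 := Fn_ge_upper hm (x := ((J + 1 + i : ℕ) : ℝ)) (by push_cast; linarith [(Nat.cast_nonneg i : (0 : ℝ) ≤ i)])
      have hi' : (i : ℝ) + 1 ≤ 3 * s := by exact_mod_cast hi
      have hi0 : (0 : ℝ) ≤ i := by positivity
      have h2 : 1 - z ≤ (J : ℝ) / ((J + 1 + i : ℕ) : ℝ) := by
        push_cast
        rw [le_div_iff₀ (by linarith), hz]
        have e2 : (1 - (3 * (s : ℝ) + 1) / J) * (J + 1 + i)
            = J + 1 + i - (3 * s + 1) - (3 * s + 1) * (1 + i) / J := by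
          field_simp
          ring
        rw [e2]
        have : 0 ≤ (3 * (s : ℝ) + 1) * (1 + i) / J := by positivity
        linarith
      have h3 : 1 - z ≤ Fn n ((J + 1 + i : ℕ) : ℝ) / 2 := by linarith
      have h4 : (1 - z * ((i + 1 : ℕ) : ℝ)) ≤ (1 - z) * (1 - z * i) := by
        push_cast
        nlinarith [mul_nonneg (mul_nonneg hz0 hz0) hi0]
      have h5 : 0 ≤ 1 - z * i := by
        have : z * i ≤ z * (3 * s) := mul_le_mul_of_nonneg_left (by linarith) hz0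
        linarith
      calc (1 - z * ((i + 1 : ℕ) : ℝ)) * w (J + 1) n
          ≤ ((1 - z) * (1 - z * i)) * w (J + 1) n := mul_le_mul_of_nonneg_right h4 hw0.le
        _ = (1 - z) * ((1 - z * i) * w (J + 1) n) := by ring
        _ ≤ Fn n ((J + 1 + i : ℕ) : ℝ) / 2 * w (J + 1 + i) n :=
            mul_le_mul h3 ih' (mul_nonneg h5 hw0.le) (by linarith)
  intro i hi
  refine le_trans ?_ (key i hi)
  have hi' : (i : ℝ) ≤ 3 * s := by exact_mod_cast hi
  have : z * i ≤ z * (3 * s) := mul_le_mul_of_nonneg_left hi' hz0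
  nlinarith

theorem center_upper_right {n J s : ℕ} (hm : IsMode n J) (hs1 : 1 ≤ s) (hsJ : s ≤ J) :
    ∀ i, J + 1 + i ≤ J + J / 1000 → w (J + 1 + i) n
      ≤ (1 - (s : ℝ) / (3 * J)) ^ (i - (s + 1)) * w (J + 1) n := by
  have hn0 := hm.1
  have hJ1 := hm.2.1
  have hJ0 : (0 : ℝ) < J := by exact_mod_cast hJ1
  have hsJ' : (s : ℝ) ≤ J := by exact_mod_cast hsJ
  have hθ0 : 0 ≤ 1 - (s : ℝ) / (3 * J) := by
    have : (s : ℝ) / (3 * J) ≤ 1 := by rw [div_le_one (by positivity)]; linarith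
    linarith
  intro i
  induction i with
  | zero => intro _; simp
  | succ i ih =>
    intro hi
    have ih' := ih (by omega)
    have e : J + 1 + (i + 1) = (J + 1 + i) + 1 := by omega
    rw [e, w_succ (j := J + 1 + i) (by omega) hn0]
    have h1 := Fn_le_upper hm (x := ((J + 1 + i : ℕ) : ℝ)) (by push_cast; linarith [(Nat.cast_nonneg i : (0 : ℝ) ≤ i)])
    have hi0 : (0 : ℝ) ≤ i := by positivity
    have hx0 : (0 : ℝ) < ((J + 1 + i : ℕ) : ℝ) := by positivity
    have hw := w_nonneg (J + 1 + i) n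
    rcases Nat.lt_or_ge i (s + 1) with h | h
    · -- exponent stays zero
      have e1 : i + 1 - (s + 1) = i - (s + 1) ∨ i = s := by omega
      have hle : w (J + 1 + i) n ≤ w (J + 1) n := by
        have e2 : i - (s + 1) = 0 := by omega
        rw [e2, pow_zero, one_mul] at ih'
        exact ih'
      have e3 : i + 1 - (s + 1) = 0 := by omega
      rw [e3, pow_zero, one_mul]
      have h2 : Fn n ((J + 1 + i : ℕ) : ℝ) / 2 ≤ 1 := by
        have : ((J : ℝ) + 1) / ((J + 1 + i : ℕ) : ℝ) ≤ 1 := by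
          rw [div_le_one hx0]; push_cast; linarith
        linarith
      calc Fn n ((J + 1 + i : ℕ) : ℝ) / 2 * w (J + 1 + i) n ≤ 1 * w (J + 1 + i) n :=
            mul_le_mul_of_nonneg_right h2 hw
        _ ≤ w (J + 1) n := by rw [one_mul]; exact hle
    · have e3 : i + 1 - (s + 1) = (i - (s + 1)) + 1 := by omega
      rw [e3, pow_succ]
      have h2 : Fn n ((J + 1 + i : ℕ) : ℝ) / 2 ≤ 1 - (s : ℝ) / (3 * J) := by
        have h3 : ((J : ℝ) + 1) / ((J + 1 + i : ℕ) : ℝ) ≤ 1 - 2 * ((s : ℝ) / (3 * J)) := by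
          rw [div_le_iff₀ hx0]
          have e4 : (1 - 2 * ((s : ℝ) / (3 * J))) * ((J + 1 + i : ℕ) : ℝ)
              = (J + 1 + i : ℝ) - (2 * s * (J + 1 + i)) / (3 * J) := by
            push_cast; ring
          rw [e4]
          have h5 : 1000 * (J + 1 + i) ≤ 1001 * J := by omega
          have h5' : 1000 * ((J : ℝ) + 1 + i) ≤ 1001 * J := by exact_mod_cast h5
          have h6 : (2 * (s : ℝ) * (J + 1 + i)) / (3 * J) ≤ s := by
            rw [div_le_iff₀ (by positivity)]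
            nlinarith
          have h7 : (s : ℝ) + 1 ≤ i := by exact_mod_cast h
          linarith
        linarith
      calc Fn n ((J + 1 + i : ℕ) : ℝ) / 2 * w (J + 1 + i) n
          ≤ (1 - (s : ℝ) / (3 * J)) * ((1 - (s : ℝ) / (3 * J)) ^ (i - (s + 1)) * w (J + 1) n) :=
            mul_le_mul h2 ih' hw hθ0
        _ = _ := by ring

theorem center_upper_left {n J s : ℕ} (hm : IsMode n J) (hs1 : 1 ≤ s) (hsJ : s ≤ J) :
    ∀ i, i ≤ J → w (J + 1 - i) n
      ≤ (1 - (s : ℝ) / (3 * J)) ^ (i - (s + 1)) * w (J + 1) n := by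
  have hn0 := hm.1
  have hJ1 := hm.2.1
  have hJ0 : (0 : ℝ) < J := by exact_mod_cast hJ1
  have hsJ' : (s : ℝ) ≤ J := by exact_mod_cast hsJ
  have hθ0 : 0 ≤ 1 - (s : ℝ) / (3 * J) := by
    have : (s : ℝ) / (3 * J) ≤ 1 := by rw [div_le_one (by positivity)]; linarith
    linarith
  intro i
  induction i with
  | zero => intro _; simp
  | succ i ih =>
    intro hi
    have ih' := ih (by omega)
    obtain ⟨j, hj⟩ : ∃ j, J + 1 - (i + 1) = j := ⟨_, rfl⟩
    have hj1 : 1 ≤ j := by omega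
    have hjJ : j + i = J := by omega
    have e1 : J + 1 - i = j + 1 := by omega
    rw [hj]
    rw [e1, w_succ hj1 hn0] at ih'
    have hj0 : (0 : ℝ) < j := by exact_mod_cast hj1
    have hjJ' : (j : ℝ) + i = J := by exact_mod_cast hjJ
    have hi0 : (0 : ℝ) ≤ i := by positivity
    have h1 := Fn_ge_lower hm hj0 (by linarith)
    have hw := w_nonneg j n
    have hw1 := w_nonneg (J + 1) n
    have hFpos : 1 ≤ Fn n j / 2 := by
      have : 1 ≤ (J : ℝ) / j := by rw [one_le_div hj0]; linarith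
      linarith
    rcases Nat.lt_or_ge i (s + 1) with h | h
    · have e3 : i + 1 - (s + 1) = 0 := by omega
      have e2 : i - (s + 1) = 0 := by omega
      rw [e2, pow_zero, one_mul] at ih'
      rw [e3, pow_zero, one_mul]
      nlinarith
    · have e3 : i + 1 - (s + 1) = (i - (s + 1)) + 1 := by omega
      rw [e3, pow_succ]
      have h2 : 1 ≤ (1 - (s : ℝ) / (3 * J)) * (Fn n j / 2) := by
        have h7 : (s : ℝ) + 1 ≤ i := by exact_mod_cast h
        have h3 : 1 + (i : ℝ) / (2 * j) ≤ Fn n j / 2 := by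
          have e4 : (J : ℝ) / j = 1 + i / j := by
            rw [← hjJ']; field_simp
          have e5 : (i : ℝ) / (2 * j) = (i / j) / 2 := by
            field_simp
          rw [e5]; linarith
        have h4 : 1 + (s : ℝ) / (2 * J) ≤ 1 + (i : ℝ) / (2 * j) := by
          have : (s : ℝ) / (2 * J) ≤ (i : ℝ) / (2 * j) :=
            div_le_div₀ hi0 (by linarith) (by positivity) (by linarith)
          linarith
        have h5 : 1 ≤ (1 - (s : ℝ) / (3 * J)) * (1 + (s : ℝ) / (2 * J)) := by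
          set y := (s : ℝ) / J with hy
          have e6 : (s : ℝ) / (3 * J) = y / 3 := by rw [hy]; field_simp
          have e7 : (s : ℝ) / (2 * J) = y / 2 := by rw [hy]; field_simp
          rw [e6, e7]
          have hy0 : 0 ≤ y := by rw [hy]; positivity
          have hy1 : y ≤ 1 := by rw [hy, div_le_one hJ0]; exact hsJ'
          nlinarith
        calc (1 : ℝ) ≤ _ := h5
          _ ≤ _ := mul_le_mul_of_nonneg_left (h4.trans h3) hθ0
      calc w j n = 1 * w j n := (one_mul _).symm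
        _ ≤ ((1 - (s : ℝ) / (3 * J)) * (Fn n j / 2)) * w j n := mul_le_mul_of_nonneg_right h2 hw
        _ = (1 - (s : ℝ) / (3 * J)) * (Fn n j / 2 * w j n) := by ring
        _ ≤ (1 - (s : ℝ) / (3 * J)) * ((1 - (s : ℝ) / (3 * J)) ^ (i - (s + 1)) * w (J + 1) n) :=
            mul_le_mul_of_nonneg_left ih' hθ0
        _ = _ := by ring

theorem geom_trunc {θ : ℝ} (h0 : 0 ≤ θ) (h1 : θ < 1) (s N : ℕ) :
    ∑ i ∈ Finset.range N, θ ^ (i - s) ≤ s + 1 / (1 - θ) := by
  calc ∑ i ∈ Finset.range N, θ ^ (i - s) ≤ ∑ i ∈ Finset.range (s + N), θ ^ (i - s) :=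
        Finset.sum_le_sum_of_subset_of_nonneg (Finset.range_mono (by omega))
          (fun i _ _ => by positivity)
    _ = ∑ i ∈ Finset.range s, θ ^ (i - s) + ∑ i ∈ Finset.range N, θ ^ (s + i - s) := by
        rw [Finset.sum_range_add]
    _ ≤ s + 1 / (1 - θ) := by
        have e1 : ∑ i ∈ Finset.range s, θ ^ (i - s) = s := by
          rw [Finset.sum_congr rfl (g := fun _ => (1 : ℝ))]
          · simp
          · intro i hi
            rw [Finset.mem_range] at hi
            have : i - s = 0 := by omega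
            rw [this, pow_zero]
        have e2 : ∑ i ∈ Finset.range N, θ ^ (s + i - s) ≤ 1 / (1 - θ) := by
          have : ∀ i ∈ Finset.range N, θ ^ (s + i - s) = θ ^ i := by
            intro i _; congr 1; omega
          rw [Finset.sum_congr rfl this, one_div, ← tsum_geometric_of_lt_one h0 h1]
          exact (summable_geometric_of_lt_one h0 h1).sum_le_tsum _ (fun i _ => by positivity)
        linarith

theorem center_total {n J s : ℕ} (hm : IsMode n J) (hs1 : 1 ≤ s) (hsJ : s ≤ J)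
    (hJs : J ≤ 256 * s ^ 2) (hJbig : 2000 ≤ J) :
    ∑ j ∈ W J, w j n ≤ 1540 * s * w (J + 1) n := by
  have hn0 := hm.1
  have hJ1 := hm.2.1
  have hJ0 : (0 : ℝ) < J := by exact_mod_cast hJ1
  have hsJ' : (s : ℝ) ≤ J := by exact_mod_cast hsJ
  have hs0 : (1 : ℝ) ≤ s := by exact_mod_cast hs1
  set θ : ℝ := 1 - (s : ℝ) / (3 * J) with hθ
  have hθ0 : 0 ≤ θ := by
    have : (s : ℝ) / (3 * J) ≤ 1 := by rw [div_le_one (by positivity)]; linarith
    rw [hθ]; linarith
  have hθ1 : θ < 1 := by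
    have : 0 < (s : ℝ) / (3 * J) := by positivity
    rw [hθ]; linarith
  have hinv : 1 / (1 - θ) ≤ 768 * s := by
    have e : 1 - θ = (s : ℝ) / (3 * J) := by rw [hθ]; ring
    rw [e, one_div_div, div_le_iff₀ (by linarith)]
    have : (J : ℝ) ≤ 256 * s ^ 2 := by exact_mod_cast hJs
    nlinarith
  have hw0 : 0 < w (J + 1) n := w_pos (by omega) hn0
  -- right part
  have hright : ∑ j ∈ (W J).filter (fun j => J + 1 ≤ j), w j n
      ≤ (s + 1 + 768 * s) * w (J + 1) n := by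
    have hsub : (W J).filter (fun j => J + 1 ≤ j)
        ⊆ (Finset.range (J / 1000)).image (fun i => J + 1 + i) := by
      intro j hj
      rw [Finset.mem_filter, mem_W] at hj
      rw [Finset.mem_image]
      exact ⟨j - (J + 1), by rw [Finset.mem_range]; omega, by omega⟩
    calc ∑ j ∈ (W J).filter (fun j => J + 1 ≤ j), w j n
        ≤ ∑ j ∈ (Finset.range (J / 1000)).image (fun i => J + 1 + i), w j n :=
          Finset.sum_le_sum_of_subset_of_nonneg hsub (fun j _ _ => w_nonneg _ _)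
      _ = ∑ i ∈ Finset.range (J / 1000), w (J + 1 + i) n := by
          rw [Finset.sum_image]
          intro a _ b _ h
          simp only at h
          omega
      _ ≤ ∑ i ∈ Finset.range (J / 1000), θ ^ (i - (s + 1)) * w (J + 1) n := by
          refine Finset.sum_le_sum fun i hi => ?_
          rw [Finset.mem_range] at hi
          exact center_upper_right hm hs1 hsJ i (by omega)
      _ ≤ _ := by
          rw [← Finset.sum_mul]
          refine mul_le_mul_of_nonneg_right ?_ hw0.le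
          have := geom_trunc hθ0 hθ1 (s + 1) (J / 1000)
          push_cast at this
          linarith
  have hleft : ∑ j ∈ (W J).filter (fun j => ¬ J + 1 ≤ j), w j n
      ≤ (s + 1 + 768 * s) * w (J + 1) n := by
    have hsub : (W J).filter (fun j => ¬ J + 1 ≤ j)
        ⊆ (Finset.range (J / 1000 + 2)).image (fun i => J + 1 - i) := by
      intro j hj
      rw [Finset.mem_filter, mem_W] at hj
      rw [Finset.mem_image]
      exact ⟨(J + 1) - j, by rw [Finset.mem_range]; omega, by omega⟩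
    calc ∑ j ∈ (W J).filter (fun j => ¬ J + 1 ≤ j), w j n
        ≤ ∑ j ∈ (Finset.range (J / 1000 + 2)).image (fun i => J + 1 - i), w j n :=
          Finset.sum_le_sum_of_subset_of_nonneg hsub (fun j _ _ => w_nonneg _ _)
      _ = ∑ i ∈ Finset.range (J / 1000 + 2), w (J + 1 - i) n := by
          rw [Finset.sum_image]
          intro a ha b hb h
          rw [Finset.mem_coe, Finset.mem_range] at ha hb
          simp only at h
          omega
      _ ≤ ∑ i ∈ Finset.range (J / 1000 + 2), θ ^ (i - (s + 1)) * w (J + 1) n := by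
          refine Finset.sum_le_sum fun i hi => ?_
          rw [Finset.mem_range] at hi
          exact center_upper_left hm hs1 hsJ i (by omega)
      _ ≤ _ := by
          rw [← Finset.sum_mul]
          refine mul_le_mul_of_nonneg_right ?_ hw0.le
          have := geom_trunc hθ0 hθ1 (s + 1) (J / 1000 + 2)
          push_cast at this
          linarith
  rw [← Finset.sum_filter_add_sum_filter_not (W J) (fun j => J + 1 ≤ j)]
  nlinarith

theorem block_lower {n J s : ℕ} (hm : IsMode n J) (hs1 : 1 ≤ s) (hs : 64 * s ^ 2 ≤ J)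
    (h3 : 3 * s + 1 ≤ J / 1000) {S : Finset ℕ} {k : ℕ} (hk : k + s ≤ 3 * s)
    (hS : ∀ i, i < s → J + 1 + (k + i) ∈ S) :
    (s : ℝ) * (w (J + 1) n / 2) ≤ ∑ j ∈ S, w j n := by
  have hsub : (Finset.range s).image (fun i => J + 1 + (k + i)) ⊆ S := by
    intro j hj
    rw [Finset.mem_image] at hj
    obtain ⟨i, hi, rfl⟩ := hj
    exact hS i (Finset.mem_range.1 hi)
  calc (s : ℝ) * (w (J + 1) n / 2) = ∑ i ∈ Finset.range s, w (J + 1) n / 2 := by
        rw [Finset.sum_const, Finset.card_range, nsmul_eq_mul]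
    _ ≤ ∑ i ∈ Finset.range s, w (J + 1 + (k + i)) n := by
        refine Finset.sum_le_sum fun i hi => ?_
        rw [Finset.mem_range] at hi
        exact center_lower hm hs1 hs (k + i) (by omega)
    _ = ∑ j ∈ (Finset.range s).image (fun i => J + 1 + (k + i)), w j n := by
        rw [Finset.sum_image]
        intro a _ b _ h
        simp only at h
        omega
    _ ≤ _ := Finset.sum_le_sum_of_subset_of_nonneg hsub (fun j _ _ => w_nonneg _ _)

theorem center {n J s : ℕ} (hm : IsMode n J) (hs1 : 1 ≤ s) (hs : 64 * s ^ 2 ≤ J)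
    (hJs : J ≤ 256 * s ^ 2) (h3 : 3 * s + 1 ≤ J / 1000) (hJbig : 2000 ≤ J) :
    (1 / 3080 : ℝ) * ∑ j ∈ W J, w j n ≤ ∑ l ∈ (W J).filter (fun l => l ≤ J + 1 + s), w l n ∧
    (1 / 3080 : ℝ) * ∑ j ∈ W J, w j n
      ≤ ∑ i ∈ (W J).filter (fun i => J + 1 + s + s ≤ i), w i n := by
  have hsJ : s ≤ J := by nlinarith
  have htot := center_total hm hs1 hsJ hJs hJbig
  have hb1 := block_lower hm hs1 hs h3 (S := (W J).filter (fun l => l ≤ J + 1 + s)) (k := 0)
    (by omega) (fun i hi => by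
      rw [Finset.mem_filter, mem_W]; omega)
  have hb2 := block_lower hm hs1 hs h3 (S := (W J).filter (fun i => J + 1 + s + s ≤ i))
    (k := 2 * s) (by omega) (fun i hi => by
      rw [Finset.mem_filter, mem_W]; omega)
  constructor <;> linarith

end Pool.Agent.Lib.MP_9f8414_nt
end

section

/-!
# Conclusion: only finitely many numbers are both RHC and RSA
-/

namespace Pool.Agent.Lib.MP_9f8414_nt

open ArithmeticFunction Finset Filter

/-- all structural facts for large `J` -/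
structure Good (n J : ℕ) : Prop where
  mode : IsMode n J
  regime : Regime n J
  a2_le : (n.factorization 2 : ℝ) ≤ 58 / 100 * J
  a_le : ∀ p : ℕ, p.Prime → n.factorization p ≤ n.factorization 2
  low : ∀ p a : ℕ, p.Prime → p < 2 ^ a → a ≤ J / 100000 →
      99 / 100 * (J : ℝ) ≤ (3981 / 1000 : ℝ) ^ a * (n.factorization p + 1)
  tailw : H n ≤ (1 + 1 / (J : ℝ)) * ∑ j ∈ W J, w j n
  tailv : BB n ≤ (1 + 1 / (J : ℝ)) * ∑ j ∈ W J, v j n
  slope : ∀ j ∈ W J, v (j + 1) n * w j n ≤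
      Real.exp (-(J : ℝ) ^ (-(9991 / 10000) : ℝ)) * (w (j + 1) n * v j n)

theorem exists_good : ∃ J0 : ℕ, ∀ J : ℕ, J0 ≤ J → ∀ n : ℕ, 3 ≤ n →
    RecursivelyHighlyComposite n → IsMode n J → Good n J := by
  obtain ⟨J1, h1⟩ := swap
  obtain ⟨J2, h2⟩ := upper_facts
  obtain ⟨J3, h3⟩ := alpha2_ge
  obtain ⟨J4, h4⟩ := lower_facts
  obtain ⟨J5, h5⟩ := tail_w
  obtain ⟨J6, h6⟩ := tail_v
  obtain ⟨J7, h7⟩ := slope
  obtain ⟨J8, h8⟩ := sum_primes_large
  refine ⟨J1 + J2 + J3 + J4 + J5 + J6 + J7 + J8 + 10 ^ 30, fun J hJ n hn hR hm => ?_⟩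
  have hs := h1 J (by omega) n hn hR hm
  obtain ⟨hu1, hu2, hu3⟩ := h2 J (by omega) n hm hs
  have hJ6 : 1000000 ≤ J := by omega
  have hα2 := alpha2_le hJ6 hm hs
  have hα2' := h3 J (by omega) n hm hs
  have hω := omega_small (J := J) (by omega) hu3
  have hJr : (0 : ℝ) ≤ J := by positivity
  refine ⟨hm, hu2, hα2, ?_, h4 J (by omega) n hm hs, h5 J (by omega) n (by omega) hm,
    h6 J (by omega) n hm hu2 hω, ?_⟩
  · intro p hp
    by_cases hp2 : p = 2
    · rw [hp2]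
    by_cases hmem : p ∈ n.primeFactors
    · have h9 := hu1 p hmem hp2
      have : (n.factorization p : ℝ) ≤ n.factorization 2 := by linarith
      exact_mod_cast this
    · have : n.factorization p = 0 := by
        rw [← Finsupp.notMem_support_iff]
        simpa using hmem
      omega
  · refine h7 J (by omega) n hm hu2 (fun p hp => ?_) (h8 J (by omega) n hm hs)
    by_cases hp2 : p = 2
    · rw [hp2]; exact hα2
    · have := hu1 p hp hp2
      linarith

theorem avg_sub_const {J : ℕ} {u : ℕ → ℝ} (hpos : ∀ j ∈ W J, 0 < u j) (φ : ℕ → ℝ) (c : ℝ) :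
    avg J u (fun j => φ j - c) = avg J u φ - c := by
  have hS := sum_W_pos hpos
  unfold avg
  have : ∑ j ∈ W J, u j * (φ j - c) = ∑ j ∈ W J, u j * φ j - (∑ j ∈ W J, u j) * c := by
    rw [Finset.sum_mul, ← Finset.sum_sub_distrib]
    exact Finset.sum_congr rfl fun j _ => by ring
  rw [this, sub_div, mul_div_assoc, mul_comm, div_mul_cancel₀ _ hS.ne']

theorem avg_congr {J : ℕ} {u φ ψ : ℕ → ℝ} (h : ∀ j ∈ W J, φ j = ψ j) :
    avg J u φ = avg J u ψ := by
  unfold avg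
  congr 1
  exact Finset.sum_congr rfl fun j hj => by rw [h j hj]

theorem avg_nonneg {J : ℕ} {u φ : ℕ → ℝ} (hpos : ∀ j ∈ W J, 0 < u j) (h : ∀ j ∈ W J, 0 ≤ φ j) :
    0 ≤ avg J u φ := by
  unfold avg
  exact div_nonneg (Finset.sum_nonneg fun j hj => mul_nonneg (hpos j hj).le (h j hj))
    (sum_W_pos hpos).le

theorem avg_le {J : ℕ} {u φ : ℕ → ℝ} (hpos : ∀ j ∈ W J, 0 < u j) {C : ℝ}
    (h : ∀ j ∈ W J, φ j ≤ C) : avg J u φ ≤ C := by
  unfold avg
  rw [div_le_iff₀ (sum_W_pos hpos), Finset.mul_sum]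
  refine Finset.sum_le_sum fun j hj => ?_
  rw [mul_comm C]
  exact mul_le_mul_of_nonneg_left (h j hj) (hpos j hj).le

theorem log_r_eq {j k : ℕ} (hj : 1 ≤ j) :
    Real.log (r j k) = lg (k : ℝ) j - Real.log ((k : ℝ) + 1) := by
  unfold r lg
  have h1 : (0 : ℝ) < j := by exact_mod_cast hj
  rw [Real.log_div (by positivity) (by positivity)]

theorem g_eq_Phi {n J : ℕ} (hm : IsMode n J) (p : ℕ) :
    gH n J p - gB n J p = Phi J (fun j => w j n) (fun j => v j n) (n.factorization p) := by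
  have hn0 := hm.1
  have hw : ∀ j ∈ W J, 0 < w j n := fun j hj => w_pos (one_le_of_mem_W hm.2.1 hj) hn0
  have hv : ∀ j ∈ W J, 0 < v j n := fun j _ => v_pos j hn0
  unfold gH gB Phi
  rw [avg_congr (u := fun j => w j n) (fun j hj => log_r_eq (k := n.factorization p)
      (one_le_of_mem_W hm.2.1 hj)),
    avg_congr (u := fun j => v j n) (fun j hj => log_r_eq (k := n.factorization p)
      (one_le_of_mem_W hm.2.1 hj)), avg_sub_const hw, avg_sub_const hv]
  ring

theorem g_bounds {n J : ℕ} (hJ : 1 ≤ J) {u : ℕ → ℝ} (hu : ∀ j ∈ W J, 0 < u j) (p : ℕ) :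
    0 ≤ avg J u (fun j => Real.log (r j (n.factorization p))) ∧
    avg J u (fun j => Real.log (r j (n.factorization p))) ≤ 2 * J := by
  constructor
  · refine avg_nonneg hu fun j hj => ?_
    exact Real.log_nonneg (r_one_le (one_le_of_mem_W hJ hj) _)
  · refine avg_le hu fun j hj => ?_
    have hj1 := one_le_of_mem_W hJ hj
    have hj0 : (1 : ℝ) ≤ j := by exact_mod_cast hj1
    have h1 : r j (n.factorization p) ≤ j := by
      apply r_le_of
      have : (0 : ℝ) ≤ n.factorization p := by positivity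
      nlinarith
    have h2 := Real.log_le_log (r_pos hj1 _) h1
    have h3 := Real.log_le_sub_one_of_pos (by linarith : (0 : ℝ) < j)
    have h4 := (W_bounds hj).2
    have h5 : (0 : ℝ) ≤ J := by positivity
    linarith

theorem cadd_bound {c : ℕ → ℝ} {C : ℝ} (h0 : ∀ p, 0 ≤ c p) (h1 : ∀ p, c p ≤ C) {x : ℕ}
    (hx : x ≠ 0) : |cadd c x| ≤ x * C := by
  have hC : 0 ≤ C := (h0 0).trans (h1 0)
  have hnn : 0 ≤ cadd c x := Finset.sum_nonneg fun p _ => mul_nonneg (by positivity) (h0 p)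
  rw [abs_of_nonneg hnn]
  calc cadd c x ≤ ∑ p ∈ x.primeFactors, (x.factorization p : ℝ) * C := by
        refine Finset.sum_le_sum fun p _ => mul_le_mul_of_nonneg_left (h1 p) (by positivity)
    _ = ((∑ p ∈ x.primeFactors, x.factorization p : ℕ) : ℝ) * C := by
        rw [← Finset.sum_mul]; push_cast; rfl
    _ ≤ x * C := by
        refine mul_le_mul_of_nonneg_right ?_ hC
        have e : ∑ p ∈ x.primeFactors, x.factorization p = cardFactors x := by
          rw [cardFactors_eq_sum_factorization, Finsupp.sum]; rfl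
        rw [e]
        have h2 : 2 ^ (cardFactors x) ≤ x := by
          have := Nat.prod_primeFactorsList hx
          calc 2 ^ cardFactors x = 2 ^ x.primeFactorsList.length := rfl
            _ ≤ x.primeFactorsList.prod := by
              refine List.pow_card_le_prod _ _ fun p hp => ?_
              exact (Nat.prime_of_mem_primeFactorsList hp).two_le
            _ = x := this
        have h3 : cardFactors x < 2 ^ (cardFactors x) := Nat.lt_two_pow_self
        exact_mod_cast (by omega : cardFactors x ≤ x)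

end Pool.Agent.Lib.MP_9f8414_nt
end

section

/-!
# Conclusion: large modes are impossible
-/

namespace Pool.Agent.Lib.MP_9f8414_nt

open ArithmeticFunction Finset Filter

theorem asym (Ck c C3 : ℝ) (hCk : 1 ≤ Ck) (hc : 0 < c) :
    ∃ x0 : ℝ, ∀ x : ℝ, x0 ≤ x → 1 ≤ x ∧
      2 / x ≤ c / 4 * x ^ (-(9991 / 10000) : ℝ) ∧
      172560 * (Ck ^ 2 * x ^ (1 / 5000 : ℝ)) / x ≤ c / 4 * x ^ (-(9991 / 10000) : ℝ) ∧
      C3 / x ^ 2 ≤ c / 4 * x ^ (-(9991 / 10000) : ℝ) ∧
      2 * (Ck * x ^ (1 / 10000 : ℝ)) + 4400 ≤ x / (5 * (Ck ^ 2 * x ^ (1 / 5000 : ℝ))) := by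
  have t1 := (tendsto_rpow_atTop (by norm_num : (0 : ℝ) < 9 / 10000)).eventually
    (eventually_ge_atTop (8 / c))
  have t2 := (tendsto_rpow_atTop (by norm_num : (0 : ℝ) < 7 / 10000)).eventually
    (eventually_ge_atTop (4 * 172560 * Ck ^ 2 / c))
  have t3 := (tendsto_rpow_atTop (by norm_num : (0 : ℝ) < 10009 / 10000)).eventually
    (eventually_ge_atTop (4 * C3 / c))
  have t4 := (tendsto_rpow_atTop (by norm_num : (0 : ℝ) < 9997 / 10000)).eventually
    (eventually_ge_atTop ((2 * Ck + 4400) * (5 * Ck ^ 2)))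
  obtain ⟨x0, hx0⟩ := Filter.eventually_atTop.1
    (t1.and (t2.and (t3.and (t4.and (eventually_ge_atTop (1 : ℝ))))))
  refine ⟨x0, fun x hx => ?_⟩
  obtain ⟨h1, h2, h3, h4, h5⟩ := hx0 x hx
  have hx' : 0 < x := by linarith
  have hlam : 0 < x ^ (-(9991 / 10000) : ℝ) := Real.rpow_pos_of_pos hx' _
  have hCk0 : 0 < Ck := by linarith
  refine ⟨h5, ?_, ?_, ?_, ?_⟩
  · have e2 : x ^ (-(9991 / 10000) : ℝ) * x = x ^ (9 / 10000 : ℝ) := by
      have : x ^ (-(9991 / 10000) : ℝ) * x = x ^ (-(9991 / 10000) : ℝ) * x ^ (1 : ℝ) := by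
        rw [Real.rpow_one]
      rw [this, ← Real.rpow_add hx']; norm_num
    rw [div_le_iff₀ hx', mul_assoc, e2]
    rw [div_le_iff₀ hc] at h1
    linarith
  · rw [div_le_iff₀ hx', mul_assoc (c / 4)]
    have e2 : x ^ (-(9991 / 10000) : ℝ) * x = x ^ (1 / 5000 : ℝ) * x ^ (7 / 10000 : ℝ) := by
      have : x ^ (-(9991 / 10000) : ℝ) * x = x ^ (-(9991 / 10000) : ℝ) * x ^ (1 : ℝ) := by
        rw [Real.rpow_one]
      rw [this, ← Real.rpow_add hx', ← Real.rpow_add hx']; norm_num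
    rw [e2]
    have h6 : 0 < x ^ (1 / 5000 : ℝ) := Real.rpow_pos_of_pos hx' _
    rw [div_le_iff₀ hc] at h2
    nlinarith
  · rw [div_le_iff₀ (by positivity), mul_assoc (c / 4)]
    have e2 : x ^ (-(9991 / 10000) : ℝ) * x ^ 2 = x ^ (10009 / 10000 : ℝ) := by
      rw [← Real.rpow_natCast x 2, ← Real.rpow_add hx']; norm_num
    rw [e2]
    rw [div_le_iff₀ hc] at h3
    linarith
  · have h6 : 0 < x ^ (1 / 5000 : ℝ) := Real.rpow_pos_of_pos hx' _
    have h7 : 1 ≤ x ^ (1 / 10000 : ℝ) := Real.one_le_rpow h5 (by norm_num)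
    rw [le_div_iff₀ (by positivity)]
    have e2 : x = x ^ (9997 / 10000 : ℝ) * (x ^ (1 / 10000 : ℝ) * x ^ (1 / 5000 : ℝ)) := by
      rw [← Real.rpow_add hx', ← Real.rpow_add hx']; norm_num
    have h8 : (2 * (Ck * x ^ (1 / 10000 : ℝ)) + 4400) ≤ (2 * Ck + 4400) * x ^ (1 / 10000 : ℝ) := by
      nlinarith
    calc (2 * (Ck * x ^ (1 / 10000 : ℝ)) + 4400) * (5 * (Ck ^ 2 * x ^ (1 / 5000 : ℝ)))
        ≤ ((2 * Ck + 4400) * x ^ (1 / 10000 : ℝ)) * (5 * (Ck ^ 2 * x ^ (1 / 5000 : ℝ))) := by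
          refine mul_le_mul_of_nonneg_right h8 (by positivity)
      _ = ((2 * Ck + 4400) * (5 * Ck ^ 2)) * (x ^ (1 / 10000 : ℝ) * x ^ (1 / 5000 : ℝ)) := by ring
      _ ≤ x ^ (9997 / 10000 : ℝ) * (x ^ (1 / 10000 : ℝ) * x ^ (1 / 5000 : ℝ)) := by
          refine mul_le_mul_of_nonneg_right h4 (by positivity)
      _ = x := e2.symm

theorem sqrt_facts {J : ℕ} (hJ : 10 ^ 8 ≤ J) :
    1 ≤ Nat.sqrt J / 8 ∧ 64 * (Nat.sqrt J / 8) ^ 2 ≤ J ∧ J ≤ 256 * (Nat.sqrt J / 8) ^ 2 ∧
      3 * (Nat.sqrt J / 8) + 1 ≤ J / 1000 := by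
  set q := Nat.sqrt J with hq
  have h1 : q * q ≤ J := Nat.sqrt_le J
  have h2 : J < (q + 1) * (q + 1) := Nat.sqrt_lt_self_succ J
  have h3 : 10000 ≤ q := by
    rw [hq, Nat.le_sqrt]; norm_num; exact hJ
  set s := q / 8 with hs
  have h4 : 8 * s ≤ q := by omega
  have h5 : q + 1 ≤ 8 * s + 8 := by omega
  have h6 : 1 ≤ s := by omega
  refine ⟨h6, ?_, ?_, ?_⟩
  · nlinarith
  · nlinarith
  · rw [Nat.le_div_iff_mul_le (by norm_num)]
    nlinarith
where
  Nat.sqrt_lt_self_succ (J : ℕ) : J < (Nat.sqrt J + 1) * (Nat.sqrt J + 1) := Nat.lt_succ_sqrt J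

theorem Phi_final {n J : ℕ} (hJ : 10 ^ 8 ≤ J) (hg : Good n J) :
    (1 / 3080 : ℝ) ^ 2 / 2048 * (J : ℝ) ^ (-(9991 / 10000) : ℝ)
      ≤ Phi J (fun j => w j n) (fun j => v j n) (n.factorization 2) := by
  obtain ⟨hs1, hs2, hs3, hs4⟩ := sqrt_facts hJ
  set s := Nat.sqrt J / 8 with hs
  have hm := hg.mode
  have hJ1 := hm.2.1
  have hn0 := hm.1
  obtain ⟨hc1, hc2⟩ := center hm hs1 hs2 hs3 hs4 (by omega)
  have hJ0 : (0 : ℝ) < J := by exact_mod_cast hJ1
  have hJr : (1 : ℝ) ≤ J := by exact_mod_cast hJ1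
  set lam := (J : ℝ) ^ (-(9991 / 10000) : ℝ) with hlam
  have hlam0 : 0 < lam := Real.rpow_pos_of_pos hJ0 _
  have hs0 : (1 : ℝ) ≤ s := by exact_mod_cast hs1
  have hs2' : 64 * (s : ℝ) ^ 2 ≤ J := by exact_mod_cast hs2
  have hs3' : (J : ℝ) ≤ 256 * (s : ℝ) ^ 2 := by exact_mod_cast hs3
  have hls : lam * s ≤ 1 := by
    -- (lam s)^2 <= 1
    have h1 : lam * lam * J ≤ 1 := by
      have e : lam * lam * J = (J : ℝ) ^ (-(9982 / 10000) : ℝ) := by
        have : lam * lam * J = lam * lam * (J : ℝ) ^ (1 : ℝ) := by rw [Real.rpow_one]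
        rw [this, hlam, ← Real.rpow_add hJ0, ← Real.rpow_add hJ0]; norm_num
      rw [e]
      exact Real.rpow_le_one_of_one_le_of_nonpos hJr (by norm_num)
    have h2 : (lam * s) ^ 2 ≤ 1 ^ 2 := by
      have h3 : (s : ℝ) ^ 2 ≤ J := by nlinarith
      have h4 : lam ^ 2 * (s : ℝ) ^ 2 ≤ lam ^ 2 * J := mul_le_mul_of_nonneg_left h3 (by positivity)
      nlinarith
    exact le_of_pow_le_pow_left₀ (by norm_num) (by norm_num) h2
  have h := Phi_lower hJ1 (a := fun j => w j n) (b := fun j => v j n) (lam := lam) hlam0.le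
    (fun j hj => w_pos (one_le_of_mem_W hJ1 hj) hn0) (fun j _ => v_pos j hn0) hg.slope
    (x := (n.factorization 2 : ℝ)) (by positivity) hg.a2_le (K := J + 1 + s) (s := s)
    (c := 1 / 3080) (by norm_num) hls hc1 hc2
  refine le_trans ?_ h
  have h5 : lam / 256 ≤ (lam * s) * (s / J) := by
    have e : (lam * s) * (s / J) = lam * (s ^ 2 / J) := by ring
    rw [e, div_eq_mul_one_div]
    refine mul_le_mul_of_nonneg_left ?_ hlam0.le
    rw [div_le_div_iff₀ (by norm_num) hJ0]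
    linarith
  calc (1 / 3080 : ℝ) ^ 2 / 2048 * lam = (1 / 3080 : ℝ) ^ 2 * (lam / 256) / 8 := by ring
    _ ≤ (1 / 3080 : ℝ) ^ 2 * ((lam * s) * (s / J)) / 8 := by
        refine div_le_div_of_nonneg_right ?_ (by norm_num)
        exact mul_le_mul_of_nonneg_left h5 (by positivity)
    _ = _ := by ring

end Pool.Agent.Lib.MP_9f8414_nt
end

section

/-!
# Conclusion: large modes are impossible, and finiteness
-/

namespace Pool.Agent.Lib.MP_9f8414_nt

open ArithmeticFunction Finset Filter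

theorem main_contra : ∃ J0 : ℕ, ∀ J : ℕ, J0 ≤ J → ∀ n : ℕ, 3 ≤ n →
    RecursivelyHighlyComposite n → RecursivelySuperAbundant n → IsMode n J → False := by
  obtain ⟨k, hk⟩ : ∃ k : ℕ, k + 1 = 60000 := ⟨59999, rfl⟩
  obtain ⟨T0, hT0⟩ := almost_monotone k
  obtain ⟨Jg, hJg⟩ := exists_good
  obtain ⟨Jl, hJl⟩ := log_small
  set Ck : ℝ := 2 ^ (k + 3) * (2 * k + 5) ^ 2 with hCk
  have hCk1 : 1 ≤ Ck := by
    have h1 : (1 : ℝ) ≤ 2 ^ (k + 3) := one_le_pow₀ (by norm_num)
    have h2 : (1 : ℝ) ≤ (2 * (k : ℝ) + 5) ^ 2 := by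
      have : (0 : ℝ) ≤ k := by positivity
      nlinarith
    rw [hCk]
    nlinarith
  set c : ℝ := (1 / 3080 : ℝ) ^ 2 / 2048 with hc
  have hc0 : 0 < c := by rw [hc]; positivity
  set C3 : ℝ := (2 : ℝ) ^ (k + 1) * ((k + 2) * 2) * 2 ^ (k + 1) with hC3
  obtain ⟨x0, hx0⟩ := asym Ck c C3 hCk1 hc0
  refine ⟨Jg + Jl + Nat.ceil x0 + 2 ^ (20000 * T0) + 10 ^ 8, fun J hJ n hn3 hRH hRS hm => ?_⟩
  have hpow0 : 0 < 2 ^ (20000 * T0) := by positivity
  generalize hPow : 2 ^ (20000 * T0) = P0 at hJ hpow0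
  have hgood := hJg J (by omega) n hn3 hRH hm
  have hlog := hJl J (by omega)
  have hJ8 : 10 ^ 8 ≤ J := by omega
  have hJx : x0 ≤ (J : ℝ) := by
    have : Nat.ceil x0 ≤ J := by omega
    exact (Nat.le_ceil x0).trans (by exact_mod_cast this)
  obtain ⟨hx1, hE1, hE2, hE3, hE4⟩ := hx0 (J : ℝ) hJx
  have hJ0 : (0 : ℝ) < J := by linarith
  have hJne : J ≠ 0 := by omega
  set L := Nat.log 2 J with hL
  obtain ⟨t, ht⟩ : ∃ t, t = L / 20000 := ⟨_, rfl⟩
  have htT : T0 ≤ t := by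
    have h1 : 2 ^ (20000 * T0) ≤ J := by omega
    have h2 : 20000 * T0 ≤ L := Nat.le_log_of_pow_le (by norm_num) h1
    omega
  have h2L : 2 ^ L ≤ J := Nat.pow_log_le_self 2 hJne
  have hJL : J < 2 ^ (L + 1) := Nat.lt_pow_succ_log_self (by norm_num) J
  -- (2^t)^20000 ≤ J
  have h2t : ((2 : ℝ) ^ t) ^ 20000 ≤ J := by
    have h1 : (2 ^ t) ^ 20000 ≤ J := by
      rw [← pow_mul]
      exact le_trans (Nat.pow_le_pow_right (by norm_num) (by omega)) h2L
    have h2 : (((2 ^ t) ^ 20000 : ℕ) : ℝ) ≤ J := Nat.cast_le.2 h1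
    rwa [Nat.cast_pow, Nat.cast_pow, Nat.cast_ofNat] at h2
  have h2t' : ((2 : ℝ) ^ t) ^ 2 ≤ (J : ℝ) ^ (1 / 10000 : ℝ) := by
    have h3 : ((2 : ℝ) ^ t) ^ 2 = (((2 : ℝ) ^ t) ^ 20000) ^ (1 / 10000 : ℝ) := by
      rw [← Real.rpow_natCast _ 20000, ← Real.rpow_mul (by positivity),
        ← Real.rpow_natCast _ 2]
      congr 1
      norm_num
    rw [h3]
    exact Real.rpow_le_rpow (by positivity) h2t (by norm_num)
  -- J^3 ≤ 2^((k+1) t) 2^(k+1)
  have hJ3 : (J : ℝ) ^ 3 ≤ 2 ^ ((k + 1) * t) * 2 ^ (k + 1) := by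
    have h1 : (J : ℝ) ≤ 2 ^ (20000 * (t + 1)) := by
      have h1 : J ≤ 2 ^ (20000 * (t + 1)) :=
        le_trans hJL.le (Nat.pow_le_pow_right (by norm_num) (by omega))
      have h2 : ((J : ℕ) : ℝ) ≤ ((2 ^ (20000 * (t + 1)) : ℕ) : ℝ) := Nat.cast_le.2 h1
      rwa [Nat.cast_pow, Nat.cast_ofNat] at h2
    calc (J : ℝ) ^ 3 ≤ (2 ^ (20000 * (t + 1))) ^ 3 := pow_le_pow_left₀ hJ0.le h1 3
      _ = 2 ^ ((k + 1) * t) * 2 ^ (k + 1) := by
        rw [← pow_mul, ← pow_add]
        congr 1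
        rw [hk]
        ring
  set B : ℕ := 2 ^ (k + 3) * (t + 2 * k + 5) with hB
  set Y : ℕ := (2 * k + 5) * 2 ^ t with hY
  have hBY : (B : ℝ) * Y ≤ Ck * (J : ℝ) ^ (1 / 10000 : ℝ) := by
    have h1 : (B : ℝ) * Y ≤ Ck * ((2 : ℝ) ^ t) ^ 2 := by
      have h2 : t + 1 ≤ 2 ^ t := Nat.lt_two_pow_self
      have h3 : ((t : ℝ) + 1) ≤ 2 ^ t := by
        have h3 : ((t + 1 : ℕ) : ℝ) ≤ ((2 ^ t : ℕ) : ℝ) := Nat.cast_le.2 h2
        rwa [Nat.cast_pow, Nat.cast_ofNat, Nat.cast_add, Nat.cast_one] at h3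
      have h4 : ((t : ℝ) + 2 * k + 5) ≤ (2 * k + 5) * 2 ^ t := by
        have hk0 : (0 : ℝ) ≤ k := by positivity
        have ht0 : (0 : ℝ) ≤ t := by positivity
        have h5 : ((t : ℝ) + 2 * k + 5) ≤ (2 * k + 5) * (t + 1) := by nlinarith
        exact h5.trans (mul_le_mul_of_nonneg_left h3 (by positivity))
      have eB : (B : ℝ) = 2 ^ (k + 3) * ((t : ℝ) + 2 * k + 5) := by rw [hB]; push_cast; ring
      have eY : (Y : ℝ) = (2 * k + 5) * 2 ^ t := by rw [hY]; push_cast; ring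
      rw [eB, eY, hCk]
      calc 2 ^ (k + 3) * ((t : ℝ) + 2 * k + 5) * ((2 * k + 5) * 2 ^ t)
          ≤ 2 ^ (k + 3) * ((2 * k + 5) * 2 ^ t) * ((2 * k + 5) * 2 ^ t) := by
            refine mul_le_mul_of_nonneg_right ?_ (by positivity)
            exact mul_le_mul_of_nonneg_left h4 (by positivity)
        _ = _ := by ring
    exact h1.trans (mul_le_mul_of_nonneg_left h2t' (by linarith))
  have hB1 : 1 ≤ B := by
    rw [hB]
    exact Nat.mul_pos (by positivity) (by omega)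
  have hY1 : 1 ≤ Y := by
    rw [hY]
    exact Nat.mul_pos (by omega) (by positivity)
  have hB1r : (1 : ℝ) ≤ B := by exact_mod_cast hB1
  have hY1r : (1 : ℝ) ≤ Y := by exact_mod_cast hY1
  clear_value B Y
  have hBYsq : ((B : ℝ) * Y) ^ 2 ≤ Ck ^ 2 * (J : ℝ) ^ (1 / 5000 : ℝ) := by
    calc ((B : ℝ) * Y) ^ 2 ≤ (Ck * (J : ℝ) ^ (1 / 10000 : ℝ)) ^ 2 :=
          pow_le_pow_left₀ (by positivity) hBY 2
      _ = _ := by
        rw [mul_pow, ← Real.rpow_natCast ((J : ℝ) ^ (1 / 10000 : ℝ)) 2,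
          ← Real.rpow_mul hJ0.le]
        norm_num
  have hYsq : (Y : ℝ) ^ 2 ≤ ((B : ℝ) * Y) ^ 2 :=
    pow_le_pow_left₀ (by linarith) (by nlinarith) 2
  set R : ℝ := (J : ℝ) / (5 * (Y : ℝ) ^ 2) with hR
  have hRbig : 2 * (B : ℝ) + 4400 ≤ R := by
    have h1 : (J : ℝ) / (5 * (Ck ^ 2 * (J : ℝ) ^ (1 / 5000 : ℝ))) ≤ R := by
      rw [hR]
      refine div_le_div_of_nonneg_left hJ0.le (by positivity) ?_
      linarith
    have h2 : (B : ℝ) ≤ B * Y := by nlinarith
    linarith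
  set M : ℕ := Nat.floor R with hM
  have hMR : (M : ℝ) ≤ R := Nat.floor_le (by linarith)
  have hMR2 : R < (M : ℝ) + 1 := Nat.lt_floor_add_one R
  have hM1 : 4312 ≤ M := by
    have : (4312 : ℝ) ≤ M := by linarith
    exact_mod_cast this
  have hM2 : 2 * B ≤ M := by
    have : 2 * (B : ℝ) ≤ M := by linarith
    exact_mod_cast this
  have hYJ : Y ≤ J := by
    have h0 : (1 : ℝ) ≤ R := by linarith
    rw [hR, le_div_iff₀ (by positivity)] at h0
    have : (Y : ℝ) ≤ J := by nlinarith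
    exact_mod_cast this
  have hα : ∀ p : ℕ, p.Prime → p ≤ Y → M ≤ n.factorization p := by
    intro p hp hpY
    set a := Nat.log 2 p + 1 with ha
    have hpa : p < 2 ^ a := Nat.lt_pow_succ_log_self (by norm_num) p
    have haJ : a ≤ J / 100000 := by
      have : Nat.log 2 p ≤ L := Nat.log_mono_right (le_trans hpY hYJ)
      omega
    have h1 := hgood.low p a hp hpa haJ
    have h2a : (2 : ℝ) ^ a ≤ 2 * Y := by
      have h3 : 2 ^ (Nat.log 2 p) ≤ p := Nat.pow_log_le_self 2 hp.ne_zero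
      have h4 : 2 ^ a ≤ 2 * Y := by rw [ha, pow_succ]; omega
      exact_mod_cast h4
    have h3 : (3981 / 1000 : ℝ) ^ a ≤ 4 * (Y : ℝ) ^ 2 := by
      calc (3981 / 1000 : ℝ) ^ a ≤ (4 : ℝ) ^ a := pow_le_pow_left₀ (by norm_num) (by norm_num) a
        _ = ((2 : ℝ) ^ a) ^ 2 := by
            rw [← pow_mul, mul_comm, pow_mul]; norm_num
        _ ≤ (2 * (Y : ℝ)) ^ 2 := pow_le_pow_left₀ (by positivity) h2a 2
        _ = _ := by ring
    have h4 : 99 / 100 * (J : ℝ) ≤ 4 * (Y : ℝ) ^ 2 * (n.factorization p + 1) :=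
      h1.trans (mul_le_mul_of_nonneg_right h3 (by positivity))
    have hJR : (J : ℝ) = R * (5 * (Y : ℝ) ^ 2) := by
      rw [hR]; field_simp
    have hY2 : (0 : ℝ) < (Y : ℝ) ^ 2 := by positivity
    have h5 : 99 / 80 * R ≤ (n.factorization p : ℝ) + 1 := by
      have h6 : (99 / 100 * (R * (5 * (Y : ℝ) ^ 2))) ≤ 4 * (Y : ℝ) ^ 2 * (n.factorization p + 1) := by
        rw [← hJR]; exact h4
      have h7 : (4 * (Y : ℝ) ^ 2) * (99 / 80 * R) ≤ (4 * (Y : ℝ) ^ 2) * (n.factorization p + 1) := by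
        linarith
      exact le_of_mul_le_mul_left h7 (by positivity)
    have h8 : (M : ℝ) ≤ n.factorization p := by linarith
    exact_mod_cast h8
  -- the data for the abstract theorem
  set Φ := Phi J (fun j => w j n) (fun j => v j n) (n.factorization 2) with hΦ
  have hΦlow := Phi_final hJ8 hgood
  set lam := (J : ℝ) ^ (-(9991 / 10000) : ℝ) with hlam
  have hlam0 : 0 < lam := Real.rpow_pos_of_pos hJ0 _
  have hΦpos : 0 < Φ := lt_of_lt_of_le (by positivity) hΦlow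
  set Q : ℝ := 1 / (J : ℝ) + 8628 * (B : ℝ) ^ 2 / M with hQ
  set F : ℝ := 2 ^ (k + 1) * ((k + 2) * (2 * J)) with hF
  have hn0 := hm.1
  have hJ1 := hm.2.1
  have hwpos : ∀ j ∈ W J, 0 < w j n := fun j hj => w_pos (one_le_of_mem_W hJ1 hj) hn0
  have hvpos : ∀ j ∈ W J, 0 < v j n := fun j _ => v_pos j hn0
  have hfin := hT0 t htT (cadd (gH n J)) (fun x => cadd (gH n J) x - cadd (gB n J) x) Φ Q F
    (cadd_CAdd _) ((cadd_CAdd _).sub (cadd_CAdd _)) hΦpos
    (fun p hp hpY => by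
      rw [cadd_prime _ hp, cadd_prime _ hp, g_eq_Phi hm p]
      have hle : (n.factorization p : ℝ) ≤ n.factorization 2 := by
        exact_mod_cast hgood.a_le p hp
      constructor
      · exact Phi_anti hJ1 hlam0.le hwpos hvpos hgood.slope (by positivity) hle
      · have h1 := Phi_anti hJ1 hlam0.le hwpos hvpos hgood.slope (x := 0)
          (x' := (n.factorization p : ℝ)) le_rfl (by positivity)
        have h2 := Phi_zero_le hJ1 hlam0.le hwpos hvpos hgood.slope
          (x := (n.factorization 2 : ℝ)) (by positivity) hgood.a2_le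
        exact h1.trans h2)
    (fun x y hx hxy hsm hBx hBy => by
      have hα' : ∀ p ∈ (x * y).primeFactors, M ≤ n.factorization p := by
        intro p hp
        have hpp := Nat.prime_of_mem_primeFactors hp
        have h1 := hsm p hpp (Nat.dvd_of_mem_primeFactors hp)
        rw [← hY] at h1
        exact hα p hpp h1
      rw [← hB] at hBx hBy
      have h1 := key_ineq_H hn3 hRH hm hgood.tailw hM1 hM2 hx hxy hBx hBy hα'
      have h2 := key_ineq_B hRS hm hgood.regime hgood.tailv hM1 hM2 hx hxy hBx hBy hα'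
      refine ⟨h1, ?_⟩
      simp only [sub_sub_cancel]
      exact h2)
    (by
      refine abs_fd_le _ _ _ _ fun i hi => ?_
      have h1 := cadd_bound (c := gH n J) (C := 2 * J) (fun p => (g_bounds hJ1 hwpos p).1)
        (fun p => (g_bounds hJ1 hwpos p).2) (x := 1 + i) (by omega)
      refine h1.trans ?_
      refine mul_le_mul_of_nonneg_right ?_ (by positivity)
      push_cast
      have : (i : ℝ) ≤ (k : ℝ) + 1 := by exact_mod_cast hi
      linarith)
    (by
      refine abs_fd_le _ _ _ _ fun i hi => ?_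
      simp only [sub_sub_cancel]
      have h1 := cadd_bound (c := gB n J) (C := 2 * J) (fun p => (g_bounds hJ1 hvpos p).1)
        (fun p => (g_bounds hJ1 hvpos p).2) (x := 1 + i) (by omega)
      refine h1.trans ?_
      refine mul_le_mul_of_nonneg_right ?_ (by positivity)
      push_cast
      have : (i : ℝ) ≤ (k : ℝ) + 1 := by exact_mod_cast hi
      linarith)
  -- estimates
  have hQ1 : 2 * Q ≤ 2 / J + 172560 * (Ck ^ 2 * (J : ℝ) ^ (1 / 5000 : ℝ)) / J := by
    have hM0 : (0 : ℝ) < M := by linarith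
    have h1 : (B : ℝ) ^ 2 / M ≤ 10 * ((B : ℝ) * Y) ^ 2 / J := by
      rw [div_le_div_iff₀ hM0 hJ0]
      have h2 : R ≤ 2 * M := by linarith
      have hJR : (J : ℝ) = R * (5 * (Y : ℝ) ^ 2) := by
        rw [hR]; field_simp
      have h3 : (J : ℝ) ≤ 2 * M * (5 * (Y : ℝ) ^ 2) := by
        rw [hJR]
        exact mul_le_mul_of_nonneg_right h2 (by positivity)
      calc (B : ℝ) ^ 2 * J ≤ (B : ℝ) ^ 2 * (2 * M * (5 * (Y : ℝ) ^ 2)) :=
            mul_le_mul_of_nonneg_left h3 (by positivity)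
        _ = _ := by ring
    have h4 : 10 * ((B : ℝ) * Y) ^ 2 / J ≤ 10 * (Ck ^ 2 * (J : ℝ) ^ (1 / 5000 : ℝ)) / J := by
      refine div_le_div_of_nonneg_right ?_ hJ0.le
      linarith
    have e1 : 2 * Q = 2 / J + 17256 * ((B : ℝ) ^ 2 / M) := by rw [hQ]; ring
    have e2 : 172560 * (Ck ^ 2 * (J : ℝ) ^ (1 / 5000 : ℝ)) / J
        = 17256 * (10 * (Ck ^ 2 * (J : ℝ) ^ (1 / 5000 : ℝ)) / J) := by ring
    rw [e1, e2]
    linarith
  have hF1 : F / 2 ^ ((k + 1) * t) ≤ C3 / (J : ℝ) ^ 2 := by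
    rw [div_le_div_iff₀ (by positivity) (by positivity), hF, hC3]
    have hD : (0 : ℝ) ≤ (2 : ℝ) ^ (k + 1) * (((k : ℝ) + 2) * 2) := by positivity
    have hmul := mul_le_mul_of_nonneg_left hJ3 hD
    generalize (2 : ℝ) ^ (k + 1) = U at hmul ⊢
    generalize (2 : ℝ) ^ ((k + 1) * t) = V at hmul ⊢
    calc U * (((k : ℝ) + 2) * (2 * (J : ℝ))) * (J : ℝ) ^ 2
        = U * (((k : ℝ) + 2) * 2) * (J : ℝ) ^ 3 := by ring
      _ ≤ U * (((k : ℝ) + 2) * 2) * (V * U) := hmul
      _ = U * (((k : ℝ) + 2) * 2) * U * V := by ring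
  have hclam : 0 < c * lam := mul_pos hc0 hlam0
  linarith

theorem finite_both :
    {n : ℕ | RecursivelyHighlyComposite n ∧ RecursivelySuperAbundant n}.Finite := by
  obtain ⟨J0, hJ0⟩ := main_contra
  -- bound for `a`
  set C : ℝ := ∑' j : ℕ, ((j : ℝ) + 1) ^ J0 / 2 ^ j with hC
  have hbound : ∀ n : ℕ, 3 ≤ n → RecursivelyHighlyComposite n → RecursivelySuperAbundant n →
      (a n : ℝ) ≤ C := by
    intro n hn hRH hRS
    obtain ⟨J, hm⟩ := exists_mode (by omega : 2 ≤ n)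
    have hJ : J < J0 := by
      by_contra hcon
      push Not at hcon
      exact hJ0 J hcon n hn hRH hRS hm
    have hn0 := hm.1
    have hΩ : cardFactors n ≤ J0 := by
      have h1 := sum_le_Fn_sub_one n (x := (J : ℝ) + 1) (by positivity)
      have h2 := hm.2.2.2
      have h3 : (∑ p ∈ n.primeFactors, (n.factorization p : ℝ)) / ((J : ℝ) + 1) < 1 := by linarith
      rw [div_lt_one (by positivity)] at h3
      have h4 : ((∑ p ∈ n.primeFactors, n.factorization p : ℕ) : ℝ) < ((J + 1 : ℕ) : ℝ) := by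
        push_cast; exact h3
      have h5 : ∑ p ∈ n.primeFactors, n.factorization p < J + 1 := by exact_mod_cast h4
      have e : ∑ p ∈ n.primeFactors, n.factorization p = cardFactors n := by
        rw [cardFactors_eq_sum_factorization, Finsupp.sum]; rfl
      omega
    rw [a_eq_H (by omega), H, hC]
    refine Summable.tsum_le_tsum (fun j => ?_) (summable_w hn0) (summable_pow_div J0)
    unfold w
    refine div_le_div_of_nonneg_right ?_ (by positivity)
    calc (Dn j n : ℝ) ≤ ((j ^ cardFactors n : ℕ) : ℝ) := by exact_mod_cast Dn_le_pow j hn0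
      _ = (j : ℝ) ^ cardFactors n := by push_cast; rfl
      _ ≤ ((j : ℝ) + 1) ^ cardFactors n := by gcongr; linarith
      _ ≤ ((j : ℝ) + 1) ^ J0 := pow_le_pow_right₀ (by
          have : (0 : ℝ) ≤ j := by positivity
          linarith) hΩ
  set S := {n : ℕ | RecursivelyHighlyComposite n ∧ RecursivelySuperAbundant n} with hS
  have hinj : Set.InjOn a S := by
    intro m hm n hn h
    rcases lt_trichotomy m n with hlt | heq | hgt
    · have := hn.1.2 m hm.1.1 hlt
      omega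
    · exact heq
    · have := hm.1.2 n hn.1.1 hgt
      omega
  refine Set.Finite.of_finite_image ?_ hinj
  refine Set.Finite.subset (Set.finite_Iic (Nat.floor C + a 1 + a 2)) ?_
  rintro _ ⟨n, hn, rfl⟩
  rw [Set.mem_Iic]
  have hnpos := hn.1.1
  rcases Nat.lt_or_ge n 3 with h | h
  · interval_cases n <;> omega
  · have := hbound n h hn.1 hn.2
    have h2 : a n ≤ Nat.floor C := Nat.le_floor this
    omega

end Pool.Agent.Lib.MP_9f8414_nt
end
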