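import Pool.Agent.Lib.MP_9f8414_nt.Mode

section

/-!
# Tails and the champion inequalities
-/

namespace Pool.Agent.Lib.MP_9f8414_nt

open ArithmeticFunction Finset

/-- the window -/
def W (J : ℕ) : Finset ℕ := Finset.Icc (J - J / 1000) (J + J / 1000)

theorem mem_W {J j : ℕ} : j ∈ W J ↔ J - J / 1000 ≤ j ∧ j ≤ J + J / 1000 := by
  unfold W; exact Finset.mem_Icc

theorem W_bounds {J j : ℕ} (h : j ∈ W J) :
    (999 / 1000 : ℝ) * J ≤ j ∧ (j : ℝ) ≤ (1001 / 1000) * J := by
  rw [mem_W] at h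
  have h1 : 999 * J ≤ 1000 * j := by omega
  have h2 : 1000 * j ≤ 1001 * J := by omega
  have h1' : (999 : ℝ) * J ≤ 1000 * j := by exact_mod_cast h1
  have h2' : (1000 : ℝ) * j ≤ 1001 * J := by exact_mod_cast h2
  constructor <;> linarith

theorem decay : ∃ e0 : ℕ, ∀ e : ℕ, e0 ≤ e →
    (2000 * (e : ℝ) + 1000) * (2000 * e + 6000) * (4999 / 5000 : ℝ) ^ e ≤ 1 := by
  have h2 := tendsto_pow_const_mul_const_pow_of_abs_lt_one 2 (r := (4999 / 5000 : ℝ))
    (by rw [abs_of_pos] <;> norm_num)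
  have h1 := tendsto_pow_const_mul_const_pow_of_abs_lt_one 1 (r := (4999 / 5000 : ℝ))
    (by rw [abs_of_pos] <;> norm_num)
  have h0 := tendsto_pow_const_mul_const_pow_of_abs_lt_one 0 (r := (4999 / 5000 : ℝ))
    (by rw [abs_of_pos] <;> norm_num)
  have h := ((h2.const_mul 4000000).add (h1.const_mul 14000000)).add (h0.const_mul 6000000)
  simp only [mul_zero, add_zero] at h
  have h' := h.eventually (ge_mem_nhds (by norm_num : (0 : ℝ) < 1))
  obtain ⟨e0, he0⟩ := Filter.eventually_atTop.1 h'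
  refine ⟨e0, fun e he => ?_⟩
  have := he0 e he
  refine le_trans (le_of_eq ?_) this
  ring

theorem tail_general : ∃ J0 : ℕ, ∀ J : ℕ, J0 ≤ J → ∀ u : ℕ → ℝ, (∀ j, 0 ≤ u j) → Summable u →
    (∀ j, J + J / 1000 / 2 ≤ j → u (j + 1) ≤ (4999 / 5000) * u j) →
    (∀ j, j < J - J / 1000 / 2 → u j ≤ (4999 / 5000) * u (j + 1)) →
    ∑' j, u j ≤ (1 + 1 / J) * ∑ j ∈ W J, u j := by
  obtain ⟨e0, he0⟩ := decay
  refine ⟨2000 * e0 + 2000, fun J hJ u hu hsum hup hlow => ?_⟩
  set D := J / 1000 with hD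
  set D2 := D / 2 with hD2
  set e := D - D2 with he
  have hee : e0 ≤ e := by omega
  have hJe : J ≤ 2000 * e + 1000 := by omega
  have hJpos : 0 < J := by omega
  have hdec := he0 e hee
  set θ : ℝ := 4999 / 5000 with hθ
  have hθ0 : 0 < θ := by rw [hθ]; norm_num
  have hθ1 : θ < 1 := by rw [hθ]; norm_num
  set S := ∑ j ∈ W J, u j with hS
  have hS0 : 0 ≤ S := Finset.sum_nonneg fun j _ => hu j
  -- upper
  have hup' : ∀ i, u (J + D2 + i) ≤ θ ^ i * u (J + D2) := by
    intro i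
    induction i with
    | zero => simp
    | succ i ih =>
      have h1 := hup (J + D2 + i) (by omega)
      calc u (J + D2 + (i + 1)) ≤ θ * u (J + D2 + i) := h1
        _ ≤ θ * (θ ^ i * u (J + D2)) := mul_le_mul_of_nonneg_left ih hθ0.le
        _ = θ ^ (i + 1) * u (J + D2) := by ring
  have hlow' : ∀ i, i ≤ J - D2 → u (J - D2 - i) ≤ θ ^ i * u (J - D2) := by
    intro i
    induction i with
    | zero => intro _; simp
    | succ i ih =>
      intro hi
      have h1 := hlow (J - D2 - (i + 1)) (by omega)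
      have e1 : J - D2 - (i + 1) + 1 = J - D2 - i := by omega
      rw [e1] at h1
      calc u (J - D2 - (i + 1)) ≤ θ * u (J - D2 - i) := h1
        _ ≤ θ * (θ ^ i * u (J - D2)) := mul_le_mul_of_nonneg_left (ih (by omega)) hθ0.le
        _ = θ ^ (i + 1) * u (J - D2) := by ring
  have hm1 : u (J + D2) ≤ S := by
    refine Finset.single_le_sum (f := u) (fun j _ => hu j) ?_
    rw [mem_W]; omega
  have hm2 : u (J - D2) ≤ S := by
    refine Finset.single_le_sum (f := u) (fun j _ => hu j) ?_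
    rw [mem_W]; omega
  -- split the sum
  have hsplit : ∑' j, u j = ∑ j ∈ Finset.range (J - D), u j + S
      + ∑' i, u (i + (J + D + 1)) := by
    rw [← hsum.sum_add_tsum_nat_add (J + D + 1)]
    congr 1
    rw [hS]
    have : W J = Finset.Ico (J - D) (J + D + 1) := by
      unfold W
      ext x
      simp only [Finset.mem_Icc, Finset.mem_Ico, Nat.lt_succ_iff]
      omega
    rw [this, Finset.sum_range_add_sum_Ico _ (by omega)]
  have hfin : ∑ j ∈ Finset.range (J - D), u j ≤ J * (θ ^ e * S) := by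
    calc ∑ j ∈ Finset.range (J - D), u j ≤ ∑ j ∈ Finset.range (J - D), (θ ^ e * S) := by
          refine Finset.sum_le_sum fun j hj => ?_
          rw [Finset.mem_range] at hj
          have h1 := hlow' (J - D2 - j) (by omega)
          have e1 : J - D2 - (J - D2 - j) = j := by omega
          rw [e1] at h1
          refine h1.trans ?_
          have h2 : θ ^ (J - D2 - j) ≤ θ ^ e :=
            pow_le_pow_of_le_one hθ0.le hθ1.le (by omega)
          exact mul_le_mul h2 hm2 (hu _) (by positivity)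
      _ = ((J - D : ℕ) : ℝ) * (θ ^ e * S) := by simp
      _ ≤ J * (θ ^ e * S) := by
          gcongr
          exact Nat.sub_le _ _
  have hinf : ∑' i, u (i + (J + D + 1)) ≤ 5000 * (θ ^ e * S) := by
    have h1 : ∀ i, u (i + (J + D + 1)) ≤ (θ ^ e * S) * θ ^ i := by
      intro i
      have h2 := hup' (i + (D + 1 - D2))
      have e1 : J + D2 + (i + (D + 1 - D2)) = i + (J + D + 1) := by omega
      rw [e1] at h2
      refine h2.trans ?_
      have h3 : θ ^ (i + (D + 1 - D2)) ≤ θ ^ e * θ ^ i := by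
        rw [← pow_add]
        exact pow_le_pow_of_le_one hθ0.le hθ1.le (by omega)
      calc θ ^ (i + (D + 1 - D2)) * u (J + D2) ≤ (θ ^ e * θ ^ i) * S :=
            mul_le_mul h3 hm1 (hu _) (by positivity)
        _ = _ := by ring
    have hs1 : Summable fun i => u (i + (J + D + 1)) := (summable_nat_add_iff _).2 hsum
    have hs2 : Summable fun i : ℕ => (θ ^ e * S) * θ ^ i :=
      (summable_geometric_of_lt_one hθ0.le hθ1).mul_left _
    refine (Summable.tsum_le_tsum h1 hs1 hs2).trans ?_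
    rw [tsum_mul_left, tsum_geometric_of_lt_one hθ0.le hθ1]
    have : (1 - θ)⁻¹ = 5000 := by rw [hθ]; norm_num
    rw [this, mul_comm]
  rw [hsplit]
  have hfinal : (J + 5000 : ℝ) * θ ^ e ≤ 1 / J := by
    rw [le_div_iff₀ (by exact_mod_cast hJpos)]
    have hJe' : (J : ℝ) ≤ 2000 * e + 1000 := by exact_mod_cast hJe
    calc ((J : ℝ) + 5000) * θ ^ e * J = J * (J + 5000) * θ ^ e := by ring
      _ ≤ (2000 * (e : ℝ) + 1000) * (2000 * e + 6000) * θ ^ e := by
          have h2 : (J : ℝ) + 5000 ≤ 2000 * e + 6000 := by linarith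
          exact mul_le_mul_of_nonneg_right (mul_le_mul hJe' h2 (by positivity) (by positivity))
            (by positivity)
      _ ≤ 1 := hdec
  have := mul_le_mul_of_nonneg_right hfinal hS0
  nlinarith [this, hfin, hinf]

theorem tail_w : ∃ J0 : ℕ, ∀ J : ℕ, J0 ≤ J → ∀ n : ℕ, 2 ≤ n → IsMode n J →
    H n ≤ (1 + 1 / J) * ∑ j ∈ W J, w j n := by
  obtain ⟨J0, hJ0⟩ := tail_general
  refine ⟨max J0 30000, fun J hJ n hn hmode => ?_⟩
  have hJ1 : J0 ≤ J := le_trans (le_max_left _ _) hJ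
  have hJ2 : 30000 ≤ J := le_trans (le_max_right _ _) hJ
  have hn0 : n ≠ 0 := hmode.1
  have hJ2' : (30000 : ℝ) ≤ J := by exact_mod_cast hJ2
  refine hJ0 J hJ1 (fun j => w j n) (fun j => w_nonneg j n) (summable_w hn0) ?_ ?_
  · intro j hj
    have hj' : 2499 * j ≥ 2500 * (J + 1) := by omega
    have hj'' : (2499 : ℝ) * j ≥ 2500 * (J + 1) := by exact_mod_cast hj'
    have hj1 : 1 ≤ j := by omega
    have hjr : (J : ℝ) + 1 ≤ j := by nlinarith
    have hj0 : (0 : ℝ) < j := by positivity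
    rw [w_succ hj1 hn0]
    refine mul_le_mul_of_nonneg_right ?_ (w_nonneg _ _)
    have h1 := Fn_le_upper hmode hjr
    have h2 : ((J : ℝ) + 1) / j ≤ 2499 / 2500 := by
      rw [div_le_div_iff₀ hj0 (by norm_num)]
      linarith
    linarith
  · intro j hj
    rcases Nat.eq_zero_or_pos j with h0 | hj1
    · subst h0
      have : w 0 n = 0 := by unfold w; rw [Dn_zero (by omega)]; simp
      simp only [this]
      have := w_nonneg (0 + 1) n
      positivity
    · have hj' : 5001 * j ≤ 4999 * J := by omega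
      have hj'' : (5001 : ℝ) * j ≤ 4999 * J := by exact_mod_cast hj'
      have hj0 : (0 : ℝ) < j := by exact_mod_cast hj1
      have hjr : (j : ℝ) ≤ J := by nlinarith
      rw [w_succ hj1 hn0]
      have h1 := Fn_ge_lower hmode hj0 hjr
      have h2 : 5001 / 4999 ≤ (J : ℝ) / j := by
        rw [div_le_div_iff₀ (by norm_num) hj0]
        linarith
      have h3 : 1 ≤ 4999 / 5000 * (Fn n j / 2) := by linarith
      have h4 := mul_le_mul_of_nonneg_right h3 (w_nonneg j n)
      linarith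

theorem W_nonempty (J : ℕ) : (W J).Nonempty := ⟨J, by rw [mem_W]; omega⟩

/-- The champion inequality, existence form. -/
theorem champion_exists {J : ℕ} {u u' : ℕ → ℝ} {δ : ℝ} (hu' : ∀ j, 0 ≤ u' j)
    (hs' : Summable u') (h : ∑' j, u' j ≤ ∑' j, u j)
    (ht : ∑' j, u j ≤ (1 + δ) * ∑ j ∈ W J, u j) :
    ∃ j ∈ W J, u' j ≤ (1 + δ) * u j := by
  by_contra hcon
  push Not at hcon
  have h1 : (1 + δ) * ∑ j ∈ W J, u j < ∑ j ∈ W J, u' j := by
    rw [Finset.mul_sum]
    exact Finset.sum_lt_sum_of_nonempty (W_nonempty J) hcon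
  have h2 : ∑ j ∈ W J, u' j ≤ ∑' j, u' j := hs'.sum_le_tsum _ (fun j _ => hu' j)
  linarith

/-- The champion inequality, average form. -/
theorem champion_average {J : ℕ} {u u' : ℕ → ℝ} {δ : ℝ} (hu' : ∀ j, 0 ≤ u' j)
    (hpos : ∀ j ∈ W J, 0 < u j) (hpos' : ∀ j ∈ W J, 0 < u' j)
    (hs' : Summable u') (h : ∑' j, u' j ≤ ∑' j, u j)
    (ht : ∑' j, u j ≤ (1 + δ) * ∑ j ∈ W J, u j) :
    ∑ j ∈ W J, u j * Real.log (u' j / u j) ≤ δ * ∑ j ∈ W J, u j := by
  have h2 : ∑ j ∈ W J, u' j ≤ ∑' j, u' j := hs'.sum_le_tsum _ (fun j _ => hu' j)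
  have h3 : ∑ j ∈ W J, u j * Real.log (u' j / u j) ≤ ∑ j ∈ W J, (u' j - u j) := by
    refine Finset.sum_le_sum fun j hj => ?_
    have hp := hpos j hj
    have hp' := hpos' j hj
    have h4 := Real.log_le_sub_one_of_pos (div_pos hp' hp)
    calc u j * Real.log (u' j / u j) ≤ u j * (u' j / u j - 1) :=
          mul_le_mul_of_nonneg_left h4 hp.le
      _ = u' j - u j := by field_simp
  rw [Finset.sum_sub_distrib] at h3
  linarith

end Pool.Agent.Lib.MP_9f8414_nt
end

section

/-!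
# Exchange moves
-/

namespace Pool.Agent.Lib.MP_9f8414_nt

open ArithmeticFunction Finset

/-- `r j k = (k + j)/(k + 1)`, the ratio `mc(j,k+1)/mc(j,k)` -/
noncomputable def r (j k : ℕ) : ℝ := ((k : ℝ) + j) / (k + 1)

theorem r_pos {j : ℕ} (hj : 1 ≤ j) (k : ℕ) : 0 < r j k := by
  unfold r
  have : (0 : ℝ) < j := by exact_mod_cast hj
  positivity

theorem r_one_le {j : ℕ} (hj : 1 ≤ j) (k : ℕ) : 1 ≤ r j k := by
  unfold r
  have : (1 : ℝ) ≤ j := by exact_mod_cast hj
  rw [one_le_div (by positivity)]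
  linarith

theorem r_anti {j : ℕ} (hj : 1 ≤ j) {i k : ℕ} (hik : i ≤ k) : r j k ≤ r j i := by
  have := rho_anti' (j := j) hj hik
  exact this
where
  rho_anti' {j : ℕ} (hj : 1 ≤ j) {i k : ℕ} (hik : i ≤ k) :
      ((k : ℝ) + j) / (k + 1) ≤ ((i : ℝ) + j) / (i + 1) := by
    have hi : (0 : ℝ) < (i : ℝ) + 1 := by positivity
    have hk : (0 : ℝ) < (k : ℝ) + 1 := by positivity
    rw [div_le_div_iff₀ hk hi]
    have h1 : (i : ℝ) ≤ k := by exact_mod_cast hik
    have h2 : (1 : ℝ) ≤ j := by exact_mod_cast hj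
    have h3 : 0 ≤ (k - i) * ((j : ℝ) - 1) := mul_nonneg (by linarith) (by linarith)
    nlinarith [h3]

theorem mc_succ_r (j k : ℕ) : (Nat.multichoose j (k + 1) : ℝ) = r j k * Nat.multichoose j k := by
  have := mc_succ_right j k
  unfold r
  have hk : (0 : ℝ) < (k : ℝ) + 1 := by positivity
  field_simp
  linarith

theorem Dn_mul_prime (j : ℕ) {N p : ℕ} (hN : N ≠ 0) (hp : p.Prime) :
    (Dn j (N * p) : ℝ) = r j (N.factorization p) * Dn j N := by
  set v := N.factorization p with hv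
  have e1 : p ^ v * (N / p ^ v) = N := Nat.ordProj_mul_ordCompl_eq_self N p
  have hcop : Nat.Coprime p (N / p ^ v) := Nat.coprime_ordCompl hp hN
  have h1 : Dn j N = Dn j (p ^ v) * Dn j (N / p ^ v) := by
    conv_lhs => rw [← e1]
    exact (Dn_mult j).map_mul_of_coprime (Nat.Coprime.pow_left _ hcop)
  have h2 : Dn j (N * p) = Dn j (p ^ (v + 1)) * Dn j (N / p ^ v) := by
    have e2 : N * p = p ^ (v + 1) * (N / p ^ v) := by
      calc N * p = (p ^ v * (N / p ^ v)) * p := by rw [e1]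
        _ = _ := by ring
    rw [e2]
    exact (Dn_mult j).map_mul_of_coprime (Nat.Coprime.pow_left _ hcop)
  rw [h1, h2, Dn_prime_pow j p _ hp, Dn_prime_pow j p _ hp]
  push_cast
  rw [mc_succ_r]
  ring

theorem factorization_mul_pow_self {N p x : ℕ} (hN : N ≠ 0) (hp : p.Prime) :
    (N * p ^ x).factorization p = N.factorization p + x := by
  rw [Nat.factorization_mul hN (pow_ne_zero _ hp.ne_zero)]
  simp [hp.factorization_self, hp]

theorem Dn_mul_pow_ge {j : ℕ} (hj : 1 ≤ j) {N p : ℕ} (hN : N ≠ 0) (hp : p.Prime) {x : ℕ}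
    (hx : 1 ≤ x) :
    (r j (N.factorization p + x - 1)) ^ x * Dn j N ≤ Dn j (N * p ^ x) := by
  induction x, hx using Nat.le_induction with
  | base => simp [Dn_mul_prime j hN hp]
  | succ x hx ih =>
    have e : N * p ^ (x + 1) = (N * p ^ x) * p := by ring
    rw [e, Dn_mul_prime j (mul_ne_zero hN (pow_ne_zero _ hp.ne_zero)) hp,
      factorization_mul_pow_self hN hp]
    have e2 : N.factorization p + (x + 1) - 1 = N.factorization p + x := by omega
    rw [e2]
    have h1 : r j (N.factorization p + x) ≤ r j (N.factorization p + x - 1) :=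
      r_anti hj (by omega)
    have hr := r_pos hj (N.factorization p + x)
    calc r j (N.factorization p + x) ^ (x + 1) * (Dn j N : ℝ)
        = r j (N.factorization p + x) * (r j (N.factorization p + x) ^ x * Dn j N) := by ring
      _ ≤ r j (N.factorization p + x) * (r j (N.factorization p + x - 1) ^ x * Dn j N) := by
          gcongr
      _ ≤ r j (N.factorization p + x) * Dn j (N * p ^ x) := by gcongr

theorem Dn_mul_pow_le {j : ℕ} (hj : 1 ≤ j) {N p : ℕ} (hN : N ≠ 0) (hp : p.Prime) (x : ℕ) :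
    (Dn j (N * p ^ x) : ℝ) ≤ (r j (N.factorization p)) ^ x * Dn j N := by
  induction x with
  | zero => simp
  | succ x ih =>
    have e : N * p ^ (x + 1) = (N * p ^ x) * p := by ring
    rw [e, Dn_mul_prime j (mul_ne_zero hN (pow_ne_zero _ hp.ne_zero)) hp,
      factorization_mul_pow_self hN hp]
    have h1 : r j (N.factorization p + x) ≤ r j (N.factorization p) :=
      r_anti hj (by omega)
    have hr := r_pos hj (N.factorization p + x)
    have hr' := r_pos hj (N.factorization p)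
    calc r j (N.factorization p + x) * (Dn j (N * p ^ x) : ℝ)
        ≤ r j (N.factorization p) * (r j (N.factorization p) ^ x * Dn j N) :=
          mul_le_mul h1 ih (by positivity) hr'.le
      _ = _ := by ring

/-- the exchange property used for the structure of `n` -/
def SwapProp (n J : ℕ) : Prop := ∀ p q x y : ℕ, p.Prime → q.Prime → p ≠ q → 1 ≤ x → 1 ≤ y →
  p ^ x < q ^ y → y ≤ n.factorization q → ∃ j ∈ W J,
    (r j (n.factorization p + x - 1)) ^ x ≤ (1 + 1 / (J : ℝ)) * (r j (n.factorization q - y)) ^ y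

theorem one_le_of_mem_W {J j : ℕ} (hJ : 1 ≤ J) (h : j ∈ W J) : 1 ≤ j := by
  rw [mem_W] at h; omega

theorem swap : ∃ J0 : ℕ, ∀ J : ℕ, J0 ≤ J → ∀ n : ℕ, 3 ≤ n → RecursivelyHighlyComposite n →
    IsMode n J → SwapProp n J := by
  obtain ⟨J0, hJ0⟩ := tail_w
  refine ⟨J0, fun J hJ n hn hR hmode p q x y hp hq hpq hx hy hlt hyq => ?_⟩
  have hn0 : n ≠ 0 := hmode.1
  have hdvd : q ^ y ∣ n := (Nat.Prime.pow_dvd_iff_le_factorization hq hn0).2 hyq
  obtain ⟨N, hN⟩ := hdvd
  have hN0 : N ≠ 0 := by rintro rfl; simp at hN; exact hn0 hN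
  have hNn : n = N * q ^ y := by rw [hN]; ring
  have hm0 : 0 < N * p ^ x := Nat.pos_of_ne_zero (mul_ne_zero hN0 (pow_ne_zero _ hp.ne_zero))
  have hmn : N * p ^ x < n := by
    rw [hNn]
    exact Nat.mul_lt_mul_of_pos_left hlt (Nat.pos_of_ne_zero hN0)
  have hH := RHC_H hn hR hm0 hmn
  have htail := hJ0 J hJ n (by omega) hmode
  obtain ⟨j, hj, hle⟩ := champion_exists (J := J) (u := fun j => w j n)
    (u' := fun j => w j (N * p ^ x)) (fun j => w_nonneg _ _) (summable_w hm0.ne') hH.le htail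
  refine ⟨j, hj, ?_⟩
  have hj1 : 1 ≤ j := one_le_of_mem_W hmode.2.1 hj
  have hle' : (Dn j (N * p ^ x) : ℝ) ≤ (1 + 1 / (J : ℝ)) * Dn j n := by
    have h2 : (0 : ℝ) < 2 ^ j := by positivity
    simp only [w] at hle
    rw [← mul_div_assoc, div_le_div_iff_of_pos_right h2] at hle
    exact hle
  have h1 := Dn_mul_pow_ge hj1 hN0 hp hx
  have h2 := Dn_mul_pow_le hj1 hN0 hq y
  rw [← hNn] at h2
  have hfp : n.factorization p = N.factorization p := by
    rw [hNn, Nat.factorization_mul hN0 (pow_ne_zero _ hq.ne_zero), hq.factorization_pow]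
    simp [Finsupp.single_apply, hpq.symm]
  have hfq : n.factorization q - y = N.factorization q := by
    rw [hNn, factorization_mul_pow_self hN0 hq]; omega
  rw [hfp, hfq]
  have hD : (0 : ℝ) < Dn j N := by exact_mod_cast Dn_pos hj1 hN0
  have hJ0' : (0 : ℝ) ≤ 1 + 1 / (J : ℝ) := by positivity
  have h3 : r j (N.factorization p + x - 1) ^ x * (Dn j N : ℝ)
      ≤ ((1 + 1 / (J : ℝ)) * (r j (N.factorization q)) ^ y) * Dn j N := by
    calc _ ≤ (Dn j (N * p ^ x) : ℝ) := h1
      _ ≤ (1 + 1 / (J : ℝ)) * Dn j n := hle'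
      _ ≤ (1 + 1 / (J : ℝ)) * (r j (N.factorization q) ^ y * Dn j N) :=
          mul_le_mul_of_nonneg_left h2 hJ0'
      _ = _ := by ring
  exact le_of_mul_le_mul_right h3 hD

end Pool.Agent.Lib.MP_9f8414_nt
end

section

/-!
# Structure of the exponents, part 1
-/

namespace Pool.Agent.Lib.MP_9f8414_nt

open ArithmeticFunction Finset

theorem Fn_eq_prod' (n : ℕ) (x : ℝ) {P : Finset ℕ} (hP : n.primeFactors ⊆ P) :
    Fn n x = ∏ p ∈ P, (1 + (n.factorization p : ℝ) / x) := by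
  unfold Fn
  refine Finset.prod_subset hP fun p _ hp => ?_
  have : n.factorization p = 0 := by
    rw [← Finsupp.notMem_support_iff]
    simpa using hp
  rw [this]; simp

theorem Fn_ge_prod (n : ℕ) {x : ℝ} (hx : 0 < x) (P : Finset ℕ) :
    ∏ p ∈ P, (1 + (n.factorization p : ℝ) / x) ≤ Fn n x := by
  rw [Fn_eq_prod' n x (Finset.subset_union_right (s₁ := P) (s₂ := n.primeFactors)),
    ← Finset.prod_sdiff (Finset.subset_union_left (s₁ := P) (s₂ := n.primeFactors))]
  have h1 : (1 : ℝ) ≤ ∏ p ∈ (P ∪ n.primeFactors) \ P, (1 + (n.factorization p : ℝ) / x) := by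
    calc (1 : ℝ) = ∏ p ∈ (P ∪ n.primeFactors) \ P, (1 : ℝ) := by simp
      _ ≤ _ := Finset.prod_le_prod (fun _ _ => by norm_num) (fun p _ => by
          have : 0 ≤ (n.factorization p : ℝ) / x := by positivity
          linarith)
  have h2 : 0 ≤ ∏ p ∈ P, (1 + (n.factorization p : ℝ) / x) :=
    Finset.prod_nonneg fun p _ => by positivity
  nlinarith

theorem r_eq (j k : ℕ) : r j k = 1 + ((j : ℝ) - 1) / (k + 1) := by
  unfold r
  have hk : (0 : ℝ) < (k : ℝ) + 1 := by positivity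
  field_simp
  ring

/-- upper bound for `r` -/
theorem r_le_of {j k : ℕ} {R : ℝ} (h : (k : ℝ) + j ≤ R * (k + 1)) : r j k ≤ R := by
  unfold r
  rw [div_le_iff₀ (by positivity)]
  exact h

theorem le_r_of {j k : ℕ} {R : ℝ} (h : R * (k + 1) ≤ (k : ℝ) + j) : R ≤ r j k := by
  unfold r
  rw [le_div_iff₀ (by positivity)]
  exact h

theorem of_r_le {j k : ℕ} {R : ℝ} (h : r j k ≤ R) : (k : ℝ) + j ≤ R * (k + 1) := by
  unfold r at h
  rwa [div_le_iff₀ (by positivity)] at h

theorem of_le_r {j k : ℕ} {R : ℝ} (h : R ≤ r j k) : R * (k + 1) ≤ (k : ℝ) + j := by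
  unfold r at h
  rwa [le_div_iff₀ (by positivity)] at h

theorem one_div_J_le {J : ℕ} (hJ : 1000000 ≤ J) : 1 / (J : ℝ) ≤ 1 / 1000000 := by
  have : (1000000 : ℝ) ≤ J := by exact_mod_cast hJ
  exact one_div_le_one_div_of_le (by norm_num) this

theorem alpha2_le {J : ℕ} (hJ : 1000000 ≤ J) {n : ℕ} (hm : IsMode n J) (hs : SwapProp n J) :
    (n.factorization 2 : ℝ) ≤ 58 / 100 * J := by
  by_contra hcon
  push Not at hcon
  have hJr : (1000000 : ℝ) ≤ J := by exact_mod_cast hJ
  have hinv := one_div_J_le hJ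
  set A2 := n.factorization 2 with hA2
  set A3 := n.factorization 3 with hA3
  set A5 := n.factorization 5 with hA5
  have hA2big : 5 ≤ A2 := by
    have : (5 : ℝ) ≤ A2 := by linarith
    exact_mod_cast this
  -- the move 27/32
  have h3 : (23 / 100 : ℝ) * J ≤ A3 := by
    obtain ⟨j, hj, h⟩ := hs 3 2 3 5 Nat.prime_three Nat.prime_two (by norm_num) (by norm_num)
      (by norm_num) (by norm_num) hA2big
    obtain ⟨hb1, hb2⟩ := W_bounds hj
    have hj1 : 1 ≤ j := one_le_of_mem_W hm.2.1 hj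
    have e1 : ((A2 - 5 : ℕ) : ℝ) = A2 - 5 := by rw [Nat.cast_sub hA2big]; norm_num
    have hr2 : r j (A2 - 5) ≤ 2729 / 1000 := by
      apply r_le_of
      rw [e1]
      linarith
    have hr0 := r_pos hj1 (A2 - 5)
    have h5 : r j (A2 - 5) ^ 5 ≤ (2729 / 1000 : ℝ) ^ 5 := pow_le_pow_left₀ hr0.le hr2 5
    have h6 : r j (A3 + 3 - 1) ^ 3 ≤ (533 / 100 : ℝ) ^ 3 := by
      refine h.trans ?_
      calc (1 + 1 / (J : ℝ)) * r j (A2 - 5) ^ 5 ≤ (1 + 1 / 1000000) * (2729 / 1000 : ℝ) ^ 5 := by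
            gcongr
        _ ≤ _ := by norm_num
    have h7 : r j (A3 + 3 - 1) ≤ 533 / 100 :=
      le_of_pow_le_pow_left₀ (by norm_num) (by norm_num) h6
    have h8 := of_r_le h7
    have e3 : ((A3 + 3 - 1 : ℕ) : ℝ) = A3 + 2 := by
      have : A3 + 3 - 1 = A3 + 2 := by omega
      rw [this]; push_cast; ring
    rw [e3] at h8
    linarith
  have h5 : (515 / 10000 : ℝ) * J ≤ A5 := by
    obtain ⟨j, hj, h⟩ := hs 5 2 1 3 Nat.prime_five Nat.prime_two (by norm_num) (by norm_num)
      (by norm_num) (by norm_num) (by omega)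
    obtain ⟨hb1, hb2⟩ := W_bounds hj
    have hj1 : 1 ≤ j := one_le_of_mem_W hm.2.1 hj
    have e1 : ((A2 - 3 : ℕ) : ℝ) = A2 - 3 := by rw [Nat.cast_sub (by omega)]; norm_num
    have hr2 : r j (A2 - 3) ≤ 2729 / 1000 := by
      apply r_le_of
      rw [e1]
      linarith
    have hr0 := r_pos hj1 (A2 - 3)
    have h5 : r j (A2 - 3) ^ 3 ≤ (2729 / 1000 : ℝ) ^ 3 := pow_le_pow_left₀ hr0.le hr2 3
    have h7 : r j (A5 + 1 - 1) ≤ 2033 / 100 := by
      rw [pow_one] at h
      refine h.trans ?_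
      calc (1 + 1 / (J : ℝ)) * r j (A2 - 3) ^ 3 ≤ (1 + 1 / 1000000) * (2729 / 1000 : ℝ) ^ 3 := by
            gcongr
        _ ≤ _ := by norm_num
    have h8 := of_r_le h7
    have e3 : ((A5 + 1 - 1 : ℕ) : ℝ) = A5 := by
      have : A5 + 1 - 1 = A5 := by omega
      rw [this]
    rw [e3] at h8
    linarith
  have hF := Fn_ge_prod n (x := (J : ℝ) + 1) (by linarith) {2, 3, 5}
  rw [Finset.prod_insert (by norm_num), Finset.prod_insert (by norm_num),
    Finset.prod_singleton] at hF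
  rw [← hA2, ← hA3, ← hA5] at hF
  have hJ1 : (0 : ℝ) < (J : ℝ) + 1 := by linarith
  have g2 : (15799 / 10000 : ℝ) ≤ 1 + (A2 : ℝ) / (J + 1) := by
    have : (5799 / 10000 : ℝ) ≤ (A2 : ℝ) / (J + 1) := by
      rw [le_div_iff₀ hJ1]; linarith
    linarith
  have g3 : (12299 / 10000 : ℝ) ≤ 1 + (A3 : ℝ) / (J + 1) := by
    have : (2299 / 10000 : ℝ) ≤ (A3 : ℝ) / (J + 1) := by
      rw [le_div_iff₀ hJ1]; linarith
    linarith
  have g5 : (10514 / 10000 : ℝ) ≤ 1 + (A5 : ℝ) / (J + 1) := by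
    have : (514 / 10000 : ℝ) ≤ (A5 : ℝ) / (J + 1) := by
      rw [le_div_iff₀ hJ1]; linarith
    linarith
  have hlt := hm.2.2.2
  have : (15799 / 10000 : ℝ) * (12299 / 10000 * (10514 / 10000))
      ≤ (1 + (A2 : ℝ) / (J + 1)) * ((1 + (A3 : ℝ) / (J + 1)) * (1 + (A5 : ℝ) / (J + 1))) := by
    gcongr
  norm_num at this
  linarith

theorem exp_decay : ∃ e0 : ℕ, ∀ e : ℕ, e0 ≤ e →
    2 * (1001 / 1000) * (100000 * ((e : ℝ) + 1)) < (5 / 2 : ℝ) ^ e := by
  have h1 := tendsto_pow_const_mul_const_pow_of_abs_lt_one 1 (r := (2 / 5 : ℝ))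
    (by rw [abs_of_pos] <;> norm_num)
  have h0 := tendsto_pow_const_mul_const_pow_of_abs_lt_one 0 (r := (2 / 5 : ℝ))
    (by rw [abs_of_pos] <;> norm_num)
  have h := (h1.const_mul 200200).add (h0.const_mul 200200)
  simp only [mul_zero, add_zero] at h
  have h' := h.eventually (gt_mem_nhds (by norm_num : (0 : ℝ) < 1))
  obtain ⟨e0, he0⟩ := Filter.eventually_atTop.1 h'
  refine ⟨e0, fun e he => ?_⟩
  have := he0 e he
  have e1 : (5 / 2 : ℝ) ^ e * (2 / 5 : ℝ) ^ e = 1 := by
    rw [← mul_pow]; norm_num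
  have hp : (0 : ℝ) < (5 / 2 : ℝ) ^ e := by positivity
  have h3 := mul_lt_mul_of_pos_left this hp
  calc 2 * (1001 / 1000) * (100000 * ((e : ℝ) + 1))
      = (200200 * (e + 1)) * ((5 / 2 : ℝ) ^ e * (2 / 5 : ℝ) ^ e) := by rw [e1]; ring
    _ = (5 / 2 : ℝ) ^ e * (200200 * ((e : ℝ) ^ 1 * (2 / 5) ^ e)
        + 200200 * ((e : ℝ) ^ 0 * (2 / 5) ^ e)) := by ring
    _ < (5 / 2 : ℝ) ^ e * 1 := h3
    _ = _ := mul_one _

/-- a prime `p ∣ n` with `2 ^ a < p` has `a ≤ J / 10^5` -/
theorem a_small : ∃ J0 : ℕ, ∀ J : ℕ, J0 ≤ J → ∀ n : ℕ, IsMode n J → SwapProp n J →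
    ∀ p a : ℕ, p ∈ n.primeFactors → p ≠ 2 → 2 ^ a < p → a ≤ J / 100000 := by
  obtain ⟨e0, he0⟩ := exp_decay
  refine ⟨max 1000000 (100000 * e0), fun J hJ n hm hs p a hp hp2 ha => ?_⟩
  have hJ1 : 1000000 ≤ J := le_trans (le_max_left _ _) hJ
  have hJ2 : 100000 * e0 ≤ J := le_trans (le_max_right _ _) hJ
  by_contra hcon
  push Not at hcon
  set e := J / 100000 with he
  have hee : e0 ≤ e := by omega
  have he1 : 1 ≤ e := by omega
  have hpe : 2 ^ e < p := lt_trans (Nat.pow_lt_pow_right (by norm_num) hcon) ha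
  have hpp : p.Prime := Nat.prime_of_mem_primeFactors hp
  have hα : 1 ≤ n.factorization p :=
    (hpp.dvd_iff_one_le_factorization hm.1).1 (Nat.dvd_of_mem_primeFactors hp)
  obtain ⟨j, hj, h⟩ := hs 2 p e 1 Nat.prime_two hpp hp2.symm he1 (le_refl _) (by simpa using hpe) hα
  obtain ⟨hb1, hb2⟩ := W_bounds hj
  have hj1 : 1 ≤ j := one_le_of_mem_W hm.2.1 hj
  have hj1r : (1 : ℝ) ≤ j := by exact_mod_cast hj1
  have hJr : (1000000 : ℝ) ≤ J := by exact_mod_cast hJ1
  have hA2 := alpha2_le hJ1 hm hs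
  have heJ : (e : ℝ) ≤ J / 100000 := by
    have : 100000 * e ≤ J := by omega
    have : (100000 : ℝ) * e ≤ J := by exact_mod_cast this
    linarith
  have hr : (5 / 2 : ℝ) ≤ r j (n.factorization 2 + e - 1) := by
    apply le_r_of
    have e1 : ((n.factorization 2 + e - 1 : ℕ) : ℝ) = n.factorization 2 + e - 1 := by
      rw [Nat.cast_sub (by omega)]; push_cast; ring
    rw [e1]
    linarith
  have h1 : (5 / 2 : ℝ) ^ e ≤ r j (n.factorization 2 + e - 1) ^ e :=
    pow_le_pow_left₀ (by norm_num) hr e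
  have h2 : r j (n.factorization p - 1) ≤ j := by
    apply r_le_of
    have e1 : ((n.factorization p - 1 : ℕ) : ℝ) = n.factorization p - 1 := by
      rw [Nat.cast_sub hα]; push_cast; ring
    rw [e1]
    have hαr : (1 : ℝ) ≤ n.factorization p := by exact_mod_cast hα
    nlinarith [mul_nonneg (sub_nonneg.2 hj1r) (sub_nonneg.2 hαr)]
  have hinv := one_div_J_le hJ1
  have h3 : (5 / 2 : ℝ) ^ e ≤ 2 * (1001 / 1000 * J) := by
    calc (5 / 2 : ℝ) ^ e ≤ _ := h1.trans h
      _ ≤ 2 * (1001 / 1000 * J) := by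
        rw [pow_one]
        have h0 := (r_pos hj1 (n.factorization p - 1)).le
        refine mul_le_mul (by linarith) (h2.trans hb2) h0 (by norm_num)
  have h4 := he0 e hee
  have h5 : (J : ℝ) ≤ 100000 * ((e : ℝ) + 1) := by
    have : J ≤ 100000 * (e + 1) := by omega
    exact_mod_cast this
  linarith

/-- main upper bound for `α_p` -/
theorem alpha_upper {J : ℕ} (hJ : 1000000 ≤ J) {n : ℕ} (hm : IsMode n J) (hs : SwapProp n J)
    {x K : ℝ} (hx : (n.factorization 2 : ℝ) ≤ x * J) (hx1 : x ≤ 1) (hK : 1 ≤ K)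
    (hxK : (K - 1) * (x + 1 / 100000) ≤ 9989 / 10000)
    {p a : ℕ} (hp : p ∈ n.primeFactors) (hp2 : p ≠ 2) (ha : 2 ^ a < p) (ha1 : 1 ≤ a)
    (haJ : a ≤ J / 100000) :
    (n.factorization p : ℝ) * (K ^ a - 10001 / 10000) ≤ 10011 / 10000 * J := by
  have hpp : p.Prime := Nat.prime_of_mem_primeFactors hp
  have hα : 1 ≤ n.factorization p :=
    (hpp.dvd_iff_one_le_factorization hm.1).1 (Nat.dvd_of_mem_primeFactors hp)
  obtain ⟨j, hj, h⟩ := hs 2 p a 1 Nat.prime_two hpp hp2.symm ha1 (le_refl _) (by simpa using ha) hα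
  obtain ⟨hb1, hb2⟩ := W_bounds hj
  have hj1 : 1 ≤ j := one_le_of_mem_W hm.2.1 hj
  have hj1r : (1 : ℝ) ≤ j := by exact_mod_cast hj1
  have hJr : (1000000 : ℝ) ≤ J := by exact_mod_cast hJ
  have heJ : (a : ℝ) ≤ J / 100000 := by
    have : 100000 * a ≤ J := by omega
    have : (100000 : ℝ) * a ≤ J := by exact_mod_cast this
    linarith
  have hr : K ≤ r j (n.factorization 2 + a - 1) := by
    apply le_r_of
    have e1 : ((n.factorization 2 + a - 1 : ℕ) : ℝ) = n.factorization 2 + a - 1 := by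
      rw [Nat.cast_sub (by omega)]; push_cast; ring
    rw [e1]
    have h1 : (n.factorization 2 : ℝ) + a ≤ (x + 1 / 100000) * J := by linarith
    have h2 : (K - 1) * ((n.factorization 2 : ℝ) + a) ≤ (K - 1) * ((x + 1 / 100000) * J) :=
      mul_le_mul_of_nonneg_left h1 (by linarith)
    have h3 : (K - 1) * ((x + 1 / 100000) * J) ≤ 9989 / 10000 * J := by
      have := mul_le_mul_of_nonneg_right hxK (by linarith : (0 : ℝ) ≤ J)
      linarith
    linarith
  have h1 : K ^ a ≤ r j (n.factorization 2 + a - 1) ^ a :=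
    pow_le_pow_left₀ (by linarith) hr a
  have h2 := h1.trans h
  rw [pow_one, r_eq] at h2
  have e1 : ((n.factorization p - 1 : ℕ) : ℝ) + 1 = n.factorization p := by
    rw [Nat.cast_sub hα]; push_cast; ring
  rw [e1] at h2
  have hαr : (0 : ℝ) < n.factorization p := by
    have : (1 : ℝ) ≤ n.factorization p := by exact_mod_cast hα
    linarith
  have hinv := one_div_J_le hJ
  have hinv0 : 0 ≤ 1 / (J : ℝ) := by positivity
  have h3 : (n.factorization p : ℝ) * K ^ a
      ≤ (1 + 1 / (J : ℝ)) * (n.factorization p + (j - 1)) := by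
    calc (n.factorization p : ℝ) * K ^ a
        ≤ n.factorization p * ((1 + 1 / (J : ℝ)) * (1 + (j - 1) / n.factorization p)) :=
          mul_le_mul_of_nonneg_left h2 hαr.le
      _ = _ := by field_simp
  have h4 : (1 + 1 / (J : ℝ)) * (n.factorization p + (j - 1))
      ≤ (1 + 1 / 1000000) * (n.factorization p + (j - 1)) := by
    refine mul_le_mul_of_nonneg_right (by linarith) (by linarith)
  nlinarith

/-- upper bound for `α_3` -/
theorem alpha3_upper {J : ℕ} (hJ : 1000000 ≤ J) {n : ℕ} (hm : IsMode n J) (hs : SwapProp n J)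
    {x K L : ℝ} (hx : (n.factorization 2 : ℝ) ≤ x * J) (hx1 : x ≤ 1) (hK : 1 ≤ K)
    (hxK : (K - 1) * (x + 1 / 100000) ≤ 9989 / 10000) (hL : 1 < L)
    (hL2 : 1000001 / 1000000 * L ^ 2 ≤ K ^ 3) :
    ((n.factorization 3 : ℝ) - 1) * (L - 1) ≤ 1001 / 1000 * J := by
  have hJr : (1000000 : ℝ) ≤ J := by exact_mod_cast hJ
  rcases Nat.lt_or_ge (n.factorization 3) 2 with h2 | h2
  · have h3 : (n.factorization 3 : ℝ) ≤ 1 := by exact_mod_cast (by omega : n.factorization 3 ≤ 1)
    have : ((n.factorization 3 : ℝ) - 1) * (L - 1) ≤ 0 :=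
      mul_nonpos_of_nonpos_of_nonneg (by linarith) (by linarith)
    linarith
  obtain ⟨j, hj, h⟩ := hs 2 3 3 2 Nat.prime_two Nat.prime_three (by norm_num) (by norm_num)
    (by norm_num) (by norm_num) h2
  obtain ⟨hb1, hb2⟩ := W_bounds hj
  have hj1 : 1 ≤ j := one_le_of_mem_W hm.2.1 hj
  have hj1r : (1 : ℝ) ≤ j := by exact_mod_cast hj1
  have hr : K ≤ r j (n.factorization 2 + 3 - 1) := by
    apply le_r_of
    have e1 : ((n.factorization 2 + 3 - 1 : ℕ) : ℝ) = n.factorization 2 + 3 - 1 := by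
      rw [Nat.cast_sub (by omega)]; push_cast; ring
    rw [e1]
    have h1 : (n.factorization 2 : ℝ) + 3 ≤ (x + 1 / 100000) * J := by linarith
    have h2 : (K - 1) * ((n.factorization 2 : ℝ) + 3) ≤ (K - 1) * ((x + 1 / 100000) * J) :=
      mul_le_mul_of_nonneg_left h1 (by linarith)
    have h3 : (K - 1) * ((x + 1 / 100000) * J) ≤ 9989 / 10000 * J := by
      have := mul_le_mul_of_nonneg_right hxK (by linarith : (0 : ℝ) ≤ J)
      linarith
    linarith
  have h1 : K ^ 3 ≤ r j (n.factorization 2 + 3 - 1) ^ 3 := pow_le_pow_left₀ (by linarith) hr 3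
  have hinv := one_div_J_le hJ
  have h4 : (1000001 / 1000000) * L ^ 2
      ≤ (1000001 / 1000000) * r j (n.factorization 3 - 2) ^ 2 := by
    refine hL2.trans (h1.trans (h.trans ?_))
    refine mul_le_mul_of_nonneg_right (by linarith) (by positivity)
  have h5 : L ^ 2 ≤ r j (n.factorization 3 - 2) ^ 2 := le_of_mul_le_mul_left h4 (by norm_num)
  have h6 : L ≤ r j (n.factorization 3 - 2) :=
    le_of_pow_le_pow_left₀ (by norm_num) (r_pos hj1 _).le h5
  have h7 := of_le_r h6
  have e1 : ((n.factorization 3 - 2 : ℕ) : ℝ) = n.factorization 3 - 2 := by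
    rw [Nat.cast_sub h2]; push_cast; ring
  rw [e1] at h7
  nlinarith

end Pool.Agent.Lib.MP_9f8414_nt
end

section

/-!
# Structure of the exponents, part 2: lower bound for the exponent of two
-/

namespace Pool.Agent.Lib.MP_9f8414_nt

open ArithmeticFunction Finset

theorem card_dyadic (S : Finset ℕ) (hS : ∀ p ∈ S, p.Prime ∧ 8 ≤ p) (a : ℕ) :
    (S.filter (fun p => Nat.log 2 p = a)).card ≤ if a < 3 then 0 else 2 ^ (a - 1) := by
  split_ifs with h
  · rw [Nat.le_zero, Finset.card_eq_zero, Finset.filter_eq_empty_iff]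
    intro p hp hlog
    have h8 := (hS p hp).2
    have h1 : p < 2 ^ (a + 1) := by
      rw [← hlog]; exact Nat.lt_pow_succ_log_self (by norm_num) p
    have h2 : 2 ^ (a + 1) ≤ 2 ^ 3 := Nat.pow_le_pow_right (by norm_num) (by omega)
    omega
  · push Not at h
    have hsub : S.filter (fun p => Nat.log 2 p = a)
        ⊆ (Finset.Ico (2 ^ (a - 1)) (2 ^ a)).image (fun i => 2 * i + 1) := by
      intro p hp
      rw [Finset.mem_filter] at hp
      obtain ⟨hpS, hlog⟩ := hp
      obtain ⟨hpp, h8⟩ := hS p hpS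
      have h1 : p < 2 ^ (a + 1) := by
        rw [← hlog]; exact Nat.lt_pow_succ_log_self (by norm_num) p
      have h2 : 2 ^ a ≤ p := by
        rw [← hlog]; exact Nat.pow_log_le_self 2 (by omega)
      have hodd : p % 2 = 1 := by
        rcases hpp.eq_two_or_odd with h | h
        · omega
        · exact h
      rw [Finset.mem_image]
      refine ⟨p / 2, ?_, by omega⟩
      rw [Finset.mem_Ico]
      have e1 : 2 ^ a = 2 * 2 ^ (a - 1) := by
        rw [← pow_succ']; congr 1; omega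
      have e2 : 2 ^ (a + 1) = 2 * 2 ^ a := pow_succ' 2 a
      constructor <;> omega
    refine (Finset.card_le_card hsub).trans (Finset.card_image_le.trans ?_)
    rw [Nat.card_Ico]
    have e1 : 2 ^ a = 2 * 2 ^ (a - 1) := by
      rw [← pow_succ']; congr 1; omega
    omega

theorem sum_dyadic (S : Finset ℕ) (hS : ∀ p ∈ S, p.Prime ∧ 8 ≤ p) {z : ℝ} (hz : 0 < z)
    (hz2 : 2 * z < 1) : ∑ p ∈ S, z ^ (Nat.log 2 p) ≤ 4 * z ^ 3 / (1 - 2 * z) := by
  classical
  set L := S.sup id with hL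
  have hmaps : ∀ p ∈ S, Nat.log 2 p ∈ Finset.range (3 + L) := by
    intro p hp
    rw [Finset.mem_range]
    have h1 : p ≤ L := Finset.le_sup (f := id) hp
    have h2 : Nat.log 2 p ≤ p := Nat.log_le_self 2 p
    omega
  rw [← Finset.sum_fiberwise_of_maps_to hmaps]
  have h1 : ∀ a ∈ Finset.range (3 + L), ∑ p ∈ S with Nat.log 2 p = a, z ^ (Nat.log 2 p)
      ≤ (if a < 3 then 0 else 2 ^ (a - 1) : ℝ) * z ^ a := by
    intro a _
    have e1 : ∑ p ∈ S with Nat.log 2 p = a, z ^ (Nat.log 2 p)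
        = ((S.filter (fun p => Nat.log 2 p = a)).card : ℝ) * z ^ a := by
      rw [← nsmul_eq_mul, ← Finset.sum_const]
      refine Finset.sum_congr rfl fun p hp => ?_
      rw [Finset.mem_filter] at hp
      rw [hp.2]
    rw [e1]
    refine mul_le_mul_of_nonneg_right ?_ (by positivity)
    have := card_dyadic S hS a
    have h2 : ((S.filter (fun p => Nat.log 2 p = a)).card : ℝ)
        ≤ ((if a < 3 then 0 else 2 ^ (a - 1) : ℕ) : ℝ) := by exact_mod_cast this
    refine h2.trans (le_of_eq ?_)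
    split_ifs <;> simp
  refine (Finset.sum_le_sum h1).trans ?_
  rw [Finset.sum_range_add]
  have e0 : ∑ x ∈ Finset.range 3, (if x < 3 then 0 else 2 ^ (x - 1) : ℝ) * z ^ x = 0 := by
    refine Finset.sum_eq_zero fun x hx => ?_
    rw [Finset.mem_range] at hx
    rw [if_pos hx, zero_mul]
  rw [e0, zero_add]
  have e2 : ∑ x ∈ Finset.range L, (if 3 + x < 3 then 0 else 2 ^ (3 + x - 1) : ℝ) * z ^ (3 + x)
      = (4 * z ^ 3) * ∑ x ∈ Finset.range L, (2 * z) ^ x := by
    rw [Finset.mul_sum]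
    refine Finset.sum_congr rfl fun x _ => ?_
    rw [if_neg (by omega)]
    have : 3 + x - 1 = 2 + x := by omega
    rw [this, pow_add, pow_add, mul_pow]
    ring
  rw [e2, div_eq_mul_inv]
  refine mul_le_mul_of_nonneg_left ?_ (by positivity)
  rw [← tsum_geometric_of_lt_one (by linarith) hz2]
  exact (summable_geometric_of_lt_one (by linarith) hz2).sum_le_tsum _
    (fun i _ => by positivity)

theorem prod_le_exp (S : Finset ℕ) (y : ℕ → ℝ) (hy : ∀ p ∈ S, 0 ≤ y p) :
    ∏ p ∈ S, (1 + y p) ≤ Real.exp (∑ p ∈ S, y p) := by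
  rw [Real.exp_sum]
  refine Finset.prod_le_prod (fun p hp => by linarith [hy p hp]) (fun p _ => ?_)
  have := Real.add_one_le_exp (y p)
  linarith

theorem exp_small : Real.exp (1309 / 10000) ≤ 11424 / 10000 := by
  have h1 : Real.exp (1309 / 10000) = (Real.exp (1309 / 40000)) ^ 4 := by
    rw [← Real.exp_nat_mul]; norm_num
  have h2 : Real.exp (1309 / 40000) ≤ 1 / (1 - 1309 / 40000) := by
    have h3 := Real.add_one_le_exp (-(1309 / 40000 : ℝ))
    rw [Real.exp_neg] at h3
    have h4 : (0 : ℝ) < 1 - 1309 / 40000 := by norm_num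
    have h5 : (0 : ℝ) < Real.exp (1309 / 40000) := Real.exp_pos _
    rw [le_div_iff₀ h4]
    have h6 : (-(1309 / 40000 : ℝ) + 1) * Real.exp (1309 / 40000) ≤ 1 := by
      calc (-(1309 / 40000 : ℝ) + 1) * Real.exp (1309 / 40000)
          ≤ (Real.exp (1309 / 40000))⁻¹ * Real.exp (1309 / 40000) :=
            mul_le_mul_of_nonneg_right h3 h5.le
        _ = 1 := inv_mul_cancel₀ h5.ne'
    linarith
  rw [h1]
  calc (Real.exp (1309 / 40000)) ^ 4 ≤ (1 / (1 - 1309 / 40000)) ^ 4 :=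
        pow_le_pow_left₀ (Real.exp_pos _).le h2 4
    _ ≤ _ := by norm_num

theorem prime_ge_eight {p : ℕ} (hp : p.Prime) (h : p ∉ ({2, 3, 5, 7} : Finset ℕ)) : 8 ≤ p := by
  by_contra hcon
  push Not at hcon
  simp only [Finset.mem_insert, Finset.mem_singleton, not_or] at h
  interval_cases p <;> revert hp <;> norm_num
  all_goals omega

theorem alpha2_ge : ∃ J0 : ℕ, ∀ J : ℕ, J0 ≤ J → ∀ n : ℕ, IsMode n J → SwapProp n J →
    (336 / 1000 : ℝ) * J ≤ n.factorization 2 := by
  obtain ⟨J0, hJ0⟩ := a_small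
  refine ⟨max J0 1000000, fun J hJ n hm hs => ?_⟩
  have hJ1 : J0 ≤ J := le_trans (le_max_left _ _) hJ
  have hJ2 : 1000000 ≤ J := le_trans (le_max_right _ _) hJ
  have hJr : (1000000 : ℝ) ≤ J := by exact_mod_cast hJ2
  by_contra hcon
  push Not at hcon
  have hup : ∀ p a : ℕ, p ∈ n.primeFactors → p ≠ 2 → 2 ^ a < p → 1 ≤ a →
      (n.factorization p : ℝ) * ((3972 / 1000 : ℝ) ^ a - 10001 / 10000) ≤ 10011 / 10000 * J := by
    intro p a hp hp2 ha ha1
    exact alpha_upper hJ2 hm hs (x := 336 / 1000) (K := 3972 / 1000) hcon.le (by norm_num)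
      (by norm_num) (by norm_num) hp hp2 ha ha1 (hJ0 J hJ1 n hm hs p a hp hp2 ha)
  have h3 := alpha3_upper hJ2 hm hs (x := 336 / 1000) (K := 3972 / 1000) (L := 79157 / 10000)
    hcon.le (by norm_num) (by norm_num) (by norm_num) (by norm_num) (by norm_num)
  have hy : ∀ p ∈ ({5, 7} : Finset ℕ), (n.factorization p : ℝ) ≤ 678 / 10000 * J := by
    intro p hp
    by_cases hmem : p ∈ n.primeFactors
    · have h4 : 2 ^ 2 < p := by
        simp only [Finset.mem_insert, Finset.mem_singleton] at hp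
        omega
      have := hup p 2 hmem (by omega) h4 (by norm_num)
      norm_num at this
      linarith
    · have : n.factorization p = 0 := by
        rw [← Finsupp.notMem_support_iff]
        simpa using hmem
      rw [this]
      simp only [Nat.cast_zero]
      positivity
  have hy5 := hy 5 (by simp)
  have hy7 := hy 7 (by simp)
  set S := n.primeFactors \ {2, 3, 5, 7} with hS
  have hSp : ∀ p ∈ S, p.Prime ∧ 8 ≤ p := by
    intro p hp
    rw [hS, Finset.mem_sdiff] at hp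
    have hpp := Nat.prime_of_mem_primeFactors hp.1
    exact ⟨hpp, prime_ge_eight hpp hp.2⟩
  have hJ0' : (0 : ℝ) < J := by linarith
  have hS1 : ∏ p ∈ S, (1 + (n.factorization p : ℝ) / J) ≤ 11424 / 10000 := by
    refine (prod_le_exp S _ (fun p _ => by positivity)).trans ?_
    refine le_trans (Real.exp_le_exp.2 ?_) exp_small
    have hterm : ∀ p ∈ S, (n.factorization p : ℝ) / J
        ≤ 10175 / 10000 * (1000 / 3972 : ℝ) ^ (Nat.log 2 p) := by
      intro p hp
      obtain ⟨hpp, h8⟩ := hSp p hp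
      have hpn : p ∈ n.primeFactors := by rw [hS, Finset.mem_sdiff] at hp; exact hp.1
      have hlog3 : 3 ≤ Nat.log 2 p := by
        exact Nat.le_log_of_pow_le (by norm_num) (by omega)
      have h2a : 2 ^ (Nat.log 2 p) ≤ p := Nat.pow_log_le_self 2 (by omega)
      have h2a' : 2 ^ (Nat.log 2 p) ≠ p := by
        intro h
        have hd : 2 ∣ p := by rw [← h]; exact dvd_pow_self 2 (by omega)
        have := (Nat.prime_dvd_prime_iff_eq Nat.prime_two hpp).1 hd
        omega
      have h4 := hup p (Nat.log 2 p) hpn (by omega) (by omega) (by omega)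
      set a := Nat.log 2 p with ha
      have hK3 : (626 / 10 : ℝ) ≤ (3972 / 1000 : ℝ) ^ a := by
        calc (626 / 10 : ℝ) ≤ (3972 / 1000 : ℝ) ^ 3 := by norm_num
          _ ≤ _ := pow_le_pow_right₀ (by norm_num) hlog3
      set Q := (3972 / 1000 : ℝ) ^ a with hQ
      have e1 : (1000 / 3972 : ℝ) ^ a = 1 / Q := by
        rw [hQ, one_div, ← inv_pow]; norm_num
      rw [e1, div_le_iff₀ hJ0']
      have hα0 : (0 : ℝ) ≤ n.factorization p := by positivity
      have hQ0 : 0 < Q := by linarith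
      rw [mul_one_div, div_mul_eq_mul_div, le_div_iff₀ hQ0]
      have h5 : (n.factorization p : ℝ) * Q * (10000 / 10163) ≤ n.factorization p * (Q - 10001 / 10000) := by
        rw [mul_assoc]
        refine mul_le_mul_of_nonneg_left ?_ hα0
        linarith
      nlinarith
    refine (Finset.sum_le_sum hterm).trans ?_
    rw [← Finset.mul_sum]
    have h5 := sum_dyadic S hSp (z := 1000 / 3972) (by norm_num) (by norm_num)
    calc (10175 / 10000 : ℝ) * ∑ p ∈ S, (1000 / 3972 : ℝ) ^ (Nat.log 2 p)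
        ≤ 10175 / 10000 * (4 * (1000 / 3972) ^ 3 / (1 - 2 * (1000 / 3972))) := by gcongr
      _ ≤ _ := by norm_num
  have hF : Fn n J ≤ (13361 / 10000 : ℝ) * ((11449 / 10000) * ((10678 / 10000)
      * ((10678 / 10000) * (11424 / 10000)))) := by
    have hP : n.primeFactors ⊆ {2, 3, 5, 7} ∪ S := by
      intro p hp
      rw [Finset.mem_union]
      by_cases h : p ∈ ({2, 3, 5, 7} : Finset ℕ)
      · exact Or.inl h
      · exact Or.inr (by rw [hS, Finset.mem_sdiff]; exact ⟨hp, h⟩)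
    have hdisj : Disjoint ({2, 3, 5, 7} : Finset ℕ) S := by
      rw [hS]; exact Finset.disjoint_sdiff
    rw [Fn_eq_prod' n J hP, Finset.prod_union hdisj]
    rw [Finset.prod_insert (by norm_num), Finset.prod_insert (by norm_num),
      Finset.prod_insert (by norm_num), Finset.prod_singleton]
    have g2 : 1 + (n.factorization 2 : ℝ) / J ≤ 13361 / 10000 := by
      have : (n.factorization 2 : ℝ) / J ≤ 336 / 1000 := by
        rw [div_le_iff₀ hJ0']; linarith
      linarith
    have g3 : 1 + (n.factorization 3 : ℝ) / J ≤ 11449 / 10000 := by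
      have : (n.factorization 3 : ℝ) / J ≤ 1449 / 10000 := by
        rw [div_le_iff₀ hJ0']; linarith
      linarith
    have g5 : 1 + (n.factorization 5 : ℝ) / J ≤ 10678 / 10000 := by
      have : (n.factorization 5 : ℝ) / J ≤ 678 / 10000 := by
        rw [div_le_iff₀ hJ0']; linarith
      linarith
    have g7 : 1 + (n.factorization 7 : ℝ) / J ≤ 10678 / 10000 := by
      have : (n.factorization 7 : ℝ) / J ≤ 678 / 10000 := by
        rw [div_le_iff₀ hJ0']; linarith
      linarith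
    have hS0 : 0 ≤ ∏ p ∈ S, (1 + (n.factorization p : ℝ) / J) :=
      Finset.prod_nonneg fun p _ => by positivity
    calc _ = (1 + (n.factorization 2 : ℝ) / J) * ((1 + (n.factorization 3 : ℝ) / J)
          * ((1 + (n.factorization 5 : ℝ) / J) * ((1 + (n.factorization 7 : ℝ) / J)
          * ∏ p ∈ S, (1 + (n.factorization p : ℝ) / J)))) := by ring
      _ ≤ _ := by gcongr
  have := hm.2.2.1
  norm_num at hF
  linarith

end Pool.Agent.Lib.MP_9f8414_nt
end
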